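import Pool.Agent.Helper52.PM.Det

set_option autoImplicit false

namespace Pool.Agent.Helper52.PM

theorem sum_sq_lower (h : ℕ) : (h : ℝ) ^ 3 / 3 ≤ ∑ x ∈ Finset.range (h + 1), (x : ℝ) ^ 2 := by
  induction h with
  | zero => simp
  | succ h ih =>
    rw [Finset.sum_range_succ]
    push_cast
    have : (0 : ℝ) ≤ h := by positivity
    nlinarith

/-- Reduction of the sum over the big box to a sum over one period. -/
theorem tent_sum_eq {m t k : ℕ} (ht : t ≤ m) (hk : k < 2 ^ t) (g : ℝ → ℝ) (hg : g 0 = 0) :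
    ∑ x ∈ Finset.range (2 ^ m), g (tent (sd m t) ((x : ℝ) - sd m t * k)) =
      ∑ x ∈ Finset.range (2 ^ (m - t)), g (tent (sd m t) x) := by
  have hn : (2 : ℕ) ^ (m - t) * (k + 1) ≤ 2 ^ m := by
    calc (2 : ℕ) ^ (m - t) * (k + 1) ≤ 2 ^ (m - t) * 2 ^ t := Nat.mul_le_mul_left _ hk
      _ = 2 ^ m := by rw [← pow_add]; congr 1; omega
  have hsub : Finset.Ico (2 ^ (m - t) * k) (2 ^ (m - t) * k + 2 ^ (m - t)) ⊆ Finset.range (2 ^ m) := by
    intro x hx
    rw [Finset.mem_Ico] at hx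
    rw [Finset.mem_range]
    have : 2 ^ (m - t) * (k + 1) = 2 ^ (m - t) * k + 2 ^ (m - t) := by ring
    omega
  rw [← Finset.sum_subset hsub]
  · rw [Finset.sum_Ico_eq_sum_range]
    rw [Nat.add_sub_cancel_left]
    apply Finset.sum_congr rfl
    intro x _
    congr 2
    unfold sd
    push_cast
    ring
  · intro x _ hx
    have : tent (sd m t) ((x : ℝ) - sd m t * k) = 0 := by
      rw [Finset.mem_Ico, not_and_or, not_le, not_lt] at hx
      rcases hx with hx | hx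
      · apply tent_of_nonpos
        have : (x : ℝ) ≤ 2 ^ (m - t) * k := by exact_mod_cast hx.le
        unfold sd
        linarith
      · apply tent_of_ge
        have : (2 : ℝ) ^ (m - t) * k + 2 ^ (m - t) ≤ x := by exact_mod_cast hx
        unfold sd
        linarith
    rw [this, hg]

theorem tent_sq_lower {m t k : ℕ} (ht : t < m) (hk : k < 2 ^ t) :
    (sd m t) ^ 3 / 24 ≤ ∑ x ∈ Finset.range (2 ^ m), (tent (sd m t) ((x : ℝ) - sd m t * k)) ^ 2 := by
  rw [tent_sum_eq ht.le hk (fun u => u ^ 2) (by norm_num)]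
  obtain ⟨h, hh⟩ : ∃ h : ℕ, h = 2 ^ (m - t - 1) := ⟨_, rfl⟩
  have h1 : 1 ≤ h := by rw [hh]; exact Nat.one_le_two_pow
  have h2 : 2 ^ (m - t) = 2 * h := by
    rw [hh, ← pow_succ']
    congr 1
    omega
  have hsd : sd m t = 2 * h := by
    unfold sd
    exact_mod_cast h2
  rw [h2]
  have hsub : Finset.range (h + 1) ⊆ Finset.range (2 * h) := by
    intro x hx
    rw [Finset.mem_range] at hx ⊢
    omega
  calc (sd m t) ^ 3 / 24 = (h : ℝ) ^ 3 / 3 := by rw [hsd]; ring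
    _ ≤ ∑ x ∈ Finset.range (h + 1), (x : ℝ) ^ 2 := sum_sq_lower h
    _ = ∑ x ∈ Finset.range (h + 1), (tent (sd m t) x) ^ 2 := by
      apply Finset.sum_congr rfl
      intro x hx
      rw [Finset.mem_range] at hx
      rw [tent_left (by positivity)]
      rw [hsd]
      have : (x : ℝ) ≤ h := by exact_mod_cast Nat.lt_succ_iff.1 hx
      linarith
    _ ≤ ∑ x ∈ Finset.range (2 * h), (tent (sd m t) x) ^ 2 :=
      Finset.sum_le_sum_of_subset_of_nonneg hsub (fun _ _ _ => sq_nonneg _)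

theorem tent_sq_upper {m t k : ℕ} (ht : t < m) (hk : k < 2 ^ t) :
    ∑ x ∈ Finset.range (2 ^ m), (tent (sd m t) ((x : ℝ) - sd m t * k)) ^ 2 ≤ (sd m t) ^ 3 / 4 := by
  rw [tent_sum_eq ht.le hk (fun u => u ^ 2) (by norm_num)]
  have hs := sd_pos m t
  calc ∑ x ∈ Finset.range (2 ^ (m - t)), (tent (sd m t) x) ^ 2 ≤
      ∑ x ∈ Finset.range (2 ^ (m - t)), (sd m t / 2) ^ 2 := by
        apply Finset.sum_le_sum
        intro x _
        apply pow_le_pow_left₀ (tent_nonneg _ _) (tent_le hs.le)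
    _ = (sd m t) ^ 3 / 4 := by
      rw [Finset.sum_const, Finset.card_range, nsmul_eq_mul]
      unfold sd
      push_cast
      ring

theorem bump_sq_sum {m t i j : ℕ} :
    ∑ x ∈ Finset.range (2 ^ m), ∑ y ∈ Finset.range (2 ^ m), bump (sd m t) i j x y ^ 2 =
    (∑ x ∈ Finset.range (2 ^ m), (tent (sd m t) ((x : ℝ) - sd m t * i)) ^ 2) *
    (∑ y ∈ Finset.range (2 ^ m), (tent (sd m t) ((y : ℝ) - sd m t * j)) ^ 2) / (sd m t) ^ 2 := by
  unfold bump
  rw [Finset.sum_mul_sum, Finset.sum_div]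
  apply Finset.sum_congr rfl
  intro x _
  rw [Finset.sum_div]
  apply Finset.sum_congr rfl
  intro y _
  rw [div_pow, mul_pow]

theorem bump_sq_lower {m t i j : ℕ} (ht : t < m) (hi : i < 2 ^ t) (hj : j < 2 ^ t) :
    (sd m t) ^ 4 / 576 ≤
    ∑ x ∈ Finset.range (2 ^ m), ∑ y ∈ Finset.range (2 ^ m), bump (sd m t) i j x y ^ 2 := by
  have hs := sd_pos m t
  rw [bump_sq_sum, le_div_iff₀ (by positivity)]
  calc (sd m t) ^ 4 / 576 * (sd m t) ^ 2 = ((sd m t) ^ 3 / 24) * ((sd m t) ^ 3 / 24) := by ring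
    _ ≤ _ := mul_le_mul (tent_sq_lower ht hi) (tent_sq_lower ht hj) (by positivity)
      (Finset.sum_nonneg fun _ _ => sq_nonneg _)

theorem bump_sq_upper {m t i j : ℕ} (ht : t < m) (hi : i < 2 ^ t) (hj : j < 2 ^ t) :
    ∑ x ∈ Finset.range (2 ^ m), ∑ y ∈ Finset.range (2 ^ m), bump (sd m t) i j x y ^ 2 ≤
    (sd m t) ^ 4 / 16 := by
  have hs := sd_pos m t
  rw [bump_sq_sum, div_le_iff₀ (by positivity)]
  calc _ ≤ ((sd m t) ^ 3 / 4) * ((sd m t) ^ 3 / 4) :=
        mul_le_mul (tent_sq_upper ht hi) (tent_sq_upper ht hj) (Finset.sum_nonneg fun _ _ => sq_nonneg _)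
        (by positivity)
    _ = (sd m t) ^ 4 / 16 * (sd m t) ^ 2 := by ring

end Pool.Agent.Helper52.PM
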