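import Pool.Agent.Helper52.PM.Defs

set_option autoImplicit false

namespace Pool.Agent.Helper52.PM

variable {q : ℕ} {V : Finset (Fin q → ℕ)}

theorem coneOf_convex : Convex ℝ (coneOf V) := by
  rintro x ⟨a, ha, rfl⟩ y ⟨b, hb, rfl⟩ s t hs ht hst
  refine ⟨fun v => s * a v + t * b v, fun v hv => ?_, ?_⟩
  · have := ha v hv
    have := hb v hv
    positivity
  · rw [Finset.smul_sum, Finset.smul_sum, ← Finset.sum_add_distrib]
    apply Finset.sum_congr rfl
    intro v _
    rw [smul_smul, smul_smul, add_smul]

theorem smul_mem_coneOf {v : Fin q → ℕ} (hv : v ∈ V) {t : ℝ} (ht : 0 ≤ t) :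
    (t • fun i => (v i : ℝ)) ∈ coneOf V := by
  classical
  refine ⟨fun u => if u = v then t else 0, fun u _ => ?_, ?_⟩
  · show (0 : ℝ) ≤ if u = v then t else 0
    split_ifs
    · exact ht
    · exact le_rfl
  · rw [Finset.sum_eq_single v]
    · simp
    · intro u _ hu
      simp [hu]
    · intro h; exact absurd hv h

theorem zero_mem_coneOf : (0 : Fin q → ℝ) ∈ coneOf V :=
  ⟨fun _ => 0, fun _ _ => le_rfl, by simp⟩

theorem apply_eq_sum (f : (Fin q → ℝ) →ₗ[ℝ] ℝ) (x : Fin q → ℝ) :
    f x = ∑ i, f (Pi.single i 1) * x i := by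
  rw [LinearMap.pi_apply_eq_sum_univ f x]
  apply Finset.sum_congr rfl
  intro i _
  rw [smul_eq_mul, mul_comm]
  congr 2
  ext j
  simp [Pi.single_apply, eq_comm]

theorem exists_functional {lam : Fin q → ℝ} (h : lam ∈ frontier (coneOf V)) :
    ∃ w : Fin q → ℝ, w ≠ 0 ∧ (∀ v ∈ V, 0 ≤ ∑ i, w i * (v i : ℝ)) ∧ ∑ i, w i * lam i = 0 := by
  have hcl : lam ∈ closure (coneOf V) := h.1
  by_cases hint : (interior (coneOf V)).Nonempty
  · obtain ⟨f, hf⟩ := geometric_hahn_banach_open_point coneOf_convex.interior isOpen_interior h.2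
    have hle : ∀ a ∈ closure (coneOf V), f a ≤ f lam := by
      rw [← coneOf_convex.closure_interior_eq_closure_of_nonempty_interior hint]
      intro a ha
      have : closure (interior (coneOf V)) ⊆ {a | f a ≤ f lam} :=
        closure_minimal (fun a ha => (hf a ha).le) (isClosed_le f.continuous continuous_const)
      exact this ha
    have h0 : 0 ≤ f lam := by
      have := hle 0 (subset_closure zero_mem_coneOf)
      rwa [map_zero] at this
    have hv : ∀ v ∈ V, f (fun i => (v i : ℝ)) ≤ 0 := by
      intro v hv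
      by_contra hc
      push Not at hc
      have h1 := hle _ (subset_closure (smul_mem_coneOf hv (t := f lam / f (fun i => (v i : ℝ)) + 1) (by positivity)))
      rw [map_smul, smul_eq_mul, add_mul, div_mul_cancel₀ _ hc.ne'] at h1
      linarith
    have hC : ∀ a ∈ coneOf V, f a ≤ 0 := by
      rintro a ⟨b, hb, rfl⟩
      rw [map_sum]
      apply Finset.sum_nonpos
      intro v hvV
      rw [map_smul, smul_eq_mul]
      exact mul_nonpos_of_nonneg_of_nonpos (hb v hvV) (hv v hvV)
    have h1 : f lam ≤ 0 := by
      have : closure (coneOf V) ⊆ {a | f a ≤ 0} :=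
        closure_minimal hC (isClosed_le f.continuous continuous_const)
      exact this hcl
    have key : ∀ x : Fin q → ℝ, ∑ i, (-(f (Pi.single i 1))) * x i = - f x := by
      intro x
      have := apply_eq_sum (f : (Fin q → ℝ) →ₗ[ℝ] ℝ) x
      simp only [ContinuousLinearMap.coe_coe] at this
      rw [this, ← Finset.sum_neg_distrib]
      apply Finset.sum_congr rfl
      intro i _
      ring
    refine ⟨fun i => -(f (Pi.single i 1)), ?_, ?_, ?_⟩
    · intro hw
      obtain ⟨a, ha⟩ := hint
      have h2 := hf a ha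
      have h3 : ∀ x : Fin q → ℝ, f x = 0 := by
        intro x
        have h4 := key x
        have h5 : ∀ i, -(f (Pi.single i 1)) = 0 := fun i => congrFun hw i
        simp only [h5, zero_mul, Finset.sum_const_zero] at h4
        linarith
      rw [h3, h3] at h2
      exact lt_irrefl _ h2
    · intro v hvV
      rw [key]
      have := hv v hvV
      linarith
    · rw [key]
      linarith
  · have hne : Submodule.span ℝ (coneOf V) ≠ ⊤ := by
      intro htop
      apply hint
      rw [coneOf_convex.interior_nonempty_iff_affineSpan_eq_top]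
      have h1 : insert (0 : Fin q → ℝ) (coneOf V) = coneOf V := Set.insert_eq_of_mem zero_mem_coneOf
      have h2 := affineSpan_insert_zero (k := ℝ) (coneOf V)
      rw [h1, htop] at h2
      apply SetLike.coe_injective
      rw [h2]
      rfl
    obtain ⟨f, hf0, hf⟩ := Submodule.exists_le_ker_of_lt_top _ (lt_top_iff_ne_top.2 hne)
    have hC : ∀ a ∈ coneOf V, f a = 0 := fun a ha => hf (Submodule.subset_span ha)
    have hlam : f lam = 0 := by
      have hcl2 : closure (coneOf V) ⊆ (Submodule.span ℝ (coneOf V) : Set (Fin q → ℝ)) :=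
        closure_minimal Submodule.subset_span (Submodule.closed_of_finiteDimensional _)
      exact hf (hcl2 hcl)
    refine ⟨fun i => f (Pi.single i 1), ?_, ?_, ?_⟩
    · intro hw
      apply hf0
      ext i
      exact congrFun hw i
    · intro v hvV
      rw [← apply_eq_sum f (fun i => (v i : ℝ))]
      have := hC _ (smul_mem_coneOf hvV (t := 1) zero_le_one)
      rw [one_smul] at this
      rw [this]
    · rw [← apply_eq_sum f lam, hlam]

end Pool.Agent.Helper52.PM
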