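import Mathlib

set_option autoImplicit false

open MeasureTheory ProbabilityTheory

namespace Pool.Agent.Helper52.PM

variable {Ω : Type*} [MeasurableSpace Ω] {P : Measure Ω} [IsProbabilityMeasure P]

theorem integrable_pow4 {S : Ω → ℝ} (hS : MemLp S 4 P) {k : ℕ} (hk : k ≤ 4) :
    Integrable (fun ω => S ω ^ k) P := by
  have h1 : MemLp S (k : ENNReal) P := hS.mono_exponent (by exact_mod_cast hk)
  have h2 := h1.integrable_norm_pow'
  refine h2.mono' (hS.1.pow k) ?_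
  filter_upwards with ω
  rw [norm_pow]

theorem two_moments {S X : Ω → ℝ} (hS : MemLp S 4 P) (hX : MemLp X 4 P) (h : IndepFun S X P)
    (hS0 : ∫ ω, S ω ∂P = 0) (hX0 : ∫ ω, X ω ∂P = 0) :
    (∫ ω, (S ω + X ω) ^ 2 ∂P = ∫ ω, S ω ^ 2 ∂P + ∫ ω, X ω ^ 2 ∂P) ∧
    (∫ ω, (S ω + X ω) ^ 4 ∂P = ∫ ω, S ω ^ 4 ∂P + 6 * (∫ ω, S ω ^ 2 ∂P) * (∫ ω, X ω ^ 2 ∂P) +
      ∫ ω, X ω ^ 4 ∂P) := by
  have ind : ∀ k l : ℕ, IndepFun (fun ω => S ω ^ k) (fun ω => X ω ^ l) P := fun k l =>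
    h.comp (φ := fun x : ℝ => x ^ k) (ψ := fun x : ℝ => x ^ l) (by fun_prop) (by fun_prop)
  have hint : ∀ k l : ℕ, k ≤ 4 → l ≤ 4 → Integrable (fun ω => S ω ^ k * X ω ^ l) P := fun k l hk hl =>
    (ind k l).integrable_mul (integrable_pow4 hS hk) (integrable_pow4 hX hl)
  have hval : ∀ k l : ℕ, k ≤ 4 → l ≤ 4 → ∫ ω, S ω ^ k * X ω ^ l ∂P =
      (∫ ω, S ω ^ k ∂P) * ∫ ω, X ω ^ l ∂P := fun k l hk hl =>
    (ind k l).integral_fun_mul_eq_mul_integral (integrable_pow4 hS hk).1 (integrable_pow4 hX hl).1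
  constructor
  · have e : ∀ ω, (S ω + X ω) ^ 2 = S ω ^ 2 + 2 * (S ω ^ 1 * X ω ^ 1) + X ω ^ 2 := fun ω => by ring
    simp_rw [e]
    rw [integral_add, integral_add, integral_const_mul, hval 1 1 (by norm_num) (by norm_num)]
    · simp only [pow_one]
      rw [hS0]; ring
    · exact integrable_pow4 hS (by norm_num)
    · exact (hint 1 1 (by norm_num) (by norm_num)).const_mul 2
    · exact (integrable_pow4 hS (by norm_num)).add ((hint 1 1 (by norm_num) (by norm_num)).const_mul 2)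
    · exact integrable_pow4 hX (by norm_num)
  · have e : ∀ ω, (S ω + X ω) ^ 4 = S ω ^ 4 + 4 * (S ω ^ 3 * X ω ^ 1) + 6 * (S ω ^ 2 * X ω ^ 2) +
        4 * (S ω ^ 1 * X ω ^ 3) + X ω ^ 4 := fun ω => by ring
    simp_rw [e]
    have i1 : Integrable (fun ω => S ω ^ 4) P := integrable_pow4 hS (by norm_num)
    have i2 : Integrable (fun ω => 4 * (S ω ^ 3 * X ω ^ 1)) P := (hint 3 1 (by norm_num) (by norm_num)).const_mul 4
    have i3 : Integrable (fun ω => 6 * (S ω ^ 2 * X ω ^ 2)) P := (hint 2 2 (by norm_num) (by norm_num)).const_mul 6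
    have i4 : Integrable (fun ω => 4 * (S ω ^ 1 * X ω ^ 3)) P := (hint 1 3 (by norm_num) (by norm_num)).const_mul 4
    have i5 : Integrable (fun ω => X ω ^ 4) P := integrable_pow4 hX (by norm_num)
    rw [integral_add, integral_add, integral_add, integral_add]
    · simp only [integral_const_mul]
      rw [hval 3 1 (by norm_num) (by norm_num), hval 2 2 (by norm_num) (by norm_num),
        hval 1 3 (by norm_num) (by norm_num)]
      simp only [pow_one]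
      rw [hS0, hX0]
      ring
    · exact i1
    · exact i2
    · exact i1.add i2
    · exact i3
    · exact (i1.add i2).add i3
    · exact i4
    · exact ((i1.add i2).add i3).add i4
    · exact i5

/-- Moments of a finite sum of independent centred variables. -/
theorem sum_moments {ι : Type*} {X : ι → Ω → ℝ} (hind : iIndepFun X P) (hm : ∀ i, AEMeasurable (X i) P)
    (hX : ∀ i, MemLp (X i) 4 P) (h0 : ∀ i, ∫ ω, X i ω ∂P = 0) (s : Finset ι) :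
    MemLp (fun ω => ∑ i ∈ s, X i ω) 4 P ∧ (∫ ω, ∑ i ∈ s, X i ω ∂P = 0) ∧
    (∫ ω, (∑ i ∈ s, X i ω) ^ 2 ∂P = ∑ i ∈ s, ∫ ω, X i ω ^ 2 ∂P) ∧
    (∫ ω, (∑ i ∈ s, X i ω) ^ 4 ∂P ≤ 3 * (∑ i ∈ s, ∫ ω, X i ω ^ 2 ∂P) ^ 2 + ∑ i ∈ s, ∫ ω, X i ω ^ 4 ∂P) := by
  classical
  induction s using Finset.induction_on with
  | empty => simp
  | insert i s hi ih =>
    obtain ⟨h1, h2, h3, h4⟩ := ih
    have hindS : IndepFun (fun ω => ∑ j ∈ s, X j ω) (X i) P := by
      have := hind.indepFun_finsetSum_of_notMem₀ hm hi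
      convert this using 1
      ext ω
      simp
    obtain ⟨e1, e2⟩ := two_moments h1 (hX i) hindS h2 (h0 i)
    have hsum : ∀ ω, ∑ j ∈ insert i s, X j ω = (∑ j ∈ s, X j ω) + X i ω := fun ω => by
      rw [Finset.sum_insert hi]; ring
    refine ⟨?_, ?_, ?_, ?_⟩
    · simp_rw [hsum]
      exact h1.add (hX i)
    · simp_rw [hsum]
      rw [integral_add (h1.integrable (by norm_num)) ((hX i).integrable (by norm_num)), h2, h0 i]
      ring
    · simp_rw [hsum]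
      rw [e1, h3, Finset.sum_insert hi]
      ring
    · simp_rw [hsum]
      rw [e2, h3, Finset.sum_insert hi, Finset.sum_insert hi]
      set A := ∑ j ∈ s, ∫ ω, X j ω ^ 2 ∂P
      set B := ∫ ω, X i ω ^ 2 ∂P
      nlinarith [sq_nonneg B]

/-- `u ≥ u² - u⁴/4` for `u ≥ 0`. -/
theorem elem_ineq {u : ℝ} (hu : 0 ≤ u) : u ^ 2 - u ^ 4 / 4 ≤ u := by
  have h : 0 ≤ u ^ 3 / 4 - u + 1 := by nlinarith [sq_nonneg (u - 2 / 1.7), sq_nonneg (u - 1), sq_nonneg u, mul_nonneg hu (sq_nonneg (u - 1)), mul_nonneg hu (sq_nonneg (u - 1.2))]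
  nlinarith

/-- Lower bound on the gain of one square. -/
theorem gain_lower.{u} {A1 A2 A4 : ℝ} (h1 : 0 < A1) (h2 : 0 < A2) (h4 : 0 < A4) :
    ∃ T > 0, ∃ δ > 0, ∃ c > 0, ∀ (Ω : Type u) [MeasurableSpace Ω] (P : Measure Ω)
      [IsProbabilityMeasure P], ∀ s : ℝ, 0 < s → ∀ W : Ω → ℝ, MemLp W 4 P → ∫ ω, W ω ∂P = 0 →
      A1 * s ^ 4 ≤ ∫ ω, W ω ^ 2 ∂P → ∫ ω, W ω ^ 2 ∂P ≤ A2 * s ^ 4 → ∫ ω, W ω ^ 4 ∂P ≤ A4 * s ^ 8 →
      c * s ^ 2 ≤ ∫ ω, (max (-(W ω)) 0 - W ω ^ 2 / (2 * (T * s ^ 2))) ∂P - δ * (T * s ^ 2 / 2) := by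
  obtain ⟨κ, hκ, hκ2⟩ : ∃ κ > 0, κ ^ 2 * A4 ≤ 2 * A1 := by
    refine ⟨Real.sqrt (2 * A1 / A4), by positivity, ?_⟩
    rw [Real.sq_sqrt (by positivity)]
    apply le_of_eq
    field_simp
  have hT : 0 < 8 * A2 / (κ * A1) := by positivity
  set T := 8 * A2 / (κ * A1) with hTdef
  refine ⟨T, hT, κ * A1 / (8 * T), by positivity, κ * A1 / 8, by positivity, ?_⟩
  intro Ω _ P _ s hs W hW h0 hv1 hv2 hv4
  have hWi : Integrable W P := hW.integrable (by norm_num)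
  have hW2 : Integrable (fun ω => W ω ^ 2) P := integrable_pow4 hW (by norm_num)
  have hW4 : Integrable (fun ω => W ω ^ 4) P := integrable_pow4 hW (by norm_num)
  have hneg : ∀ ω, max (-(W ω)) 0 = (|W ω| - W ω) / 2 := by
    intro ω
    rcases le_total (W ω) 0 with h | h
    · rw [abs_of_nonpos h, max_eq_left (by linarith)]; ring
    · rw [abs_of_nonneg h, max_eq_right (by linarith)]; ring
  have hnegint : ∫ ω, max (-(W ω)) 0 ∂P = (∫ ω, |W ω| ∂P) / 2 := by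
    simp_rw [hneg]
    rw [integral_div, integral_sub hWi.abs hWi, h0]
    ring
  have hnegI : Integrable (fun ω => max (-(W ω)) 0) P := hWi.neg.pos_part
  set θ := κ / s ^ 2 with hθ
  have hθp : 0 < θ := by positivity
  have habs : θ * ∫ ω, W ω ^ 2 ∂P - θ ^ 3 / 4 * ∫ ω, W ω ^ 4 ∂P ≤ ∫ ω, |W ω| ∂P := by
    rw [← integral_const_mul, ← integral_const_mul, ← integral_sub (hW2.const_mul _) (hW4.const_mul _)]
    apply integral_mono ((hW2.const_mul _).sub (hW4.const_mul _)) hWi.abs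
    intro ω
    simp only
    have h := elem_ineq (u := θ * |W ω|) (by positivity)
    have e1 : (θ * |W ω|) ^ 2 = θ ^ 2 * W ω ^ 2 := by rw [mul_pow, sq_abs]
    have e2 : (θ * |W ω|) ^ 4 = θ ^ 4 * W ω ^ 4 := by
      rw [mul_pow, show |W ω| ^ 4 = (|W ω| ^ 2) ^ 2 by ring, sq_abs]; ring
    rw [e1, e2] at h
    have h' : θ * (θ * W ω ^ 2 - θ ^ 3 / 4 * W ω ^ 4) ≤ θ * |W ω| := by nlinarith
    exact le_of_mul_le_mul_left h' hθp
  have hlow : κ * A1 * s ^ 2 / 2 ≤ ∫ ω, |W ω| ∂P := by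
    refine le_trans ?_ habs
    have a1 : κ * A1 * s ^ 2 ≤ θ * ∫ ω, W ω ^ 2 ∂P := by
      calc κ * A1 * s ^ 2 = θ * (A1 * s ^ 4) := by rw [hθ]; field_simp
        _ ≤ _ := mul_le_mul_of_nonneg_left hv1 hθp.le
    have a2 : θ ^ 3 / 4 * ∫ ω, W ω ^ 4 ∂P ≤ κ * A1 * s ^ 2 / 2 := by
      calc θ ^ 3 / 4 * ∫ ω, W ω ^ 4 ∂P ≤ θ ^ 3 / 4 * (A4 * s ^ 8) := mul_le_mul_of_nonneg_left hv4 (by positivity)
        _ = κ * s ^ 2 * (κ ^ 2 * A4) / 4 := by rw [hθ]; field_simp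
        _ ≤ κ * s ^ 2 * (2 * A1) / 4 := by
          have : 0 ≤ κ * s ^ 2 := by positivity
          nlinarith
        _ = κ * A1 * s ^ 2 / 2 := by ring
    linarith
  rw [integral_sub hnegI (hW2.div_const _), hnegint, integral_div]
  have b1 : (∫ ω, W ω ^ 2 ∂P) / (2 * (T * s ^ 2)) ≤ κ * A1 * s ^ 2 / 16 := by
    rw [div_le_iff₀ (by positivity)]
    refine hv2.trans (le_of_eq ?_)
    rw [hTdef]
    field_simp
    ring
  have b2 : κ * A1 / (8 * T) * (T * s ^ 2 / 2) = κ * A1 * s ^ 2 / 16 := by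
    field_simp
    ring
  rw [b2]
  linarith

end Pool.Agent.Helper52.PM
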