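import Pool.Agent.Helper52.PM.Bump
import Pool.Agent.Helper52.PM.Moments

set_option autoImplicit false

open MeasureTheory ProbabilityTheory

namespace Pool.Agent.Helper52.PM

/-- The independent centred variables attached to the coloured unit cells. -/
structure NoiseData {q : ℕ} (v U : Fin q → ℝ) {Ω : Type*} [MeasurableSpace Ω] (P : Measure Ω)
    (X : Fin q × ℕ × ℕ → Ω → ℝ) : Prop where
  meas : ∀ i, AEMeasurable (X i) P
  indep : iIndepFun X P
  memLp : ∀ i, MemLp (X i) 4 P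
  mean : ∀ i, ∫ ω, X i ω ∂P = 0
  m2 : ∀ i, ∫ ω, X i ω ^ 2 ∂P = v i.1
  m4 : ∀ i, ∫ ω, X i ω ^ 4 ∂P = U i.1

/-- The box of cells used for level `m`. -/
def cells (q m : ℕ) : Finset (Fin q × ℕ × ℕ) :=
  Finset.univ ×ˢ (Finset.range (2 ^ m) ×ˢ Finset.range (2 ^ m))

theorem sum_cells {q m : ℕ} (g : Fin q × ℕ × ℕ → ℝ) :
    ∑ i ∈ cells q m, g i = ∑ x ∈ Finset.range (2 ^ m), ∑ y ∈ Finset.range (2 ^ m), ∑ c, g (c, x, y) := by
  unfold cells
  rw [Finset.sum_product, Finset.sum_comm, Finset.sum_product]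

/-- Noise in a cell. -/
noncomputable def xi {q : ℕ} {Ω : Type*} (w : Fin q → ℝ) (X : Fin q × ℕ × ℕ → Ω → ℝ) (ω : Ω) (x y : ℕ) : ℝ :=
  ∑ c, w c * X (c, x, y) ω

theorem Wn_eq {q : ℕ} {Ω : Type*} (w : Fin q → ℝ) (X : Fin q × ℕ × ℕ → Ω → ℝ) (ω : Ω) (m t i j : ℕ) :
    Wn m (xi w X ω) t i j =
      ∑ z ∈ cells q m, (bump (sd m t) i j z.2.1 z.2.2 * w z.1) * X z ω := by
  rw [sum_cells]
  unfold Wn xi
  apply Finset.sum_congr rfl
  intro x _
  apply Finset.sum_congr rfl
  intro y _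
  rw [Finset.mul_sum]
  apply Finset.sum_congr rfl
  intro c _
  ring

theorem Wn_moments {q : ℕ} {v U : Fin q → ℝ} (hU : ∀ c, 0 ≤ U c) {Ω : Type*} [MeasurableSpace Ω]
    {P : Measure Ω} [IsProbabilityMeasure P] {X : Fin q × ℕ × ℕ → Ω → ℝ} (hX : NoiseData v U P X)
    (w : Fin q → ℝ) {m t i j : ℕ} (ht : t < m) (hi : i < 2 ^ t) (hj : j < 2 ^ t)
    (hv : 0 ≤ ∑ c, w c ^ 2 * v c) :
    MemLp (fun ω => Wn m (xi w X ω) t i j) 4 P ∧ ∫ ω, Wn m (xi w X ω) t i j ∂P = 0 ∧
    (∑ c, w c ^ 2 * v c) / 576 * (sd m t) ^ 4 ≤ ∫ ω, (Wn m (xi w X ω) t i j) ^ 2 ∂P ∧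
    ∫ ω, (Wn m (xi w X ω) t i j) ^ 2 ∂P ≤ (∑ c, w c ^ 2 * v c) / 16 * (sd m t) ^ 4 ∧
    ∫ ω, (Wn m (xi w X ω) t i j) ^ 4 ∂P ≤
      (3 * (∑ c, w c ^ 2 * v c) ^ 2 + ∑ c, w c ^ 4 * U c) / 256 * (sd m t) ^ 8 := by
  simp_rw [Wn_eq]
  set co : Fin q × ℕ × ℕ → ℝ := fun z => bump (sd m t) i j z.2.1 z.2.2 * w z.1 with hco
  have hs := sd_pos m t
  have hind : iIndepFun (fun z ω => co z * X z ω) P :=
    hX.indep.comp (fun z u => co z * u) (fun z => by fun_prop)
  obtain ⟨h1, h2, h3, h4⟩ := sum_moments hind (fun z => (hX.meas z).const_mul _)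
    (fun z => (hX.memLp z).const_mul _) (fun z => by rw [integral_const_mul, hX.mean]; ring) (cells q m)
  set B := ∑ x ∈ Finset.range (2 ^ m), ∑ y ∈ Finset.range (2 ^ m), bump (sd m t) i j x y ^ 2 with hB
  have hB1 := bump_sq_lower ht hi hj
  have hB2 := bump_sq_upper ht hi hj
  have hB0 : 0 ≤ B := Finset.sum_nonneg fun _ _ => Finset.sum_nonneg fun _ _ => sq_nonneg _
  have e2 : ∑ z ∈ cells q m, ∫ ω, (co z * X z ω) ^ 2 ∂P = B * ∑ c, w c ^ 2 * v c := by
    simp_rw [mul_pow, integral_const_mul, hX.m2]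
    rw [sum_cells, hB, Finset.sum_mul]
    apply Finset.sum_congr rfl
    intro x _
    rw [Finset.sum_mul]
    apply Finset.sum_congr rfl
    intro y _
    rw [Finset.mul_sum]
    apply Finset.sum_congr rfl
    intro c _
    simp only [hco]
    ring
  have e4 : ∑ z ∈ cells q m, ∫ ω, (co z * X z ω) ^ 4 ∂P ≤ B ^ 2 * ∑ c, w c ^ 4 * U c := by
    simp_rw [mul_pow, integral_const_mul, hX.m4]
    rw [sum_cells]
    have hb4 : ∑ x ∈ Finset.range (2 ^ m), ∑ y ∈ Finset.range (2 ^ m), (bump (sd m t) i j x y ^ 2) ^ 2 ≤ B ^ 2 := by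
      rw [hB, ← Finset.sum_product', ← Finset.sum_product']
      exact Finset.sum_sq_le_sq_sum_of_nonneg fun _ _ => sq_nonneg _
    calc _ = (∑ x ∈ Finset.range (2 ^ m), ∑ y ∈ Finset.range (2 ^ m), (bump (sd m t) i j x y ^ 2) ^ 2) *
          ∑ c, w c ^ 4 * U c := by
          rw [Finset.sum_mul]
          apply Finset.sum_congr rfl
          intro x _
          rw [Finset.sum_mul]
          apply Finset.sum_congr rfl
          intro y _
          rw [Finset.mul_sum]
          apply Finset.sum_congr rfl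
          intro c _
          simp only [hco]
          ring
      _ ≤ B ^ 2 * ∑ c, w c ^ 4 * U c := by
          apply mul_le_mul_of_nonneg_right hb4
          apply Finset.sum_nonneg
          intro c _
          have := hU c
          positivity
  refine ⟨h1, h2, ?_, ?_, ?_⟩
  · rw [h3, e2]
    nlinarith
  · rw [h3, e2]
    nlinarith
  · refine h4.trans ?_
    rw [e2]
    refine (add_le_add le_rfl e4).trans ?_
    have hB3 : B ^ 2 ≤ (sd m t) ^ 8 / 256 := by
      calc B ^ 2 ≤ ((sd m t) ^ 4 / 16) ^ 2 := pow_le_pow_left₀ hB0 hB2 2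
        _ = _ := by ring
    have hU' : 0 ≤ ∑ c, w c ^ 4 * U c := by
      apply Finset.sum_nonneg
      intro c _
      have := hU c
      positivity
    calc 3 * (B * ∑ c, w c ^ 2 * v c) ^ 2 + B ^ 2 * ∑ c, w c ^ 4 * U c
        = (3 * (∑ c, w c ^ 2 * v c) ^ 2 + ∑ c, w c ^ 4 * U c) * B ^ 2 := by ring
      _ ≤ (3 * (∑ c, w c ^ 2 * v c) ^ 2 + ∑ c, w c ^ 4 * U c) * ((sd m t) ^ 8 / 256) := by
          apply mul_le_mul_of_nonneg_left hB3
          positivity
      _ = _ := by ring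

/-- Properties of the potentials. -/
structure Good (m : ℕ) (G : ℕ → ℕ → ℝ) : Prop where
  nonneg : ∀ x y, 0 ≤ G x y
  x_big : ∀ x y, 2 ^ m ≤ x → G x y = 0
  y_big : ∀ x y, 2 ^ m ≤ y → G x y = 0
  x_zero : ∀ y, G 0 y = 0
  y_zero : ∀ x, G x 0 = 0
  x_step : ∀ x y, |G (x + 1) y - G x y| ≤ 1
  y_step : ∀ x y, |G x (y + 1) - G x y| ≤ 1

/-- The gain of the multiscale potential over independent noise. -/
theorem noise_gain.{u} {q : ℕ} (w v U : Fin q → ℝ) (hU : ∀ c, 0 ≤ U c) (hv : 0 < ∑ c, w c ^ 2 * v c) :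
    ∃ c > 0, ∃ m0 : ℕ, ∀ (Ω : Type u) [MeasurableSpace Ω] (P : Measure Ω) [IsProbabilityMeasure P]
      (X : Fin q × ℕ × ℕ → Ω → ℝ), NoiseData v U P X → ∀ m : ℕ, m0 ≤ m →
      ∃ L : Ω → ℝ, Integrable L P ∧ c * Real.sqrt m * 4 ^ m ≤ ∫ ω, L ω ∂P ∧
        ∀ ω, ∃ G : ℕ → ℕ → ℝ, Good m G ∧
          L ω ≤ -∑ x ∈ Finset.range (2 ^ m), ∑ y ∈ Finset.range (2 ^ m), G x y * xi w X ω x y := by
  set s2 := ∑ c, w c ^ 2 * v c with hs2
  have hA4 : 0 < (3 * s2 ^ 2 + ∑ c, w c ^ 4 * U c) / 256 := by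
    have : 0 ≤ ∑ c, w c ^ 4 * U c := by
      apply Finset.sum_nonneg
      intro c _
      have := hU c
      positivity
    positivity
  obtain ⟨T, hT, δ, hδ, c, hc, hgain⟩ := gain_lower.{u} (A1 := s2 / 576) (A2 := s2 / 16) (by positivity)
    (by positivity) hA4
  refine ⟨c * Real.sqrt δ, by positivity, ⌈4 * δ⌉₊ + 1, ?_⟩
  intro Ω _ P _ X hX m hm
  have hm1 : 1 ≤ m := by omega
  have hmR : (0 : ℝ) < m := by exact_mod_cast hm1
  have hmδ : 4 * δ ≤ m := by
    have h1 : 4 * δ ≤ ⌈4 * δ⌉₊ := Nat.le_ceil _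
    have h2 : ((⌈4 * δ⌉₊ : ℕ) : ℝ) ≤ m := by exact_mod_cast (by omega : ⌈4 * δ⌉₊ ≤ m)
    linarith
  set a := Real.sqrt (δ / m) with ha
  have ha0 : 0 ≤ a := Real.sqrt_nonneg _
  have ha2 : a ≤ 1 / 2 := by
    rw [ha]
    apply Real.sqrt_le_iff.2
    refine ⟨by norm_num, ?_⟩
    rw [div_le_iff₀ hmR]
    linarith
  have hma : m * a ^ 2 = δ := by
    rw [ha, Real.sq_sqrt (by positivity)]
    field_simp
  set τ : ℕ → ℝ := fun t => T * sd m t ^ 2 with hτ
  have hτ0 : ∀ t, 0 < τ t := fun t => by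
    have := sd_pos m t
    simp only [hτ]
    positivity
  refine ⟨fun ω => a * ∑ t ∈ Finset.range m, (∑ i ∈ Finset.range (2 ^ t), ∑ j ∈ Finset.range (2 ^ t),
        (max (-(Wn m (xi w X ω) t i j)) 0 - (Wn m (xi w X ω) t i j) ^ 2 / (2 * τ t)) -
        4 ^ t * (m * a ^ 2) * (τ t / 2)), ?_, ?_, ?_⟩
  · apply Integrable.const_mul
    apply integrable_finsetSum
    intro t ht
    apply Integrable.sub _ (integrable_const _)
    apply integrable_finsetSum
    intro i hi
    apply integrable_finsetSum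
    intro j hj
    obtain ⟨h1, -⟩ := Wn_moments hU hX w (Finset.mem_range.1 ht) (Finset.mem_range.1 hi)
      (Finset.mem_range.1 hj) hv.le
    apply Integrable.sub
    · exact (h1.integrable (by norm_num)).neg.pos_part
    · exact (integrable_pow4 h1 (by norm_num)).div_const _
  · rw [integral_const_mul, integral_finsetSum]
    · have key : ∀ t ∈ Finset.range m, c * 4 ^ m ≤
          ∫ ω, (∑ i ∈ Finset.range (2 ^ t), ∑ j ∈ Finset.range (2 ^ t),
            (max (-(Wn m (xi w X ω) t i j)) 0 - (Wn m (xi w X ω) t i j) ^ 2 / (2 * τ t)) -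
            4 ^ t * (m * a ^ 2) * (τ t / 2)) ∂P := by
        intro t ht
        have hbase : ∀ i ∈ Finset.range (2 ^ t), ∀ j ∈ Finset.range (2 ^ t),
            Integrable (fun ω => max (-(Wn m (xi w X ω) t i j)) 0 -
              (Wn m (xi w X ω) t i j) ^ 2 / (2 * τ t)) P ∧
            c * sd m t ^ 2 + δ * (τ t / 2) ≤ ∫ ω, (max (-(Wn m (xi w X ω) t i j)) 0 -
              (Wn m (xi w X ω) t i j) ^ 2 / (2 * τ t)) ∂P := by
          intro i hi j hj
          obtain ⟨h1, h2, h3, h4, h5⟩ := Wn_moments hU hX w (Finset.mem_range.1 ht) (Finset.mem_range.1 hi)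
            (Finset.mem_range.1 hj) hv.le
          refine ⟨Integrable.sub (h1.integrable (by norm_num)).neg.pos_part
            ((integrable_pow4 h1 (by norm_num)).div_const _), ?_⟩
          have := hgain Ω P (sd m t) (sd_pos m t) _ h1 h2 h3 h4 h5
          simp only [hτ]
          linarith
        rw [integral_sub, integral_finsetSum]
        · have h1 : ∀ i ∈ Finset.range (2 ^ t), ∫ ω, ∑ j ∈ Finset.range (2 ^ t),
              (max (-(Wn m (xi w X ω) t i j)) 0 - (Wn m (xi w X ω) t i j) ^ 2 / (2 * τ t)) ∂P =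
              ∑ j ∈ Finset.range (2 ^ t), ∫ ω,
              (max (-(Wn m (xi w X ω) t i j)) 0 - (Wn m (xi w X ω) t i j) ^ 2 / (2 * τ t)) ∂P := by
            intro i hi
            rw [integral_finsetSum]
            intro j hj
            exact (hbase i hi j hj).1
          rw [Finset.sum_congr rfl h1]
          have h2 : ∑ i ∈ Finset.range (2 ^ t), ∑ j ∈ Finset.range (2 ^ t), (c * sd m t ^ 2 + δ * (τ t / 2)) ≤
              ∑ i ∈ Finset.range (2 ^ t), ∑ j ∈ Finset.range (2 ^ t), ∫ ω,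
              (max (-(Wn m (xi w X ω) t i j)) 0 - (Wn m (xi w X ω) t i j) ^ 2 / (2 * τ t)) ∂P := by
            apply Finset.sum_le_sum
            intro i hi
            apply Finset.sum_le_sum
            intro j hj
            exact (hbase i hi j hj).2
          have h3 : ∑ i ∈ Finset.range (2 ^ t), ∑ j ∈ Finset.range (2 ^ t), (c * sd m t ^ 2 + δ * (τ t / 2)) =
              c * 4 ^ m + 4 ^ t * (δ * (τ t / 2)) := by
            simp only [Finset.sum_const, Finset.card_range, nsmul_eq_mul]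
            have h4 : (4 : ℝ) ^ m = (sd m t * 2 ^ t) ^ 2 := by
              rw [sd_mul_pow (Finset.mem_range.1 ht).le, ← pow_mul, mul_comm m 2, pow_mul]
              norm_num
            have h5 : (4 : ℝ) ^ t = 2 ^ t * 2 ^ t := by
              rw [← mul_pow]; norm_num
            rw [h4, h5]
            push_cast
            ring
          rw [h3] at h2
          rw [integral_const, hma]
          simp only [probReal_univ, smul_eq_mul, one_mul]
          linarith
        · intro i hi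
          apply integrable_finsetSum
          intro j hj
          exact (hbase i hi j hj).1
        · apply integrable_finsetSum
          intro i hi
          apply integrable_finsetSum
          intro j hj
          exact (hbase i hi j hj).1
        · exact integrable_const _
      have h6 : ∑ t ∈ Finset.range m, c * 4 ^ m ≤ _ := Finset.sum_le_sum key
      rw [Finset.sum_const, Finset.card_range, nsmul_eq_mul] at h6
      refine le_trans ?_ (mul_le_mul_of_nonneg_left h6 ha0)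
      apply le_of_eq
      have h7 : a * m = Real.sqrt δ * Real.sqrt m := by
        have h8 : Real.sqrt (m : ℝ) * Real.sqrt m = m := Real.mul_self_sqrt hmR.le
        have h9 : Real.sqrt (m : ℝ) ≠ 0 := (Real.sqrt_pos.2 hmR).ne'
        rw [ha, Real.sqrt_div hδ.le]
        calc Real.sqrt δ / Real.sqrt m * m = Real.sqrt δ / Real.sqrt m * (Real.sqrt m * Real.sqrt m) := by rw [h8]
          _ = _ := by field_simp
      calc c * Real.sqrt δ * Real.sqrt m * 4 ^ m = c * 4 ^ m * (Real.sqrt δ * Real.sqrt m) := by ring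
        _ = c * 4 ^ m * (a * m) := by rw [h7]
        _ = _ := by ring
    · intro t ht
      apply Integrable.sub _ (integrable_const _)
      apply integrable_finsetSum
      intro i hi
      apply integrable_finsetSum
      intro j hj
      obtain ⟨h1, -⟩ := Wn_moments hU hX w (Finset.mem_range.1 ht) (Finset.mem_range.1 hi)
        (Finset.mem_range.1 hj) hv.le
      apply Integrable.sub
      · exact (h1.integrable (by norm_num)).neg.pos_part
      · exact (integrable_pow4 h1 (by norm_num)).div_const _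
  · intro ω
    obtain ⟨G, g1, g2, g3, g4, g5, g6, g7, g8⟩ := exists_F m ha0 ha2 (xi w X ω) τ hτ0
    exact ⟨G, ⟨g1, g2, g3, g4, g5, g6, g7⟩, g8⟩

end Pool.Agent.Helper52.PM
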