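import Pool.Agent.Helper52.PM.Defs
import Pool.Agent.Helper52.PM.Noise

set_option autoImplicit false

open MeasureTheory ProbabilityTheory

namespace Pool.Agent.Helper52.PM

/-- Unit cell with lower left corner `(x, y)`. -/
def cell (x y : ℕ) : Set Plane := {p | (x : ℝ) ≤ p 0 ∧ p 0 < x + 1 ∧ (y : ℝ) ≤ p 1 ∧ p 1 < y + 1}

/-- Cell indices of a point. -/
noncomputable def cx (p : Plane) : ℕ := ⌊p 0⌋.toNat
noncomputable def cy (p : Plane) : ℕ := ⌊p 1⌋.toNat

theorem toNat_floor_eq {u : ℝ} {x : ℕ} (h1 : (x : ℝ) ≤ u) (h2 : u < x + 1) : ⌊u⌋.toNat = x := by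
  have : ⌊u⌋ = (x : ℤ) := by
    rw [Int.floor_eq_iff]
    exact ⟨by exact_mod_cast h1, by exact_mod_cast h2⟩
  rw [this]; simp

theorem cx_of_cell {p : Plane} {x y : ℕ} (h : p ∈ cell x y) : cx p = x := toNat_floor_eq h.1 h.2.1
theorem cy_of_cell {p : Plane} {x y : ℕ} (h : p ∈ cell x y) : cy p = y := toNat_floor_eq h.2.2.1 h.2.2.2

/-- Big box. -/
def box (m : ℕ) : Set Plane := {p | 0 ≤ p 0 ∧ p 0 < 2 ^ m ∧ 0 ≤ p 1 ∧ p 1 < 2 ^ m}

theorem toNat_floor_lt {u : ℝ} {n : ℕ} (h1 : 0 ≤ u) (h2 : u < n) : ⌊u⌋.toNat < n := by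
  have h3 : 0 ≤ ⌊u⌋ := Int.floor_nonneg.2 h1
  have h4 : ⌊u⌋ < n := by
    rw [Int.floor_lt]; exact_mod_cast h2
  omega

theorem floor_bounds {u : ℝ} (h1 : 0 ≤ u) : ((⌊u⌋.toNat : ℕ) : ℝ) ≤ u ∧ u < ((⌊u⌋.toNat : ℕ) : ℝ) + 1 := by
  have h3 : 0 ≤ ⌊u⌋ := Int.floor_nonneg.2 h1
  have h4 : ((⌊u⌋.toNat : ℕ) : ℤ) = ⌊u⌋ := Int.toNat_of_nonneg h3
  have h5 : ((⌊u⌋.toNat : ℕ) : ℝ) = (⌊u⌋ : ℝ) := by exact_mod_cast h4
  rw [h5]
  exact ⟨Int.floor_le u, Int.lt_floor_add_one u⟩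

theorem mem_cell_of_box {m : ℕ} {p : Plane} (h : p ∈ box m) :
    p ∈ cell (cx p) (cy p) ∧ cx p < 2 ^ m ∧ cy p < 2 ^ m := by
  obtain ⟨h1, h2, h3, h4⟩ := h
  have a1 := floor_bounds h1
  have a2 := floor_bounds h3
  refine ⟨⟨a1.1, a1.2, a2.1, a2.2⟩, ?_, ?_⟩
  · exact toNat_floor_lt h1 (by push_cast; exact h2)
  · exact toNat_floor_lt h3 (by push_cast; exact h4)

theorem cell_sub_box {m x y : ℕ} (hx : x < 2 ^ m) (hy : y < 2 ^ m) : cell x y ⊆ box m := by
  intro p hp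
  obtain ⟨h1, h2, h3, h4⟩ := hp
  have a1 : (x : ℝ) + 1 ≤ 2 ^ m := by exact_mod_cast hx
  have a2 : (y : ℝ) + 1 ≤ 2 ^ m := by exact_mod_cast hy
  have a3 : (0 : ℝ) ≤ x := by positivity
  have a4 : (0 : ℝ) ≤ y := by positivity
  exact ⟨by linarith, by linarith, by linarith, by linarith⟩

variable {m : ℕ} {G : ℕ → ℕ → ℝ}

theorem Good.lip_x (hG : Good m G) (x y n : ℕ) : |G (x + n) y - G x y| ≤ n := by
  induction n with
  | zero => simp
  | succ n ih =>
    have h := hG.x_step (x + n) y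
    have e : G (x + (n + 1)) y - G x y = (G (x + n + 1) y - G (x + n) y) + (G (x + n) y - G x y) := by
      rw [← add_assoc]; ring
    rw [e]
    push_cast
    linarith [abs_add_le (G (x + n + 1) y - G (x + n) y) (G (x + n) y - G x y)]

theorem Good.lip_y (hG : Good m G) (x y n : ℕ) : |G x (y + n) - G x y| ≤ n := by
  induction n with
  | zero => simp
  | succ n ih =>
    have h := hG.y_step x (y + n)
    have e : G x (y + (n + 1)) - G x y = (G x (y + n + 1) - G x (y + n)) + (G x (y + n) - G x y) := by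
      rw [← add_assoc]; ring
    rw [e]
    push_cast
    linarith [abs_add_le (G x (y + n + 1) - G x (y + n)) (G x (y + n) - G x y)]

theorem Good.lipx (hG : Good m G) (x x' y : ℕ) : |G x y - G x' y| ≤ |(x : ℝ) - x'| := by
  rcases le_total x x' with h | h
  · obtain ⟨n, rfl⟩ := Nat.exists_eq_add_of_le h
    rw [abs_sub_comm]
    refine (hG.lip_x x y n).trans ?_
    push_cast
    rw [abs_sub_comm, add_sub_cancel_left, abs_of_nonneg (by positivity)]
  · obtain ⟨n, rfl⟩ := Nat.exists_eq_add_of_le h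
    refine (hG.lip_x x' y n).trans ?_
    push_cast
    rw [add_sub_cancel_left, abs_of_nonneg (by positivity)]

theorem Good.lipy (hG : Good m G) (x y y' : ℕ) : |G x y - G x y'| ≤ |(y : ℝ) - y'| := by
  rcases le_total y y' with h | h
  · obtain ⟨n, rfl⟩ := Nat.exists_eq_add_of_le h
    rw [abs_sub_comm]
    refine (hG.lip_y x y n).trans ?_
    push_cast
    rw [abs_sub_comm, add_sub_cancel_left, abs_of_nonneg (by positivity)]
  · obtain ⟨n, rfl⟩ := Nat.exists_eq_add_of_le h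
    refine (hG.lip_y x y' n).trans ?_
    push_cast
    rw [add_sub_cancel_left, abs_of_nonneg (by positivity)]

theorem Good.le_pow (hG : Good m G) (x y : ℕ) : G x y ≤ 2 ^ m := by
  by_cases hx : 2 ^ m ≤ x
  · rw [hG.x_big x y hx]; positivity
  · have h := hG.lip_x 0 y x
    rw [hG.x_zero y, zero_add, sub_zero] at h
    have h2 : (x : ℝ) ≤ 2 ^ m := by exact_mod_cast (not_le.1 hx).le
    linarith [le_abs_self (G x y)]

/-- The piecewise constant extension of a good potential to the plane. -/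
noncomputable def ext (G : ℕ → ℕ → ℝ) (p : Plane) : ℝ := G (cx p) (cy p)

theorem toNat_floor_dist (u v : ℝ) : |((⌊u⌋.toNat : ℕ) : ℝ) - ((⌊v⌋.toNat : ℕ) : ℝ)| ≤ |u - v| + 1 := by
  have key : ∀ a b : ℝ, a ≤ b → |((⌊a⌋.toNat : ℕ) : ℝ) - ((⌊b⌋.toNat : ℕ) : ℝ)| ≤ |a - b| + 1 := by
    intro a b hab
    have hfl : ⌊a⌋ ≤ ⌊b⌋ := Int.floor_le_floor hab
    have h1 : ⌊a⌋.toNat ≤ ⌊b⌋.toNat := Int.toNat_le_toNat hfl
    have h2 : ((⌊b⌋.toNat : ℕ) : ℤ) - ((⌊a⌋.toNat : ℕ) : ℤ) ≤ ⌊b⌋ - ⌊a⌋ := by omega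
    have h3 : ((⌊b⌋.toNat : ℕ) : ℝ) - ((⌊a⌋.toNat : ℕ) : ℝ) ≤ (⌊b⌋ : ℝ) - ⌊a⌋ := by exact_mod_cast h2
    have h4 : ((⌊a⌋.toNat : ℕ) : ℝ) ≤ ((⌊b⌋.toNat : ℕ) : ℝ) := by exact_mod_cast h1
    rw [abs_sub_comm, abs_of_nonneg (by linarith), abs_sub_comm, abs_of_nonneg (by linarith)]
    have := Int.floor_le b
    have := Int.lt_floor_add_one a
    linarith
  rcases le_total u v with h | h
  · exact key u v h
  · rw [abs_sub_comm, abs_sub_comm u v]
    exact key v u h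

theorem ext_lip (hG : Good m G) (p p' : Plane) : ext G p - ext G p' ≤ 2 * dist p p' + 2 := by
  have h0 : |p 0 - p' 0| ≤ dist p p' := by
    have := PiLp.dist_apply_le p p' 0
    rwa [Real.dist_eq] at this
  have h1 : |p 1 - p' 1| ≤ dist p p' := by
    have := PiLp.dist_apply_le p p' 1
    rwa [Real.dist_eq] at this
  have h2 := toNat_floor_dist (p 0) (p' 0)
  have h3 := toNat_floor_dist (p 1) (p' 1)
  have h4 := hG.lipx (cx p) (cx p') (cy p)
  have h5 := hG.lipy (cx p') (cy p) (cy p')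
  have e : ext G p - ext G p' = (G (cx p) (cy p) - G (cx p') (cy p)) + (G (cx p') (cy p) - G (cx p') (cy p')) := by
    unfold ext; ring
  rw [e]
  have h6 := le_abs_self (G (cx p) (cy p) - G (cx p') (cy p))
  have h7 := le_abs_self (G (cx p') (cy p) - G (cx p') (cy p'))
  unfold cx cy at *
  linarith

theorem ext_zero (hG : Good m G) {p : Plane} (hp : p ∉ box m) : ext G p = 0 := by
  unfold ext
  by_cases h0 : 0 ≤ p 0
  · by_cases h1 : 0 ≤ p 1
    · by_cases h2 : p 0 < 2 ^ m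
      · by_cases h3 : p 1 < 2 ^ m
        · exact absurd ⟨h0, h2, h1, h3⟩ hp
        · apply hG.y_big
          unfold cy
          have : (((2 ^ m : ℕ) : ℤ)) ≤ ⌊p 1⌋ := by
            rw [Int.le_floor]; push_cast; exact not_lt.1 h3
          omega
      · apply hG.x_big
        unfold cx
        have : (((2 ^ m : ℕ) : ℤ)) ≤ ⌊p 0⌋ := by
          rw [Int.le_floor]; push_cast; exact not_lt.1 h2
        omega
    · have : cy p = 0 := by
        unfold cy
        have : ⌊p 1⌋ ≤ 0 := by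
          have := Int.floor_le (p 1)
          have h : (⌊p 1⌋ : ℝ) < 1 := by linarith
          have h' : ⌊p 1⌋ < 1 := by exact_mod_cast h
          omega
        omega
      rw [this, hG.y_zero]
  · have : cx p = 0 := by
      unfold cx
      have : ⌊p 0⌋ ≤ 0 := by
        have := Int.floor_le (p 0)
        have h : (⌊p 0⌋ : ℝ) < 1 := by linarith
        have h' : ⌊p 0⌋ < 1 := by exact_mod_cast h
        omega
      omega
    rw [this, hG.x_zero]

theorem dist_le_fdiam {q : ℕ} {F : Fam q} {p p' : CPt q} (hp : p ∈ F) (hp' : p' ∈ F) :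
    dist p.2 p'.2 ≤ fdiam F := by
  unfold fdiam
  apply Metric.dist_le_diam_of_mem
  · exact ((F.finite_toSet).image _).isBounded
  · exact ⟨p, hp, rfl⟩
  · exact ⟨p', hp', rfl⟩

theorem fdiam_nonneg {q : ℕ} (F : Fam q) : 0 ≤ fdiam F := Metric.diam_nonneg

theorem min_le_count (d : ℝ) (H : ℕ) :
    min d H ≤ (((Finset.range H).filter fun r : ℕ => (r : ℝ) < d).card : ℝ) := by
  have hsub : Finset.range (min ⌈d⌉₊ H) ⊆ (Finset.range H).filter fun r : ℕ => (r : ℝ) < d := by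
    intro r hr
    rw [Finset.mem_range] at hr
    rw [Finset.mem_filter, Finset.mem_range]
    have h1 : r < ⌈d⌉₊ := lt_of_lt_of_le hr (min_le_left _ _)
    exact ⟨lt_of_lt_of_le hr (min_le_right _ _), Nat.lt_ceil.1 h1⟩
  have h := Finset.card_le_card hsub
  rw [Finset.card_range] at h
  have h2 : ((min ⌈d⌉₊ H : ℕ) : ℝ) ≤ (((Finset.range H).filter fun r : ℕ => (r : ℝ) < d).card : ℝ) := by
    exact_mod_cast h
  refine le_trans ?_ h2
  push_cast
  exact min_le_min (Nat.le_ceil d) le_rfl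

/-- Number of integer radii below the diameter. -/
noncomputable def nr {q : ℕ} (m : ℕ) (F : Fam q) : ℝ :=
  (((Finset.range (2 ^ m)).filter fun r : ℕ => (r : ℝ) < fdiam F).card : ℝ)

theorem ext_diff (hG : Good m G) {q : ℕ} {F : Fam q} {p p' : CPt q} (hp : p ∈ F) (hp' : p' ∈ F) :
    ext G p.2 - ext G p'.2 ≤ 2 + 2 * nr m F := by
  have h1 := ext_lip hG p.2 p'.2
  have h2 := dist_le_fdiam hp hp'
  have h3 : ext G p.2 - ext G p'.2 ≤ 2 ^ m := by
    have h4 := hG.le_pow (cx p.2) (cy p.2)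
    have h5 := hG.nonneg (cx p'.2) (cy p'.2)
    unfold ext
    linarith
  have h6 := min_le_count (fdiam F) (2 ^ m)
  unfold nr
  rcases le_total (fdiam F) ((2 ^ m : ℕ) : ℝ) with h | h
  · rw [min_eq_left h] at h6
    linarith
  · rw [min_eq_right h] at h6
    push_cast at h6
    have : (0 : ℝ) < 2 ^ m := by positivity
    linarith

open Classical in
/-- Inequality for one family. -/
theorem family_ineq (hG : Good m G) {q : ℕ} {w : Fin q → ℝ} {K : ℝ} (hK : ∀ c, |w c| ≤ K) {F : Fam q}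
    (hne : F.Nonempty) (hw : 0 ≤ ∑ i, w i * typ F i) :
    -(∑ p ∈ F, w p.1 * ext G p.2) ≤
      K * ∑ p ∈ F.filter (fun p => p.2 ∈ box m), (2 + 2 * nr m F) := by
  obtain ⟨p0, hp0, hmin⟩ := F.exists_min_image (fun p => ext G p.2) hne
  have hK0 : 0 ≤ K := (abs_nonneg _).trans (hK p0.1)
  have hsumw : ∑ p ∈ F, w p.1 = ∑ i, w i * typ F i := by
    rw [← Finset.sum_fiberwise F (fun p => p.1) (fun p => w p.1)]
    apply Finset.sum_congr rfl
    intro i _
    unfold typ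
    rw [Finset.sum_congr rfl (g := fun _ => w i) (fun _ hp => by rw [(Finset.mem_filter.1 hp).2])]
    rw [Finset.sum_const, nsmul_eq_mul]
    ring
  have h0 : 0 ≤ ext G p0.2 := hG.nonneg _ _
  have e1 : ∑ p ∈ F, w p.1 * ext G p.2 = ∑ p ∈ F, w p.1 * (ext G p.2 - ext G p0.2) +
      ext G p0.2 * ∑ p ∈ F, w p.1 := by
    rw [Finset.mul_sum, ← Finset.sum_add_distrib]
    apply Finset.sum_congr rfl
    intro p _
    ring
  have e2 : -(∑ p ∈ F, w p.1 * (ext G p.2 - ext G p0.2)) ≤ K * ∑ p ∈ F, (ext G p.2 - ext G p0.2) := by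
    rw [← Finset.sum_neg_distrib, Finset.mul_sum]
    apply Finset.sum_le_sum
    intro p hp
    have h1 : 0 ≤ ext G p.2 - ext G p0.2 := by have := hmin p hp; linarith
    have h2 : -w p.1 ≤ K := (neg_le_abs _).trans (hK _)
    nlinarith
  have e3 : ∑ p ∈ F, (ext G p.2 - ext G p0.2) ≤ ∑ p ∈ F.filter (fun p => p.2 ∈ box m), (2 + 2 * nr m F) := by
    rw [Finset.sum_filter]
    apply Finset.sum_le_sum
    intro p hp
    split_ifs with h
    · exact ext_diff hG hp hp0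
    · rw [ext_zero hG h]; linarith
  have e4 : 0 ≤ ext G p0.2 * ∑ p ∈ F, w p.1 := by
    rw [hsumw]; positivity
  rw [e1]
  have e5 := mul_le_mul_of_nonneg_left e3 hK0
  linarith

open Classical in
/-- The configuration inequality. -/
theorem config_ineq (hG : Good m G) {q : ℕ} {w : Fin q → ℝ} {K : ℝ} (hK : ∀ c, |w c| ≤ K)
    {U : Set (CPt q)} {𝓜 : Set (Fam q)} (hfin : (U ∩ {p | p.2 ∈ box m}).Finite)
    (hne : ∀ F ∈ 𝓜, F.Nonempty) (hw : ∀ F ∈ 𝓜, 0 ≤ ∑ i, w i * typ F i)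
    (hdis : ∀ F ∈ 𝓜, ∀ F' ∈ 𝓜, F ≠ F' → Disjoint F F')
    (hcov : ∀ p, (∃ F ∈ 𝓜, p ∈ F) ↔ p ∈ U) :
    -∑ x ∈ Finset.range (2 ^ m), ∑ y ∈ Finset.range (2 ^ m), G x y *
      ∑ c, w c * (({u : Plane | (c, u) ∈ U ∧ u ∈ cell x y}.ncard : ℕ) : ℝ) ≤
    K * (2 * ∑ x ∈ Finset.range (2 ^ m), ∑ y ∈ Finset.range (2 ^ m),
        ∑ c, (({u : Plane | (c, u) ∈ U ∧ u ∈ cell x y}.ncard : ℕ) : ℝ) +
      2 * ∑ r ∈ Finset.range (2 ^ m), ∑ x ∈ Finset.range (2 ^ m), ∑ y ∈ Finset.range (2 ^ m),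
        (({p : CPt q | p ∈ U ∧ p.2 ∈ cell x y ∧ ∃ F ∈ 𝓜, p ∈ F ∧ (r : ℝ) < fdiam F}.ncard : ℕ) : ℝ)) := by
  set T := hfin.toFinset with hT
  have memT : ∀ p, p ∈ T ↔ p ∈ U ∧ p.2 ∈ box m := fun p => by rw [hT]; simp
  set key : CPt q → Fin q × ℕ × ℕ := fun p => (p.1, cx p.2, cy p.2) with hkey
  have hmaps : ∀ p ∈ T, key p ∈ cells q m := by
    intro p hp
    obtain ⟨-, h2, h3⟩ := mem_cell_of_box ((memT p).1 hp).2
    unfold cells
    simp only [hkey, Finset.mem_product, Finset.mem_univ, Finset.mem_range, true_and]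
    exact ⟨h2, h3⟩
  -- number of points in a coloured cell
  have hN : ∀ z ∈ cells q m, {u : Plane | (z.1, u) ∈ U ∧ u ∈ cell z.2.1 z.2.2}.ncard =
      (T.filter (fun p => key p = z)).card := by
    intro z hz
    unfold cells at hz
    simp only [Finset.mem_product, Finset.mem_univ, Finset.mem_range, true_and] at hz
    rw [← Set.ncard_image_of_injective _ (Prod.mk_right_injective z.1), ← Set.ncard_coe_finset]
    congr 1
    ext p
    simp only [Set.mem_image, Set.mem_ofPred_eq, Finset.coe_filter, hkey]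
    constructor
    · rintro ⟨u, ⟨h1, h2⟩, rfl⟩
      refine ⟨(memT _).2 ⟨h1, cell_sub_box hz.1 hz.2 h2⟩, ?_⟩
      simp only
      rw [cx_of_cell h2, cy_of_cell h2]
    · rintro ⟨h1, h2⟩
      obtain ⟨h3, h4⟩ := (memT _).1 h1
      refine ⟨p.2, ⟨?_, ?_⟩, ?_⟩
      · rw [← h2]; exact h3
      · rw [← h2]; exact (mem_cell_of_box h4).1
      · rw [← h2]
  -- step A
  have hA : ∑ x ∈ Finset.range (2 ^ m), ∑ y ∈ Finset.range (2 ^ m), G x y *
      ∑ c, w c * (({u : Plane | (c, u) ∈ U ∧ u ∈ cell x y}.ncard : ℕ) : ℝ) =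
      ∑ p ∈ T, w p.1 * ext G p.2 := by
    rw [← Finset.sum_fiberwise_of_maps_to hmaps]
    have : ∀ z ∈ cells q m, ∑ p ∈ T.filter (fun p => key p = z), w p.1 * ext G p.2 =
        G z.2.1 z.2.2 * (w z.1 * (({u : Plane | (z.1, u) ∈ U ∧ u ∈ cell z.2.1 z.2.2}.ncard : ℕ) : ℝ)) := by
      intro z hz
      rw [hN z hz]
      rw [Finset.sum_congr rfl (g := fun _ => w z.1 * G z.2.1 z.2.2) (fun p hp => by
        have h := (Finset.mem_filter.1 hp).2
        simp only [hkey] at h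
        rw [← h]
        rfl)]
      rw [Finset.sum_const, nsmul_eq_mul]
      ring
    rw [Finset.sum_congr rfl this, sum_cells]
    apply Finset.sum_congr rfl
    intro x _
    apply Finset.sum_congr rfl
    intro y _
    rw [Finset.mul_sum]
  -- family of a point
  have hex : ∀ p ∈ T, ∃ F ∈ 𝓜, p ∈ F := fun p hp => (hcov p).2 ((memT p).1 hp).1
  choose! f hf1 hf2 using hex
  have hfuniq : ∀ p ∈ T, ∀ F ∈ 𝓜, p ∈ F → f p = F := by
    intro p hp F hF hpF
    by_contra hne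
    have := hdis _ (hf1 p hp) _ hF hne
    exact Finset.disjoint_left.1 this (hf2 p hp) hpF
  have hfib : ∀ F ∈ T.image f, T.filter (fun p => f p = F) = F.filter (fun p => p.2 ∈ box m) := by
    intro F hF
    obtain ⟨p1, hp1, rfl⟩ := Finset.mem_image.1 hF
    ext p
    rw [Finset.mem_filter, Finset.mem_filter]
    constructor
    · rintro ⟨h1, h2⟩
      exact ⟨h2 ▸ hf2 p h1, ((memT p).1 h1).2⟩
    · rintro ⟨h1, h2⟩
      have h3 : p ∈ T := (memT p).2 ⟨(hcov p).1 ⟨_, hf1 p1 hp1, h1⟩, h2⟩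
      exact ⟨h3, hfuniq p h3 _ (hf1 p1 hp1) h1⟩
  have hmapsf : ∀ p ∈ T, f p ∈ T.image f := fun p hp => Finset.mem_image_of_mem f hp
  have hB : -(∑ p ∈ T, w p.1 * ext G p.2) ≤ K * ∑ p ∈ T, (2 + 2 * nr m (f p)) := by
    rw [← Finset.sum_fiberwise_of_maps_to hmapsf, ← Finset.sum_fiberwise_of_maps_to hmapsf
      (fun p => 2 + 2 * nr m (f p)), ← Finset.sum_neg_distrib, Finset.mul_sum]
    apply Finset.sum_le_sum
    intro F hF
    have hFM : F ∈ 𝓜 := by
      obtain ⟨p1, hp1, rfl⟩ := Finset.mem_image.1 hF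
      exact hf1 p1 hp1
    have h1 := family_ineq hG hK (hne F hFM) (hw F hFM)
    have h2 : ∑ p ∈ T.filter (fun p => f p = F), w p.1 * ext G p.2 = ∑ p ∈ F, w p.1 * ext G p.2 := by
      rw [hfib F hF, Finset.sum_filter]
      apply Finset.sum_congr rfl
      intro p _
      split_ifs with h
      · rfl
      · rw [ext_zero hG h]; ring
    have h3 : ∑ p ∈ T.filter (fun p => f p = F), (2 + 2 * nr m (f p)) =
        ∑ p ∈ F.filter (fun p => p.2 ∈ box m), (2 + 2 * nr m F) := by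
      rw [← hfib F hF]
      apply Finset.sum_congr rfl
      intro p hp
      rw [(Finset.mem_filter.1 hp).2]
    rw [h2, h3]
    exact h1
  -- step C
  have hC1 : (T.card : ℝ) = ∑ x ∈ Finset.range (2 ^ m), ∑ y ∈ Finset.range (2 ^ m),
        ∑ c, (({u : Plane | (c, u) ∈ U ∧ u ∈ cell x y}.ncard : ℕ) : ℝ) := by
    rw [Finset.card_eq_sum_card_fiberwise hmaps]
    push_cast
    rw [← sum_cells (fun z => (({u : Plane | (z.1, u) ∈ U ∧ u ∈ cell z.2.1 z.2.2}.ncard : ℕ) : ℝ))]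
    apply Finset.sum_congr rfl
    intro z hz
    rw [hN z hz]
  have hC2 : ∀ r : ℕ, ((T.filter (fun p => (r : ℝ) < fdiam (f p))).card : ℝ) =
      ∑ x ∈ Finset.range (2 ^ m), ∑ y ∈ Finset.range (2 ^ m),
        (({p : CPt q | p ∈ U ∧ p.2 ∈ cell x y ∧ ∃ F ∈ 𝓜, p ∈ F ∧ (r : ℝ) < fdiam F}.ncard : ℕ) : ℝ) := by
    intro r
    have hm2 : ∀ p ∈ T.filter (fun p => (r : ℝ) < fdiam (f p)), (cx p.2, cy p.2) ∈
        Finset.range (2 ^ m) ×ˢ Finset.range (2 ^ m) := by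
      intro p hp
      obtain ⟨-, h2, h3⟩ := mem_cell_of_box ((memT p).1 (Finset.mem_filter.1 hp).1).2
      rw [Finset.mem_product, Finset.mem_range, Finset.mem_range]
      exact ⟨h2, h3⟩
    rw [Finset.card_eq_sum_card_fiberwise hm2]
    push_cast
    rw [Finset.sum_product]
    apply Finset.sum_congr rfl
    intro x hx
    apply Finset.sum_congr rfl
    intro y hy
    congr 1
    rw [← Set.ncard_coe_finset]
    congr 1
    ext p
    simp only [Finset.coe_filter, Set.mem_ofPred_eq, Finset.mem_filter, Prod.mk.injEq]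
    constructor
    · rintro ⟨⟨h1, h2⟩, h3, h4⟩
      obtain ⟨h5, h6⟩ := (memT p).1 h1
      refine ⟨h5, ?_, f p, hf1 p h1, hf2 p h1, h2⟩
      rw [← h3, ← h4]
      exact (mem_cell_of_box h6).1
    · rintro ⟨h1, h2, F, h3, h4, h5⟩
      have h6 : p ∈ T := (memT p).2 ⟨h1, cell_sub_box (Finset.mem_range.1 hx) (Finset.mem_range.1 hy) h2⟩
      refine ⟨⟨h6, ?_⟩, cx_of_cell h2, cy_of_cell h2⟩
      rw [hfuniq p h6 F h3 h4]
      exact h5
  have hC3 : ∑ p ∈ T, nr m (f p) = ∑ r ∈ Finset.range (2 ^ m), ((T.filter (fun p => (r : ℝ) < fdiam (f p))).card : ℝ) := by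
    unfold nr
    simp only [Finset.card_filter]
    push_cast
    rw [Finset.sum_comm]
  have hC : ∑ p ∈ T, (2 + 2 * nr m (f p)) = 2 * (T.card : ℝ) + 2 * ∑ r ∈ Finset.range (2 ^ m),
      ((T.filter (fun p => (r : ℝ) < fdiam (f p))).card : ℝ) := by
    rw [Finset.sum_add_distrib, ← Finset.mul_sum, hC3, Finset.sum_const, nsmul_eq_mul]
    ring
  rw [hA]
  refine hB.trans ?_
  rw [hC, hC1, Finset.sum_congr rfl (fun r _ => hC2 r)]

end Pool.Agent.Helper52.PM
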