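import Mathlib

/-!
# Multicolour Poisson matchings in the plane: definitions

These are the definitions used in the statement handed in for `MP_47e84d_pr`.
-/

set_option autoImplicit false

open MeasureTheory ProbabilityTheory
open scoped ENNReal NNReal

namespace Pool.Agent.Helper52.PM

/-- The Euclidean plane. -/
abbrev Plane := EuclideanSpace ℝ (Fin 2)

/-- A coloured point: a colour together with a location in the plane. -/
abbrev CPt (q : ℕ) := Fin q × Plane

/-- A family: a finite set of coloured points. -/
abbrev Fam (q : ℕ) := Finset (CPt q)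

/-- A configuration of families: a set of finite sets of coloured points. -/
abbrev Conf (q : ℕ) := Set (Finset (CPt q))

/-- The type of a family: `typ F i` is the number of points of colour `i` in `F`. -/
def typ {q : ℕ} (F : Fam q) : Fin q → ℕ := fun i => (F.filter fun p => p.1 = i).card

/-- The Euclidean diameter of (the set of locations of) a family. -/
noncomputable def fdiam {q : ℕ} (F : Fam q) : ℝ :=
  Metric.diam ((fun p : CPt q => p.2) '' (F : Set (CPt q)))

/-- The σ-algebra on the space of families generated by the counts `F ↦ #(F ∩ B)`,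
`B` a Borel set of coloured points. -/
@[reducible] def famSigma (q : ℕ) : MeasurableSpace (Fam q) :=
  MeasurableSpace.generateFrom
    {E | ∃ (B : Set (CPt q)) (n : ℕ), MeasurableSet B ∧ E = {F : Fam q | ((F : Set (CPt q)) ∩ B).ncard = n}}

/-- The σ-algebra on the space of configurations generated by the counts `c ↦ #(c ∩ A)`
(with values in `ℕ ∪ {∞}`), `A` a measurable set of families. -/
@[reducible] def confSigma (q : ℕ) : MeasurableSpace (Conf q) :=
  MeasurableSpace.generateFrom
    {E | ∃ (A : Set (Fam q)) (n : ℕ∞), MeasurableSet[famSigma q] A ∧ E = {c : Conf q | (c ∩ A).encard = n}}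

open Classical in
/-- Translation of a family by the vector `z` (colours are kept). -/
noncomputable def shiftFam {q : ℕ} (z : Plane) (F : Fam q) : Fam q :=
  F.image fun p => (p.1, p.2 + z)

/-- Translation of a configuration of families by the vector `z`. -/
def shiftConf {q : ℕ} (z : Plane) (c : Conf q) : Conf q := shiftFam z '' c

/-- `Pi 0, …, Pi (q-1)` are independent homogeneous Poisson point processes on the plane with
intensities `lam 0, …, lam (q-1)`: the sets are locally finite, the number of points of `Pi i` in a
bounded Borel set `B` is Poisson with parameter `lam i * vol B`, and the numbers of points in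
pairwise disjoint bounded Borel sets of coloured points are mutually independent. -/
structure IsPoisson {q : ℕ} {Ω : Type*} [MeasurableSpace Ω] (P : Measure Ω) (lam : Fin q → ℝ)
    (Pi : Fin q → Ω → Set Plane) : Prop where
  locallyFinite : ∀ᵐ ω ∂P, ∀ (i : Fin q) (B : Set Plane), Bornology.IsBounded B →
    (Pi i ω ∩ B).Finite
  law : ∀ (i : Fin q) (B : Set Plane), Bornology.IsBounded B → MeasurableSet B →
    HasLaw (fun ω => (Pi i ω ∩ B).ncard) (poissonMeasure ((lam i).toNNReal * (volume B).toNNReal)) P
  indep : ∀ (ι : Type) (k : ι → Fin q) (B : ι → Set Plane),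
    (∀ j, Bornology.IsBounded (B j) ∧ MeasurableSet (B j)) →
    (∀ j l, j ≠ l → k j ≠ k l ∨ Disjoint (B j) (B l)) →
    iIndepFun (fun j ω => (Pi (k j) ω ∩ B j).ncard) P

/-- A translation-invariant `V`-matching scheme of the coloured Poisson points: `Pi` are the
Poisson processes, `M` is the random partition (a measurable random configuration of families);
almost surely the families are nonempty, pairwise disjoint, have types in `V`, and cover exactly
the coloured points of the processes; the law of `M` (which determines `Pi`, hence is the joint law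
of `(Pi, M)`) is invariant under every translation of the plane. -/
structure IsScheme {q : ℕ} {Ω : Type*} [MeasurableSpace Ω] (P : Measure Ω) (lam : Fin q → ℝ)
    (V : Finset (Fin q → ℕ)) (Pi : Fin q → Ω → Set Plane) (M : Ω → Conf q) : Prop where
  poisson : IsPoisson P lam Pi
  measurable : ∀ E : Set (Conf q), MeasurableSet[confSigma q] E → MeasurableSet {ω | M ω ∈ E}
  types : ∀ᵐ ω ∂P, ∀ F ∈ M ω, F.Nonempty ∧ typ F ∈ V
  disjoint : ∀ᵐ ω ∂P, ∀ F ∈ M ω, ∀ F' ∈ M ω, F ≠ F' → Disjoint F F'
  cover : ∀ᵐ ω ∂P, ∀ p : CPt q, (∃ F ∈ M ω, p ∈ F) ↔ p.2 ∈ Pi p.1 ω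
  invariant : ∀ (z : Plane) (E : Set (Conf q)), MeasurableSet[confSigma q] E →
    P {ω | shiftConf z (M ω) ∈ E} = P {ω | M ω ∈ E}

/-- The convex cone generated by the family types. -/
def coneOf {q : ℕ} (V : Finset (Fin q → ℕ)) : Set (Fin q → ℝ) :=
  {x | ∃ a : (Fin q → ℕ) → ℝ, (∀ v ∈ V, 0 ≤ a v) ∧ x = ∑ v ∈ V, a v • fun i => (v i : ℝ)}

/-- The half-open unit square. -/
def unitSq : Set Plane := {x | 0 ≤ x 0 ∧ x 0 < 1 ∧ 0 ≤ x 1 ∧ x 1 < 1}

/-- The Palm tail `P*(X > r)` of the typical family diameter, for the Palm version with respect to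
the union process: the expected number of points of the union process in the unit square whose
family has diameter `> r`, divided by the expected number `∑ i, lam i` of all its points there. -/
noncomputable def palmTail {q : ℕ} {Ω : Type*} [MeasurableSpace Ω] (P : Measure Ω) (lam : Fin q → ℝ)
    (Pi : Fin q → Ω → Set Plane) (M : Ω → Conf q) (r : ℝ) : ℝ≥0∞ :=
  (∫⁻ ω, (({p : CPt q | p.2 ∈ Pi p.1 ω ∧ p.2 ∈ unitSq ∧ ∃ F ∈ M ω, p ∈ F ∧ r < fdiam F}.encard :
    ℕ∞) : ℝ≥0∞) ∂P) / ENNReal.ofReal (∑ i, lam i)

end Pool.Agent.Helper52.PM
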