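import Mathlib

set_option autoImplicit false

namespace Pool.Agent.Helper52.PM

/-- Tent function on `[0, s]`. -/
noncomputable def tent (s x : ℝ) : ℝ := max 0 (min x (s - x))

theorem tent_nonneg (s x : ℝ) : 0 ≤ tent s x := le_max_left _ _

theorem tent_left {s x : ℝ} (h0 : 0 ≤ x) (h1 : x ≤ s / 2) : tent s x = x := by
  unfold tent
  rw [min_eq_left (by linarith), max_eq_right h0]

theorem tent_right {s x : ℝ} (h0 : s / 2 ≤ x) (h1 : x ≤ s) : tent s x = s - x := by
  unfold tent
  rw [min_eq_right (by linarith), max_eq_right (by linarith)]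

theorem tent_of_nonpos {s x : ℝ} (h0 : x ≤ 0) : tent s x = 0 := by
  unfold tent
  rw [max_eq_left]
  exact le_trans (min_le_left _ _) h0

theorem tent_of_ge {s x : ℝ} (h0 : s ≤ x) : tent s x = 0 := by
  unfold tent
  rw [max_eq_left]
  exact le_trans (min_le_right _ _) (by linarith)

theorem tent_le {s x : ℝ} (hs : 0 ≤ s) : tent s x ≤ s / 2 := by
  unfold tent
  apply max_le (by linarith)
  rcases le_total x (s / 2) with h | h
  · exact le_trans (min_le_left _ _) h
  · exact le_trans (min_le_right _ _) (by linarith)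

/-- The bump of the square of side `s` with lower left corner `(s i, s j)`. -/
noncomputable def bump (s : ℝ) (i j : ℕ) (x y : ℝ) : ℝ :=
  tent s (x - s * i) * tent s (y - s * j) / s

/-- State attached to a square. -/
structure St where
  al : Prop
  B : ℝ
  C : ℝ
  D : ℝ
  b : ℝ
  c : ℝ

/-- The linear factor of the bump on a child: `co i s + sl i * x`. -/
noncomputable def sl (i : ℕ) : ℝ := if i % 2 = 0 then 1 else -1
noncomputable def co (s : ℝ) (i : ℕ) : ℝ := if i % 2 = 0 then -(s * (i / 2 : ℕ)) else s * ((i / 2 : ℕ) + 1)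

open Classical in
/-- One refinement step: `s` is the side of the parent, `(i, j)` the index of the child. -/
noncomputable def step (a s e : ℝ) (i j : ℕ) (p : St) : St :=
  if p.al then
    let B' := p.B + a * e / s * (sl i * co s j)
    let C' := p.C + a * e / s * (co s i * sl j)
    let D' := p.D + a * e / s * (sl i * sl j)
    let b' := B' + D' * (s / 2 * (j + 1 / 2))
    let c' := C' + D' * (s / 2 * (i + 1 / 2))
    ⟨|b'| ≤ 1 / 2 ∧ |c'| ≤ 1 / 2, B', C', D', b', c'⟩
  else p

/-- Side length at depth `t`. -/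
noncomputable def sd (m t : ℕ) : ℝ := 2 ^ (m - t)

/-- States of all squares at depth `t`. -/
noncomputable def S (m : ℕ) (a : ℝ) (ε : ℕ → ℕ → ℕ → ℝ) : ℕ → ℕ → ℕ → St
  | 0, _, _ => ⟨True, 0, 0, 0, 0, 0⟩
  | t + 1, i, j => step a (sd m t) (ε t (i / 2) (j / 2)) i j (S m a ε t (i / 2) (j / 2))

variable {m : ℕ} {a : ℝ} {ε : ℕ → ℕ → ℕ → ℝ}

theorem sd_pos (m t : ℕ) : 0 < sd m t := by unfold sd; positivity

theorem sd_succ {t : ℕ} (ht : t < m) : sd m t = 2 * sd m (t + 1) := by
  unfold sd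
  have : m - t = (m - (t + 1)) + 1 := by omega
  rw [this, pow_succ]
  ring

theorem step_alive {a s e : ℝ} {i j : ℕ} {p : St} (h : p.al) :
    step a s e i j p =
    ⟨|p.B + a * e / s * (sl i * co s j) + (p.D + a * e / s * (sl i * sl j)) * (s / 2 * (j + 1 / 2))| ≤ 1 / 2 ∧
      |p.C + a * e / s * (co s i * sl j) + (p.D + a * e / s * (sl i * sl j)) * (s / 2 * (i + 1 / 2))| ≤ 1 / 2,
      p.B + a * e / s * (sl i * co s j), p.C + a * e / s * (co s i * sl j), p.D + a * e / s * (sl i * sl j),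
      p.B + a * e / s * (sl i * co s j) + (p.D + a * e / s * (sl i * sl j)) * (s / 2 * (j + 1 / 2)),
      p.C + a * e / s * (co s i * sl j) + (p.D + a * e / s * (sl i * sl j)) * (s / 2 * (i + 1 / 2))⟩ := by
  unfold step
  rw [if_pos h]

theorem step_dead {a s e : ℝ} {i j : ℕ} {p : St} (h : ¬ p.al) : step a s e i j p = p := by
  unfold step
  rw [if_neg h]

theorem S_succ (m : ℕ) (a : ℝ) (ε : ℕ → ℕ → ℕ → ℝ) (t i j : ℕ) : S m a ε (t + 1) i j =
    step a (sd m t) (ε t (i / 2) (j / 2)) i j (S m a ε t (i / 2) (j / 2)) := rfl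

theorem sl_mul_self (i : ℕ) : sl i * sl i = 1 := by
  unfold sl; split_ifs <;> norm_num

theorem abs_sl (i : ℕ) : |sl i| = 1 := by
  unfold sl; split_ifs <;> norm_num

/-- The linear factor at the centre of the child is `s / 4`. -/
theorem co_centre (s : ℝ) (i : ℕ) : co s i + sl i * (s / 2 * (i + 1 / 2)) = s / 4 := by
  have h := Nat.div_add_mod i 2
  unfold co sl
  split_ifs with h0
  · have hi : (i : ℝ) = 2 * (i / 2 : ℕ) := by
      have : i = 2 * (i / 2) := by omega
      exact_mod_cast this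
    rw [hi]
    ring
  · have hi : (i : ℝ) = 2 * (i / 2 : ℕ) + 1 := by
      have : i = 2 * (i / 2) + 1 := by omega
      exact_mod_cast this
    rw [hi]
    ring

/-- Position of the centre of the child relative to the centre of the parent. -/
theorem centre_child (s : ℝ) (i : ℕ) :
    s / 2 * ((i : ℝ) + 1 / 2) = s * ((i / 2 : ℕ) + 1 / 2) - sl i * (s / 4) := by
  unfold sl
  split_ifs with h0
  · have hi : (i : ℝ) = 2 * (i / 2 : ℕ) := by
      have : i = 2 * (i / 2) := by omega
      exact_mod_cast this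
    rw [hi]; ring
  · have hi : (i : ℝ) = 2 * (i / 2 : ℕ) + 1 := by
      have : i = 2 * (i / 2) + 1 := by omega
      exact_mod_cast this
    rw [hi]; ring

theorem sl_two_mul (i : ℕ) : sl (2 * i) = 1 := by
  unfold sl; rw [if_pos (by omega)]

theorem sl_two_mul_add (i : ℕ) : sl (2 * i + 1) = -1 := by
  unfold sl; rw [if_neg (by omega)]

/-- The gradient at the centre of a child of an alive square. -/
theorem step_b {s e : ℝ} (hs : s ≠ 0) {i j : ℕ} {p : St} (h : p.al)
    (hb : p.b = p.B + p.D * (s * ((j / 2 : ℕ) + 1 / 2))) :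
    (step a s e i j p).b = p.b + a * e * sl i / 4 - p.D * sl j * s / 4 := by
  rw [step_alive h]
  have h1 := co_centre s j
  have h2 := centre_child s j
  have h3 : p.B + a * e / s * (sl i * co s j) + (p.D + a * e / s * (sl i * sl j)) * (s / 2 * (j + 1 / 2))
      = p.B + p.D * (s / 2 * (j + 1 / 2)) + a * e / s * sl i * (co s j + sl j * (s / 2 * (j + 1 / 2))) := by ring
  simp only
  rw [h3, h1, h2, hb]
  field_simp
  ring

theorem step_c {s e : ℝ} (hs : s ≠ 0) {i j : ℕ} {p : St} (h : p.al)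
    (hc : p.c = p.C + p.D * (s * ((i / 2 : ℕ) + 1 / 2))) :
    (step a s e i j p).c = p.c + a * e * sl j / 4 - p.D * sl i * s / 4 := by
  rw [step_alive h]
  have h1 := co_centre s i
  have h2 := centre_child s i
  have h3 : p.C + a * e / s * (co s i * sl j) + (p.D + a * e / s * (sl i * sl j)) * (s / 2 * (i + 1 / 2))
      = p.C + p.D * (s / 2 * (i + 1 / 2)) + a * e / s * sl j * (co s i + sl i * (s / 2 * (i + 1 / 2))) := by ring
  simp only
  rw [h3, h1, h2, hc]
  field_simp
  ring

/-- The invariants of the construction. -/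
structure Inv (m : ℕ) (a : ℝ) (t i j : ℕ) (p : St) : Prop where
  D_le : |p.D| ≤ a / sd m t
  b_eq : p.al → p.b = p.B + p.D * (sd m t * (j + 1 / 2))
  c_eq : p.al → p.c = p.C + p.D * (sd m t * (i + 1 / 2))
  al_iff : p.al ↔ |p.b| ≤ 1 / 2 ∧ |p.c| ≤ 1 / 2
  gx : ∀ y, sd m t * j ≤ y → y ≤ sd m t * (j + 1) → |p.B + p.D * y| ≤ 1
  gy : ∀ x, sd m t * i ≤ x → x ≤ sd m t * (i + 1) → |p.C + p.D * x| ≤ 1

theorem grad_bound {s u B D b y κ : ℝ} {j : ℝ} (hD : |D| * s ≤ u) (hb : b = B + D * (s * (j + 1 / 2)))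
    (hbk : |b| ≤ κ) (h1 : s * j ≤ y) (h2 : y ≤ s * (j + 1)) : |B + D * y| ≤ κ + u / 2 := by
  have e1 : B + D * y = b + D * (y - s * (j + 1 / 2)) := by rw [hb]; ring
  rw [e1]
  have e2 : |D * (y - s * (j + 1 / 2))| ≤ u / 2 := by
    rw [abs_mul]
    have : |y - s * (j + 1 / 2)| ≤ s / 2 := by
      rw [abs_le]; constructor <;> nlinarith
    calc |D| * |y - s * (j + 1 / 2)| ≤ |D| * (s / 2) := mul_le_mul_of_nonneg_left this (abs_nonneg _)
      _ = |D| * s / 2 := by ring
      _ ≤ u / 2 := by linarith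
  calc |b + D * (y - s * (j + 1 / 2))| ≤ |b| + |D * (y - s * (j + 1 / 2))| := abs_add_le _ _
    _ ≤ κ + u / 2 := add_le_add hbk e2

theorem half_cast (j : ℕ) : (2 : ℝ) * (j / 2 : ℕ) ≤ j ∧ (j : ℝ) + 1 ≤ 2 * ((j / 2 : ℕ) + 1) := by
  constructor
  · have : 2 * (j / 2) ≤ j := by omega
    exact_mod_cast this
  · have : j + 1 ≤ 2 * (j / 2 + 1) := by omega
    exact_mod_cast this

theorem inv_S (ha : 0 ≤ a) (ha2 : a ≤ 1 / 2) (hε : ∀ t i j, 0 ≤ ε t i j ∧ ε t i j ≤ 1) :
    ∀ {t : ℕ}, t ≤ m → ∀ i j, Inv m a t i j (S m a ε t i j)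
  | 0, _, i, j => by
    have h0 := sd_pos m 0
    refine ⟨?_, ?_, ?_, ?_, ?_, ?_⟩
    · simp only [S, abs_zero]; positivity
    · simp [S]
    · simp [S]
    · simp [S]
    · intro y _ _; simp [S]
    · intro y _ _; simp [S]
  | t + 1, ht, i, j => by
    have ip := inv_S ha ha2 hε (t := t) (by omega) (i / 2) (j / 2)
    have hs := sd_succ (m := m) (t := t) (by omega)
    have hs' := sd_pos m (t + 1)
    have hsp := sd_pos m t
    rw [S_succ]
    set p := S m a ε t (i / 2) (j / 2) with hp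
    set e := ε t (i / 2) (j / 2) with he
    have he' : 0 ≤ e ∧ e ≤ 1 := hε _ _ _
    set s := sd m t with hsdef
    set s' := sd m (t + 1) with hs'def
    have hhalf : s / 2 = s' := by rw [hs]; ring
    have hae : |a * e / s| ≤ a / s := by
      rw [abs_div, abs_mul, abs_of_nonneg ha, abs_of_nonneg he'.1, abs_of_pos hsp]
      apply div_le_div_of_nonneg_right _ hsp.le
      nlinarith
    have hDs : |p.D| * s ≤ a := by
      have := ip.D_le
      rwa [le_div_iff₀ hsp] at this
    by_cases hal : p.al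
    · have hb := step_b (a := a) (e := e) hsp.ne' hal (i := i) (ip.b_eq hal)
      have hc := step_c (a := a) (e := e) hsp.ne' hal (j := j) (ip.c_eq hal)
      have hD' : |(step a s e i j p).D| ≤ a / s' := by
        rw [step_alive hal]
        simp only
        calc |p.D + a * e / s * (sl i * sl j)| ≤ |p.D| + |a * e / s * (sl i * sl j)| := abs_add_le _ _
          _ ≤ a / s + a / s := by
            apply add_le_add ip.D_le
            rw [abs_mul, abs_mul, abs_sl, abs_sl]
            simpa using hae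
          _ = a / s' := by rw [hs]; field_simp; ring
      have hDs' : |(step a s e i j p).D| * s' ≤ a := by rwa [le_div_iff₀ hs'] at hD'
      have hbl : |(step a s e i j p).b| ≤ 1 / 2 + a / 2 := by
        rw [hb]
        have h1 : |a * e * sl i / 4| ≤ a / 4 := by
          rw [abs_div, abs_mul, abs_mul, abs_sl, abs_of_nonneg ha, abs_of_nonneg he'.1]
          norm_num
          nlinarith
        have h2 : |p.D * sl j * s / 4| ≤ a / 4 := by
          rw [abs_div, abs_mul, abs_mul, abs_sl, abs_of_pos hsp]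
          norm_num
          linarith
        have h3 := (ip.al_iff.1 hal).1
        calc |p.b + a * e * sl i / 4 - p.D * sl j * s / 4| ≤ |p.b + a * e * sl i / 4| + |p.D * sl j * s / 4| := abs_sub _ _
          _ ≤ |p.b| + |a * e * sl i / 4| + |p.D * sl j * s / 4| := by
            linarith [abs_add_le p.b (a * e * sl i / 4)]
          _ ≤ 1 / 2 + a / 2 := by linarith
      have hcl : |(step a s e i j p).c| ≤ 1 / 2 + a / 2 := by
        rw [hc]
        have h1 : |a * e * sl j / 4| ≤ a / 4 := by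
          rw [abs_div, abs_mul, abs_mul, abs_sl, abs_of_nonneg ha, abs_of_nonneg he'.1]
          norm_num
          nlinarith
        have h2 : |p.D * sl i * s / 4| ≤ a / 4 := by
          rw [abs_div, abs_mul, abs_mul, abs_sl, abs_of_pos hsp]
          norm_num
          linarith
        have h3 := (ip.al_iff.1 hal).2
        calc |p.c + a * e * sl j / 4 - p.D * sl i * s / 4| ≤ |p.c + a * e * sl j / 4| + |p.D * sl i * s / 4| := abs_sub _ _
          _ ≤ |p.c| + |a * e * sl j / 4| + |p.D * sl i * s / 4| := by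
            linarith [abs_add_le p.c (a * e * sl j / 4)]
          _ ≤ 1 / 2 + a / 2 := by linarith
      have hbeq : (step a s e i j p).b = (step a s e i j p).B + (step a s e i j p).D * (s' * (j + 1 / 2)) := by
        rw [step_alive hal, ← hhalf]
      have hceq : (step a s e i j p).c = (step a s e i j p).C + (step a s e i j p).D * (s' * (i + 1 / 2)) := by
        rw [step_alive hal, ← hhalf]
      refine ⟨hD', fun _ => hbeq, fun _ => hceq, ?_, ?_, ?_⟩
      · rw [step_alive hal]
      · intro y h1 h2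
        have := grad_bound hDs' hbeq hbl h1 h2
        linarith
      · intro y h1 h2
        have := grad_bound hDs' hceq hcl h1 h2
        linarith
    · rw [step_dead hal]
      obtain ⟨hj1, hj2⟩ := half_cast j
      obtain ⟨hi1, hi2⟩ := half_cast i
      refine ⟨?_, fun h => absurd h hal, fun h => absurd h hal, ip.al_iff, ?_, ?_⟩
      · refine ip.D_le.trans ?_
        apply div_le_div_of_nonneg_left ha hs'
        rw [← hsdef]; linarith
      · intro y h1 h2
        rw [← hs'def] at h1 h2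
        apply ip.gx
        · refine le_trans ?_ h1
          rw [← hsdef, hs]
          nlinarith
        · refine le_trans h2 ?_
          rw [← hsdef, hs]
          nlinarith
      · intro y h1 h2
        rw [← hs'def] at h1 h2
        apply ip.gy
        · refine le_trans ?_ h1
          rw [← hsdef, hs]
          nlinarith
        · refine le_trans h2 ?_
          rw [← hsdef, hs]
          nlinarith

theorem sum_range_two_mul (n : ℕ) (g : ℕ → ℝ) :
    ∑ i ∈ Finset.range (2 * n), g i = ∑ i ∈ Finset.range n, (g (2 * i) + g (2 * i + 1)) := by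
  induction n with
  | zero => simp
  | succ n ih => rw [Finset.sum_range_succ, ← ih, show 2 * (n + 1) = 2 * n + 1 + 1 by ring,
      Finset.sum_range_succ, Finset.sum_range_succ]; ring

/-- Energy at depth `t`. -/
noncomputable def en (m : ℕ) (a : ℝ) (ε : ℕ → ℕ → ℕ → ℝ) (t i j : ℕ) : ℝ :=
  (S m a ε t i j).b ^ 2 + (S m a ε t i j).c ^ 2

theorem en_children (ha : 0 ≤ a) (ha2 : a ≤ 1 / 2) (hε : ∀ t i j, 0 ≤ ε t i j ∧ ε t i j ≤ 1)
    {t : ℕ} (ht : t < m) (i j : ℕ) :
    (en m a ε (t + 1) (2 * i) (2 * j) + en m a ε (t + 1) (2 * i) (2 * j + 1)) +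
     (en m a ε (t + 1) (2 * i + 1) (2 * j) + en m a ε (t + 1) (2 * i + 1) (2 * j + 1))
     ≤ 4 * en m a ε t i j + a ^ 2 := by
  have ip := inv_S ha ha2 hε (m := m) (t := t) (by omega) i j
  have hsp := sd_pos m t
  unfold en
  simp only [S_succ]
  have e1 : 2 * i / 2 = i := by omega
  have e2 : (2 * i + 1) / 2 = i := by omega
  have e3 : 2 * j / 2 = j := by omega
  have e4 : (2 * j + 1) / 2 = j := by omega
  simp only [e1, e2, e3, e4]
  set p := S m a ε t i j with hp
  set e := ε t i j with he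
  have he' : 0 ≤ e ∧ e ≤ 1 := hε _ _ _
  set s := sd m t with hsdef
  have hDs : |p.D| * s ≤ a := by
    have := ip.D_le
    rwa [le_div_iff₀ hsp] at this
  have hDs2 : (p.D * s) ^ 2 ≤ a ^ 2 := by
    rw [← sq_abs (p.D * s), abs_mul, abs_of_pos hsp]
    have : 0 ≤ |p.D| * s := by positivity
    nlinarith
  have hae2 : (a * e) ^ 2 ≤ a ^ 2 := by
    have h1 : 0 ≤ a * e := mul_nonneg ha he'.1
    have h2 : a * e ≤ a := by nlinarith
    nlinarith
  by_cases hal : p.al
  · have hb := ip.b_eq hal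
    have hc := ip.c_eq hal
    have b1 := step_b (a := a) (e := e) hsp.ne' hal (i := 2 * i) (j := 2 * j) (by rw [e3]; exact hb)
    have b2 := step_b (a := a) (e := e) hsp.ne' hal (i := 2 * i) (j := 2 * j + 1) (by rw [e4]; exact hb)
    have b3 := step_b (a := a) (e := e) hsp.ne' hal (i := 2 * i + 1) (j := 2 * j) (by rw [e3]; exact hb)
    have b4 := step_b (a := a) (e := e) hsp.ne' hal (i := 2 * i + 1) (j := 2 * j + 1) (by rw [e4]; exact hb)
    have c1 := step_c (a := a) (e := e) hsp.ne' hal (i := 2 * i) (j := 2 * j) (by rw [e1]; exact hc)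
    have c2 := step_c (a := a) (e := e) hsp.ne' hal (i := 2 * i) (j := 2 * j + 1) (by rw [e1]; exact hc)
    have c3 := step_c (a := a) (e := e) hsp.ne' hal (i := 2 * i + 1) (j := 2 * j) (by rw [e2]; exact hc)
    have c4 := step_c (a := a) (e := e) hsp.ne' hal (i := 2 * i + 1) (j := 2 * j + 1) (by rw [e2]; exact hc)
    rw [b1, b2, b3, b4, c1, c2, c3, c4]
    simp only [sl_two_mul, sl_two_mul_add]
    nlinarith
  · simp only [step_dead hal]
    nlinarith [sq_nonneg a]

theorem en_sum (ha : 0 ≤ a) (ha2 : a ≤ 1 / 2) (hε : ∀ t i j, 0 ≤ ε t i j ∧ ε t i j ≤ 1) :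
    ∀ {t : ℕ}, t ≤ m →
    ∑ i ∈ Finset.range (2 ^ t), ∑ j ∈ Finset.range (2 ^ t), en m a ε t i j ≤ 4 ^ t * t * a ^ 2 / 4
  | 0, _ => by simp [en, S]
  | t + 1, ht => by
    have ih := en_sum ha ha2 hε (t := t) (by omega)
    have h2 : (2 : ℕ) ^ (t + 1) = 2 * 2 ^ t := by ring
    rw [h2, sum_range_two_mul]
    simp only [sum_range_two_mul, ← Finset.sum_add_distrib]
    calc _ ≤ ∑ i ∈ Finset.range (2 ^ t), ∑ j ∈ Finset.range (2 ^ t), (4 * en m a ε t i j + a ^ 2) := by
          apply Finset.sum_le_sum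
          intro i _
          apply Finset.sum_le_sum
          intro j _
          exact en_children ha ha2 hε (by omega) i j
      _ = 4 * ∑ i ∈ Finset.range (2 ^ t), ∑ j ∈ Finset.range (2 ^ t), en m a ε t i j + 4 ^ t * a ^ 2 := by
          simp only [Finset.sum_add_distrib, Finset.mul_sum, Finset.sum_const, Finset.card_range,
            nsmul_eq_mul]
          have : (4 : ℝ) ^ t = 2 ^ t * 2 ^ t := by
            rw [← mul_pow]; norm_num
          rw [this]
          push_cast
          ring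
      _ ≤ 4 ^ (t + 1) * ((t + 1 : ℕ) : ℝ) * a ^ 2 / 4 := by
          push_cast
          have h4 : (4 : ℝ) ^ (t + 1) = 4 * 4 ^ t := by ring
          rw [h4]
          nlinarith

/-- The tent on a child interval is affine. -/
theorem tent_child {s x : ℝ} {i : ℕ} (h1 : s / 2 * i ≤ x) (h2 : x ≤ s / 2 * (i + 1)) :
    tent s (x - s * (i / 2 : ℕ)) = co s i + sl i * x := by
  unfold co sl
  split_ifs with h0
  · have hi : (i : ℝ) = 2 * (i / 2 : ℕ) := by
      have : i = 2 * (i / 2) := by omega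
      exact_mod_cast this
    rw [hi] at h1 h2
    rw [tent_left (by linarith) (by linarith)]
    ring
  · have hi : (i : ℝ) = 2 * (i / 2 : ℕ) + 1 := by
      have : i = 2 * (i / 2) + 1 := by omega
      exact_mod_cast this
    rw [hi] at h1 h2
    rw [tent_right (by linarith) (by linarith)]
    ring

/-- Ancestor index at depth `t` of the index `i` at depth `m`. -/
def anc (m t i : ℕ) : ℕ := i / 2 ^ (m - t)

theorem anc_half {m t : ℕ} (ht : t < m) (i : ℕ) : anc m (t + 1) i / 2 = anc m t i := by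
  unfold anc
  rw [Nat.div_div_eq_div_mul, ← pow_succ]
  congr 2
  omega

theorem anc_zero {m i : ℕ} (hi : i < 2 ^ m) : anc m 0 i = 0 := by
  unfold anc
  rw [Nat.sub_zero]
  exact Nat.div_eq_of_lt hi

theorem anc_self (m i : ℕ) : anc m m i = i := by
  unfold anc; simp

theorem anc_lt {m t i : ℕ} (ht : t ≤ m) (hi : i < 2 ^ m) : anc m t i < 2 ^ t := by
  unfold anc
  rw [Nat.div_lt_iff_lt_mul (by positivity), ← pow_add]
  rwa [Nat.add_sub_of_le ht]

theorem anc_le (m t i : ℕ) : sd m t * anc m t i ≤ i := by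
  unfold sd anc
  have := Nat.mul_div_le i (2 ^ (m - t))
  exact_mod_cast this

theorem anc_ge (m t i : ℕ) : (i : ℝ) + 1 ≤ sd m t * (anc m t i + 1) := by
  unfold sd anc
  have := Nat.lt_mul_div_succ i (show 0 < 2 ^ (m - t) by positivity)
  exact_mod_cast this

theorem tent_off {m t i k : ℕ} {x : ℝ} (h1 : (i : ℝ) ≤ x) (h2 : x ≤ i + 1) (hk : k ≠ anc m t i) :
    tent (sd m t) (x - sd m t * k) = 0 := by
  have hs := sd_pos m t
  have h3 := anc_le m t i
  have h4 := anc_ge m t i
  rcases lt_or_gt_of_ne hk with h | h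
  · apply tent_of_ge
    have : (k : ℝ) + 1 ≤ anc m t i := by exact_mod_cast h
    nlinarith
  · apply tent_of_nonpos
    have : (anc m t i : ℝ) + 1 ≤ k := by exact_mod_cast h
    nlinarith

open Classical in
/-- Indicator that a square is alive. -/
noncomputable def act (m : ℕ) (a : ℝ) (ε : ℕ → ℕ → ℕ → ℝ) (t i j : ℕ) : ℝ :=
  if (S m a ε t i j).al then 1 else 0

/-- The function built. -/
noncomputable def Fn (m : ℕ) (a : ℝ) (ε : ℕ → ℕ → ℕ → ℝ) (x y : ℝ) : ℝ :=
  ∑ t ∈ Finset.range m, ∑ i ∈ Finset.range (2 ^ t), ∑ j ∈ Finset.range (2 ^ t),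
    a * act m a ε t i j * ε t i j * bump (sd m t) i j x y

theorem Fn_local {i0 j0 : ℕ} (hi : i0 < 2 ^ m) (hj : j0 < 2 ^ m) {x y : ℝ}
    (hx1 : (i0 : ℝ) ≤ x) (hx2 : x ≤ i0 + 1) (hy1 : (j0 : ℝ) ≤ y) (hy2 : y ≤ j0 + 1) :
    Fn m a ε x y = ∑ t ∈ Finset.range m, a * act m a ε t (anc m t i0) (anc m t j0) *
      ε t (anc m t i0) (anc m t j0) *
      ((co (sd m t) (anc m (t + 1) i0) + sl (anc m (t + 1) i0) * x) *
       (co (sd m t) (anc m (t + 1) j0) + sl (anc m (t + 1) j0) * y) / sd m t) := by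
  unfold Fn
  apply Finset.sum_congr rfl
  intro t ht
  rw [Finset.mem_range] at ht
  rw [Finset.sum_eq_single (anc m t i0), Finset.sum_eq_single (anc m t j0)]
  · have hs := sd_succ ht
    have hhalf : sd m t / 2 = sd m (t + 1) := by rw [hs]; ring
    have h1 := anc_le m (t + 1) i0
    have h2 := anc_ge m (t + 1) i0
    have h3 := anc_le m (t + 1) j0
    have h4 := anc_ge m (t + 1) j0
    unfold bump
    have e1 := tent_child (s := sd m t) (x := x) (i := anc m (t + 1) i0) (by rw [hhalf]; linarith)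
      (by rw [hhalf]; linarith)
    have e2 := tent_child (s := sd m t) (x := y) (i := anc m (t + 1) j0) (by rw [hhalf]; linarith)
      (by rw [hhalf]; linarith)
    rw [anc_half ht] at e1 e2
    rw [e1, e2]
  · intro k _ hk
    unfold bump
    rw [tent_off hy1 hy2 hk]
    ring
  · intro h
    exact absurd (Finset.mem_range.2 (anc_lt ht.le hj)) h
  · intro k _ hk
    apply Finset.sum_eq_zero
    intro j _
    unfold bump
    rw [tent_off hx1 hx2 hk]
    ring
  · intro h
    exact absurd (Finset.mem_range.2 (anc_lt ht.le hi)) h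

theorem step_BD {s e y : ℝ} {i j : ℕ} {p : St} :
    (step a s e i j p).B + (step a s e i j p).D * y - (p.B + p.D * y) =
      a * (open Classical in if p.al then (1 : ℝ) else 0) * e * (sl i * (co s j + sl j * y) / s) := by
  by_cases h : p.al
  · rw [step_alive h, if_pos h]
    simp only
    ring
  · rw [step_dead h, if_neg h]
    ring

theorem step_CD {s e x : ℝ} {i j : ℕ} {p : St} :
    (step a s e i j p).C + (step a s e i j p).D * x - (p.C + p.D * x) =
      a * (open Classical in if p.al then (1 : ℝ) else 0) * e * (sl j * (co s i + sl i * x) / s) := by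
  by_cases h : p.al
  · rw [step_alive h, if_pos h]
    simp only
    ring
  · rw [step_dead h, if_neg h]
    ring

/-- Increment of `Fn` in the `x` direction along a unit square. -/
theorem Fn_dx {i0 j0 : ℕ} (hi : i0 < 2 ^ m) (hj : j0 < 2 ^ m) {y : ℝ}
    (hy1 : (j0 : ℝ) ≤ y) (hy2 : y ≤ j0 + 1) :
    Fn m a ε (i0 + 1) y - Fn m a ε i0 y = (S m a ε m i0 j0).B + (S m a ε m i0 j0).D * y := by
  rw [Fn_local hi hj (by linarith) (by linarith) hy1 hy2, Fn_local hi hj le_rfl (by linarith) hy1 hy2,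
    ← Finset.sum_sub_distrib]
  have key : ∀ n, n ≤ m → ∑ t ∈ Finset.range n, (a * act m a ε t (anc m t i0) (anc m t j0) *
      ε t (anc m t i0) (anc m t j0) *
      ((co (sd m t) (anc m (t + 1) i0) + sl (anc m (t + 1) i0) * (i0 + 1)) *
       (co (sd m t) (anc m (t + 1) j0) + sl (anc m (t + 1) j0) * y) / sd m t) -
       a * act m a ε t (anc m t i0) (anc m t j0) *
      ε t (anc m t i0) (anc m t j0) *
      ((co (sd m t) (anc m (t + 1) i0) + sl (anc m (t + 1) i0) * i0) *
       (co (sd m t) (anc m (t + 1) j0) + sl (anc m (t + 1) j0) * y) / sd m t)) =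
       (S m a ε n (anc m n i0) (anc m n j0)).B + (S m a ε n (anc m n i0) (anc m n j0)).D * y := by
    intro n
    induction n with
    | zero => intro _; simp [S]
    | succ n ih =>
      intro hn
      rw [Finset.sum_range_succ, ih (by omega)]
      have h1 := step_BD (a := a) (s := sd m n) (e := ε n (anc m n i0) (anc m n j0)) (y := y)
        (i := anc m (n + 1) i0) (j := anc m (n + 1) j0) (p := S m a ε n (anc m n i0) (anc m n j0))
      rw [S_succ, anc_half (by omega), anc_half (by omega)]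
      unfold act
      linear_combination -h1
  have := key m le_rfl
  rw [anc_self, anc_self] at this
  exact this

theorem Fn_dy {i0 j0 : ℕ} (hi : i0 < 2 ^ m) (hj : j0 < 2 ^ m) {x : ℝ}
    (hx1 : (i0 : ℝ) ≤ x) (hx2 : x ≤ i0 + 1) :
    Fn m a ε x (j0 + 1) - Fn m a ε x j0 = (S m a ε m i0 j0).C + (S m a ε m i0 j0).D * x := by
  rw [Fn_local hi hj hx1 hx2 (by linarith) (by linarith), Fn_local hi hj hx1 hx2 le_rfl (by linarith),
    ← Finset.sum_sub_distrib]
  have key : ∀ n, n ≤ m → ∑ t ∈ Finset.range n, (a * act m a ε t (anc m t i0) (anc m t j0) *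
      ε t (anc m t i0) (anc m t j0) *
      ((co (sd m t) (anc m (t + 1) i0) + sl (anc m (t + 1) i0) * x) *
       (co (sd m t) (anc m (t + 1) j0) + sl (anc m (t + 1) j0) * (j0 + 1)) / sd m t) -
       a * act m a ε t (anc m t i0) (anc m t j0) *
      ε t (anc m t i0) (anc m t j0) *
      ((co (sd m t) (anc m (t + 1) i0) + sl (anc m (t + 1) i0) * x) *
       (co (sd m t) (anc m (t + 1) j0) + sl (anc m (t + 1) j0) * j0) / sd m t)) =
       (S m a ε n (anc m n i0) (anc m n j0)).C + (S m a ε n (anc m n i0) (anc m n j0)).D * x := by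
    intro n
    induction n with
    | zero => intro _; simp [S]
    | succ n ih =>
      intro hn
      rw [Finset.sum_range_succ, ih (by omega)]
      have h1 := step_CD (a := a) (s := sd m n) (e := ε n (anc m n i0) (anc m n j0)) (x := x)
        (i := anc m (n + 1) i0) (j := anc m (n + 1) j0) (p := S m a ε n (anc m n i0) (anc m n j0))
      rw [S_succ, anc_half (by omega), anc_half (by omega)]
      unfold act
      linear_combination -h1
  have := key m le_rfl
  rw [anc_self, anc_self] at this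
  exact this

theorem bump_nonneg (m t i j : ℕ) (x y : ℝ) : 0 ≤ bump (sd m t) i j x y := by
  unfold bump
  have := sd_pos m t
  have h1 := tent_nonneg (sd m t) (x - sd m t * i)
  have h2 := tent_nonneg (sd m t) (y - sd m t * j)
  positivity

theorem act_nonneg (t i j : ℕ) : 0 ≤ act m a ε t i j := by
  unfold act; split_ifs <;> norm_num

theorem Fn_nonneg (ha : 0 ≤ a) (hε : ∀ t i j, 0 ≤ ε t i j ∧ ε t i j ≤ 1) (x y : ℝ) :
    0 ≤ Fn m a ε x y := by
  unfold Fn
  apply Finset.sum_nonneg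
  intro t _
  apply Finset.sum_nonneg
  intro i _
  apply Finset.sum_nonneg
  intro j _
  have h1 := bump_nonneg m t i j x y
  have h2 := act_nonneg (m := m) (a := a) (ε := ε) t i j
  have h3 := (hε t i j).1
  positivity

theorem sd_mul_pow {t : ℕ} (ht : t ≤ m) : sd m t * 2 ^ t = 2 ^ m := by
  unfold sd
  rw [← pow_add]
  congr 1
  omega

theorem tent_big {t k : ℕ} (ht : t ≤ m) (hk : k < 2 ^ t) {x : ℝ} (hx : 2 ^ m ≤ x) :
    tent (sd m t) (x - sd m t * k) = 0 := by
  apply tent_of_ge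
  have h1 := sd_mul_pow ht
  have h2 := sd_pos m t
  have h3 : (k : ℝ) + 1 ≤ 2 ^ t := by exact_mod_cast hk
  nlinarith

theorem tent_small {t k : ℕ} {x : ℝ} (hx : x ≤ 0) :
    tent (sd m t) (x - sd m t * k) = 0 := by
  apply tent_of_nonpos
  have h2 := sd_pos m t
  have h3 : (0 : ℝ) ≤ k := by positivity
  nlinarith

theorem Fn_eq_zero_of_left {x y : ℝ} (h : ∀ t : ℕ, t < m → ∀ k : ℕ, k < 2 ^ t → tent (sd m t) (x - sd m t * k) = 0) :
    Fn m a ε x y = 0 := by
  unfold Fn
  apply Finset.sum_eq_zero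
  intro t ht
  apply Finset.sum_eq_zero
  intro i hi
  apply Finset.sum_eq_zero
  intro j _
  unfold bump
  rw [h t (Finset.mem_range.1 ht) i (Finset.mem_range.1 hi)]
  ring

theorem Fn_eq_zero_of_right {x y : ℝ} (h : ∀ t : ℕ, t < m → ∀ k : ℕ, k < 2 ^ t → tent (sd m t) (y - sd m t * k) = 0) :
    Fn m a ε x y = 0 := by
  unfold Fn
  apply Finset.sum_eq_zero
  intro t ht
  apply Finset.sum_eq_zero
  intro i hi
  apply Finset.sum_eq_zero
  intro j hj
  unfold bump
  rw [h t (Finset.mem_range.1 ht) j (Finset.mem_range.1 hj)]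
  ring

theorem Fn_x_zero (y : ℝ) : Fn m a ε 0 y = 0 :=
  Fn_eq_zero_of_left fun _ _ _ _ => tent_small le_rfl

theorem Fn_y_zero (x : ℝ) : Fn m a ε x 0 = 0 :=
  Fn_eq_zero_of_right fun _ _ _ _ => tent_small le_rfl

theorem Fn_x_big {x : ℝ} (hx : 2 ^ m ≤ x) (y : ℝ) : Fn m a ε x y = 0 :=
  Fn_eq_zero_of_left fun _ ht _ hk => tent_big ht.le hk hx

theorem Fn_y_big (x : ℝ) {y : ℝ} (hy : 2 ^ m ≤ y) : Fn m a ε x y = 0 :=
  Fn_eq_zero_of_right fun _ ht _ hk => tent_big ht.le hk hy

theorem Fn_step_x (ha : 0 ≤ a) (ha2 : a ≤ 1 / 2) (hε : ∀ t i j, 0 ≤ ε t i j ∧ ε t i j ≤ 1) (x y : ℕ) :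
    |Fn m a ε ((x + 1 : ℕ) : ℝ) y - Fn m a ε x y| ≤ 1 := by
  by_cases hx : x < 2 ^ m
  · by_cases hy : y < 2 ^ m
    · push_cast
      rw [Fn_dx hx hy le_rfl (by linarith)]
      have h := (inv_S ha ha2 hε (m := m) le_rfl x y).gx y
      have h1 : sd m m = 1 := by unfold sd; simp
      rw [h1] at h
      exact h (by linarith) (by linarith)
    · have hy' : (2 : ℝ) ^ m ≤ y := by exact_mod_cast not_lt.1 hy
      rw [Fn_y_big _ hy', Fn_y_big _ hy']
      norm_num
  · have hx' : (2 : ℝ) ^ m ≤ x := by exact_mod_cast not_lt.1 hx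
    rw [Fn_x_big hx', Fn_x_big (by push_cast; linarith)]
    norm_num

theorem Fn_step_y (ha : 0 ≤ a) (ha2 : a ≤ 1 / 2) (hε : ∀ t i j, 0 ≤ ε t i j ∧ ε t i j ≤ 1) (x y : ℕ) :
    |Fn m a ε x ((y + 1 : ℕ) : ℝ) - Fn m a ε x y| ≤ 1 := by
  by_cases hx : x < 2 ^ m
  · by_cases hy : y < 2 ^ m
    · push_cast
      rw [Fn_dy hx hy le_rfl (by linarith)]
      have h := (inv_S ha ha2 hε (m := m) le_rfl x y).gy x
      have h1 : sd m m = 1 := by unfold sd; simp
      rw [h1] at h
      exact h (by linarith) (by linarith)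
    · have hy' : (2 : ℝ) ^ m ≤ y := by exact_mod_cast not_lt.1 hy
      rw [Fn_y_big _ hy', Fn_y_big _ (by push_cast; linarith)]
      norm_num
  · have hx' : (2 : ℝ) ^ m ≤ x := by exact_mod_cast not_lt.1 hx
    rw [Fn_x_big hx', Fn_x_big hx']
    norm_num

theorem dead_sum (ha : 0 ≤ a) (ha2 : a ≤ 1 / 2) (hε : ∀ t i j, 0 ≤ ε t i j ∧ ε t i j ≤ 1)
    {t : ℕ} (ht : t ≤ m) :
    ∑ i ∈ Finset.range (2 ^ t), ∑ j ∈ Finset.range (2 ^ t), (1 - act m a ε t i j) ≤
      4 ^ t * (m * a ^ 2) := by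
  have h1 : ∀ i j, 1 - act m a ε t i j ≤ 4 * en m a ε t i j := by
    intro i j
    unfold act en
    have hi := (inv_S ha ha2 hε ht i j).al_iff
    split_ifs with h
    · nlinarith [sq_nonneg (S m a ε t i j).b, sq_nonneg (S m a ε t i j).c]
    · rw [hi] at h
      have h2 : 1 / 2 < |(S m a ε t i j).b| ∨ 1 / 2 < |(S m a ε t i j).c| := by
        by_contra hc
        push Not at hc
        exact h hc
      rcases h2 with h2 | h2
      · have : (1 / 2) ^ 2 < |(S m a ε t i j).b| ^ 2 := by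
          apply pow_lt_pow_left₀ h2 (by norm_num) (by norm_num)
        rw [sq_abs] at this
        nlinarith [sq_nonneg (S m a ε t i j).b, sq_nonneg (S m a ε t i j).c]
      · have : (1 / 2) ^ 2 < |(S m a ε t i j).c| ^ 2 := by
          apply pow_lt_pow_left₀ h2 (by norm_num) (by norm_num)
        rw [sq_abs] at this
        nlinarith [sq_nonneg (S m a ε t i j).b, sq_nonneg (S m a ε t i j).c]
  calc _ ≤ ∑ i ∈ Finset.range (2 ^ t), ∑ j ∈ Finset.range (2 ^ t), 4 * en m a ε t i j := by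
        apply Finset.sum_le_sum
        intro i _
        apply Finset.sum_le_sum
        intro j _
        exact h1 i j
    _ = 4 * ∑ i ∈ Finset.range (2 ^ t), ∑ j ∈ Finset.range (2 ^ t), en m a ε t i j := by
        simp only [Finset.mul_sum]
    _ ≤ 4 * (4 ^ t * t * a ^ 2 / 4) := by
        apply mul_le_mul_of_nonneg_left (en_sum ha ha2 hε ht) (by norm_num)
    _ ≤ 4 ^ t * (m * a ^ 2) := by
        have h2 : (t : ℝ) ≤ m := by exact_mod_cast ht
        have h3 : (0 : ℝ) ≤ 4 ^ t * a ^ 2 := by positivity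
        nlinarith

/-- Value of the noise against a bump. -/
noncomputable def Wn (m : ℕ) (ξ : ℕ → ℕ → ℝ) (t i j : ℕ) : ℝ :=
  ∑ x ∈ Finset.range (2 ^ m), ∑ y ∈ Finset.range (2 ^ m), bump (sd m t) i j x y * ξ x y

theorem Fn_pair (ξ : ℕ → ℕ → ℝ) :
    ∑ x ∈ Finset.range (2 ^ m), ∑ y ∈ Finset.range (2 ^ m), Fn m a ε x y * ξ x y =
    ∑ t ∈ Finset.range m, ∑ i ∈ Finset.range (2 ^ t), ∑ j ∈ Finset.range (2 ^ t),
      a * act m a ε t i j * ε t i j * Wn m ξ t i j := by
  unfold Fn Wn
  simp only [Finset.sum_mul, Finset.mul_sum]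
  rw [Finset.sum_congr rfl (fun x _ => Finset.sum_comm)]
  rw [Finset.sum_comm]
  apply Finset.sum_congr rfl
  intro t _
  rw [Finset.sum_congr rfl (fun x _ => Finset.sum_congr rfl (fun y _ => rfl))]
  rw [Finset.sum_congr rfl (fun x _ => Finset.sum_comm)]
  rw [Finset.sum_comm]
  apply Finset.sum_congr rfl
  intro i _
  rw [Finset.sum_congr rfl (fun x _ => Finset.sum_comm)]
  rw [Finset.sum_comm]
  apply Finset.sum_congr rfl
  intro j _
  apply Finset.sum_congr rfl
  intro x _
  apply Finset.sum_congr rfl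
  intro y _
  ring

/-- The deterministic multiscale construction. -/
theorem exists_F (m : ℕ) {a : ℝ} (ha : 0 ≤ a) (ha2 : a ≤ 1 / 2) (ξ : ℕ → ℕ → ℝ) (τ : ℕ → ℝ)
    (hτ : ∀ t, 0 < τ t) : ∃ G : ℕ → ℕ → ℝ, (∀ x y, 0 ≤ G x y) ∧ (∀ x y, 2 ^ m ≤ x → G x y = 0) ∧
      (∀ x y, 2 ^ m ≤ y → G x y = 0) ∧ (∀ y, G 0 y = 0) ∧ (∀ x, G x 0 = 0) ∧
      (∀ x y, |G (x + 1) y - G x y| ≤ 1) ∧ (∀ x y, |G x (y + 1) - G x y| ≤ 1) ∧
      a * ∑ t ∈ Finset.range m, (∑ i ∈ Finset.range (2 ^ t), ∑ j ∈ Finset.range (2 ^ t),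
        (max (-(Wn m ξ t i j)) 0 - (Wn m ξ t i j) ^ 2 / (2 * τ t)) - 4 ^ t * (m * a ^ 2) * (τ t / 2)) ≤
      -∑ x ∈ Finset.range (2 ^ m), ∑ y ∈ Finset.range (2 ^ m), G x y * ξ x y := by
  classical
  set ε : ℕ → ℕ → ℕ → ℝ := fun t i j => if Wn m ξ t i j < 0 then 1 else 0 with hεdef
  have hε : ∀ t i j, 0 ≤ ε t i j ∧ ε t i j ≤ 1 := by
    intro t i j
    simp only [hεdef]
    split_ifs <;> norm_num
  refine ⟨fun x y => Fn m a ε x y, fun x y => Fn_nonneg ha hε _ _, ?_, ?_, ?_, ?_, ?_, ?_, ?_⟩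
  · intro x y hx
    exact Fn_x_big (by exact_mod_cast hx) _
  · intro x y hy
    exact Fn_y_big _ (by exact_mod_cast hy)
  · intro y
    simpa using Fn_x_zero (m := m) (a := a) (ε := ε) y
  · intro x
    simpa using Fn_y_zero (m := m) (a := a) (ε := ε) x
  · intro x y
    exact Fn_step_x ha ha2 hε x y
  · intro x y
    exact Fn_step_y ha ha2 hε x y
  · simp only
    rw [Fn_pair, Finset.mul_sum, ← Finset.sum_neg_distrib]
    apply Finset.sum_le_sum
    intro t ht
    have ht' : t < m := Finset.mem_range.1 ht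
    have hdead := dead_sum ha ha2 hε ht'.le
    have hterm : ∀ i j, (max (-(Wn m ξ t i j)) 0 - (Wn m ξ t i j) ^ 2 / (2 * τ t)) -
        (1 - act m a ε t i j) * (τ t / 2) ≤ act m a ε t i j * (ε t i j * (-(Wn m ξ t i j))) := by
      intro i j
      have hτt := hτ t
      set W := Wn m ξ t i j with hW
      have e1 : ε t i j * (-W) = max (-W) 0 := by
        simp only [hεdef, ← hW]
        split_ifs with h
        · rw [max_eq_left (by linarith)]; ring
        · rw [max_eq_right (by linarith [not_lt.1 h])]; ring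
      rw [e1]
      have e2 : max (-W) 0 ≤ τ t / 2 + W ^ 2 / (2 * τ t) := by
        have h3 : 0 ≤ (τ t - |W|) ^ 2 / (2 * τ t) := by positivity
        have h4 : (τ t - |W|) ^ 2 / (2 * τ t) = τ t / 2 + W ^ 2 / (2 * τ t) - |W| := by
          rw [sub_sq, sq_abs]
          field_simp
          ring
        have h5 : max (-W) 0 ≤ |W| := max_le (neg_le_abs W) (abs_nonneg W)
        linarith
      have e3 : 0 ≤ W ^ 2 / (2 * τ t) := by positivity
      unfold act
      split_ifs with h
      · linarith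
      · linarith
    have hsum : ∑ i ∈ Finset.range (2 ^ t), ∑ j ∈ Finset.range (2 ^ t),
        ((max (-(Wn m ξ t i j)) 0 - (Wn m ξ t i j) ^ 2 / (2 * τ t)) -
        (1 - act m a ε t i j) * (τ t / 2)) ≤
        ∑ i ∈ Finset.range (2 ^ t), ∑ j ∈ Finset.range (2 ^ t),
          act m a ε t i j * (ε t i j * (-(Wn m ξ t i j))) := by
      apply Finset.sum_le_sum
      intro i _
      apply Finset.sum_le_sum
      intro j _
      exact hterm i j
    have hsplit : ∑ i ∈ Finset.range (2 ^ t), ∑ j ∈ Finset.range (2 ^ t),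
        ((max (-(Wn m ξ t i j)) 0 - (Wn m ξ t i j) ^ 2 / (2 * τ t)) -
        (1 - act m a ε t i j) * (τ t / 2)) =
        ∑ i ∈ Finset.range (2 ^ t), ∑ j ∈ Finset.range (2 ^ t),
        (max (-(Wn m ξ t i j)) 0 - (Wn m ξ t i j) ^ 2 / (2 * τ t)) -
        (∑ i ∈ Finset.range (2 ^ t), ∑ j ∈ Finset.range (2 ^ t), (1 - act m a ε t i j)) * (τ t / 2) := by
      rw [Finset.sum_mul, ← Finset.sum_sub_distrib]
      apply Finset.sum_congr rfl
      intro i _
      rw [Finset.sum_mul, ← Finset.sum_sub_distrib]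
    rw [hsplit] at hsum
    have hfin : -∑ i ∈ Finset.range (2 ^ t), ∑ j ∈ Finset.range (2 ^ t),
        a * act m a ε t i j * ε t i j * Wn m ξ t i j = a * ∑ i ∈ Finset.range (2 ^ t), ∑ j ∈ Finset.range (2 ^ t),
          act m a ε t i j * (ε t i j * (-(Wn m ξ t i j))) := by
      simp only [Finset.mul_sum, ← Finset.sum_neg_distrib]
      apply Finset.sum_congr rfl
      intro i _
      apply Finset.sum_congr rfl
      intro j _
      ring
    rw [hfin]
    apply mul_le_mul_of_nonneg_left _ ha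
    refine le_trans ?_ hsum
    have := hτ t
    have h2 := mul_le_mul_of_nonneg_right hdead (show 0 ≤ τ t / 2 by positivity)
    linarith

end Pool.Agent.Helper52.PM
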