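import Pool.Agent.Helper52.PM.Pois
import Pool.Agent.Helper52.PM.Cone

set_option autoImplicit false

open MeasureTheory ProbabilityTheory
open scoped ENNReal NNReal

namespace Pool.Agent.Helper52.PM

variable {q : ℕ} {lam : Fin q → ℝ} {V : Finset (Fin q → ℕ)}

/-- Coloured cell set. -/
def cset (q x y : ℕ) : Set (CPt q) := {p | p.2 ∈ cell x y}

theorem cset_meas (q x y : ℕ) : MeasurableSet (cset q x y) := measurable_snd (cell_meas x y)

theorem unitSq_eq : unitSq = cell 0 0 := by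
  ext p
  simp [unitSq, cell]

theorem cell_shift (x y : ℕ) : sp (WithLp.toLp 2 ![(x : ℝ), (y : ℝ)]) ⁻¹' (cset q x y) = cset q 0 0 := by
  ext p
  simp only [sp, cset, cell, Set.mem_preimage, Set.mem_ofPred_eq, PiLp.add_apply]
  simp only [Matrix.cons_val_zero, Matrix.cons_val_one, Nat.cast_zero, zero_add]
  constructor
  · rintro ⟨h1, h2, h3, h4⟩
    exact ⟨by linarith, by linarith, by linarith, by linarith⟩
  · rintro ⟨h1, h2, h3, h4⟩
    exact ⟨by linarith, by linarith, by linarith, by linarith⟩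

section Scheme

variable {Ω : Type*} [MeasurableSpace Ω] {P : Measure Ω}
  {Pi : Fin q → Ω → Set Plane} {M : Ω → Conf q}

theorem palmTail_eq (hS : IsScheme P lam V Pi M) (r : ℝ) :
    palmTail P lam Pi M r =
      (∫⁻ ω, (((badSet (cset q 0 0) r (M ω)).encard : ℕ∞) : ℝ≥0∞) ∂P) / ENNReal.ofReal (∑ i, lam i) := by
  unfold palmTail
  congr 1
  apply lintegral_congr_ae
  filter_upwards [hS.cover] with ω h
  congr 2
  ext p
  unfold badSet cset
  rw [unitSq_eq]
  simp only [Set.mem_ofPred_eq]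
  constructor
  · rintro ⟨h1, h2, h3⟩
    exact ⟨h2, h3⟩
  · rintro ⟨h2, F, hF, hp, hr⟩
    exact ⟨(h p).1 ⟨F, hF, hp⟩, h2, F, hF, hp, hr⟩

theorem bad_cell (hS : IsScheme P lam V Pi M) (hlam : 0 < ∑ i, lam i) (r : ℕ) (x y : ℕ) :
    ∫⁻ ω, (((badSet (cset q x y) r (M ω)).encard : ℕ∞) : ℝ≥0∞) ∂P =
      palmTail P lam Pi M r * ENNReal.ofReal (∑ i, lam i) := by
  rw [bad_invariant hS.measurable hS.disjoint hS.invariant (cset_meas q x y)
    (by positivity : (0 : ℝ) ≤ (r : ℝ)) (WithLp.toLp 2 ![(x : ℝ), (y : ℝ)]), cell_shift, palmTail_eq hS,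
    ENNReal.div_mul_cancel]
  · simpa using hlam
  · exact ENNReal.ofReal_ne_top

theorem bad_aemeas (hS : IsScheme P lam V Pi M) (r : ℕ) (x y : ℕ) :
    AEMeasurable (fun ω => (((badSet (cset q x y) r (M ω)).encard : ℕ∞) : ℝ≥0∞)) P := by
  have hMm : Measurable[_, confSigma q] M := fun E hE => hS.measurable E hE
  refine ⟨fun ω => Phi (cset q x y) r (M ω), ?_, ?_⟩
  · exact (measurable_Phi (cset_meas q x y) (by positivity : (0 : ℝ) ≤ (r : ℝ))).comp hMm
  · filter_upwards [hS.disjoint] with ω h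
    exact bad_eq_Phi _ _ h

theorem cnt_aemeas (hS : IsScheme P lam V Pi M) (i : Fin q) (x y : ℕ) :
    AEMeasurable (fun ω => ((Pi i ω ∩ cell x y).ncard : ℝ≥0∞)) P :=
  (measurable_of_countable (fun n : ℕ => (n : ℝ≥0∞))).comp_aemeasurable
    (cell_law hS.poisson i x y).aemeasurable

theorem box_finite (hS : IsScheme P lam V Pi M) (m : ℕ) :
    ∀ᵐ ω ∂P, ({p : CPt q | p.2 ∈ Pi p.1 ω} ∩ {p | p.2 ∈ box m}).Finite := by
  filter_upwards [hS.poisson.locallyFinite] with ω h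
  have h1 : (⋃ i : Fin q, (fun u : Plane => (i, u)) '' (Pi i ω ∩ box m)).Finite :=
    Set.finite_iUnion fun i => (h i (box m) (box_bdd m)).image _
  apply h1.subset
  rintro ⟨i, u⟩ ⟨h2, h3⟩
  exact Set.mem_iUnion.2 ⟨i, u, ⟨h2, h3⟩, rfl⟩

end Scheme

/-- Main lower bound. -/
theorem palm_sum_lower.{u} (hlam : ∀ i, 0 < lam i) (hcrit : lam ∈ frontier (coneOf V)) :
    ∃ c > 0, ∃ m0 : ℕ, ∀ (Ω : Type u) [MeasurableSpace Ω] (P : Measure Ω) [IsProbabilityMeasure P]
      (Pi : Fin q → Ω → Set Plane) (M : Ω → Conf q), IsScheme P lam V Pi M → ∀ m : ℕ, m0 ≤ m →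
      ENNReal.ofReal (c * Real.sqrt m) ≤ 1 + ∑ r ∈ Finset.range (2 ^ m), palmTail P lam Pi M r := by
  obtain ⟨w, hw0, hwV, hwl⟩ := exists_functional hcrit
  have hne : Nonempty (Fin q) := by
    by_contra hc
    rw [not_nonempty_iff] at hc
    exact hw0 (Subsingleton.elim _ _)
  have hs2 : 0 < ∑ c, w c ^ 2 * pv (lam c).toNNReal := by
    obtain ⟨c, hc⟩ := Function.ne_iff.1 hw0
    apply Finset.sum_pos'
    · intro i _
      have := pv_pos (Real.toNNReal_pos.2 (hlam i))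
      positivity
    · refine ⟨c, Finset.mem_univ c, ?_⟩
      have := pv_pos (Real.toNNReal_pos.2 (hlam c))
      have h2 : 0 < w c ^ 2 := by
        have : w c ≠ 0 := hc
        positivity
      positivity
  obtain ⟨c, hc, m0, hgain⟩ := noise_gain.{u} w (fun c => pv (lam c).toNNReal)
    (fun c => pu (lam c).toNNReal) (fun c => pu_nonneg _) hs2
  set Lam := ∑ i, lam i with hLam
  have hLpos : 0 < Lam := Finset.sum_pos (fun i _ => hlam i) Finset.univ_nonempty
  set K := ∑ i, |w i| with hK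
  have hKw : ∀ i, |w i| ≤ K := fun i =>
    Finset.single_le_sum (f := fun i => |w i|) (fun _ _ => abs_nonneg _) (Finset.mem_univ i)
  have hKpos : 0 < K := by
    obtain ⟨i, hi⟩ := Function.ne_iff.1 hw0
    exact lt_of_lt_of_le (abs_pos.2 hi) (hKw i)
  refine ⟨c / (2 * K * Lam), by positivity, m0, ?_⟩
  intro Ω _ P _ Pi M hS m hm
  obtain ⟨L, hLi, hLlow, hLω⟩ := hgain Ω P (cnt lam Pi) (noiseData hS.poisson) m hm
  -- pointwise bound
  have hpt : ∀ᵐ ω ∂P, ENNReal.ofReal (L ω) ≤ ENNReal.ofReal K *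
      (2 * ∑ x ∈ Finset.range (2 ^ m), ∑ y ∈ Finset.range (2 ^ m), ∑ i, ((Pi i ω ∩ cell x y).ncard : ℝ≥0∞) +
       2 * ∑ r ∈ Finset.range (2 ^ m), ∑ x ∈ Finset.range (2 ^ m), ∑ y ∈ Finset.range (2 ^ m),
        (((badSet (cset q x y) r (M ω)).encard : ℕ∞) : ℝ≥0∞)) := by
    filter_upwards [box_finite hS m, hS.types, hS.disjoint, hS.cover] with ω h1 h2 h3 h4
    obtain ⟨G, hG, hGL⟩ := hLω ω
    have hxi : ∀ x y, xi w (cnt lam Pi) ω x y =
        ∑ i, w i * (({u : Plane | (i, u) ∈ {p : CPt q | p.2 ∈ Pi p.1 ω} ∧ u ∈ cell x y}.ncard : ℕ) : ℝ) := by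
      intro x y
      have e : ∀ i, {u : Plane | (i, u) ∈ {p : CPt q | p.2 ∈ Pi p.1 ω} ∧ u ∈ cell x y} = Pi i ω ∩ cell x y :=
        fun i => rfl
      simp only [e]
      unfold xi cnt
      simp only [mul_sub, Finset.sum_sub_distrib]
      have : ∑ i, w i * ((lam i).toNNReal : ℝ) = 0 := by
        rw [← hwl]
        apply Finset.sum_congr rfl
        intro i _
        rw [Real.coe_toNNReal _ (hlam i).le]
      rw [this, sub_zero]
    have hci := config_ineq hG hKw h1 (fun F hF => (h2 F hF).1) (fun F hF => hwV _ (h2 F hF).2) h3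
      (fun p => h4 p)
    simp only [hxi] at hGL
    refine (ENNReal.ofReal_le_ofReal (hGL.trans hci)).trans ?_
    rw [ENNReal.ofReal_mul hKpos.le]
    gcongr
    rw [ENNReal.ofReal_add (by positivity) (by positivity), ENNReal.ofReal_mul (by norm_num),
      ENNReal.ofReal_mul (by norm_num)]
    simp only [ENNReal.ofReal_ofNat]
    gcongr
    · rw [ENNReal.ofReal_sum_of_nonneg (fun _ _ => by positivity)]
      apply Finset.sum_le_sum
      intro x _
      rw [ENNReal.ofReal_sum_of_nonneg (fun _ _ => by positivity)]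
      apply Finset.sum_le_sum
      intro y _
      rw [ENNReal.ofReal_sum_of_nonneg (fun _ _ => by positivity)]
      apply Finset.sum_le_sum
      intro i _
      rw [ENNReal.ofReal_natCast]
      exact le_rfl
    · rw [ENNReal.ofReal_sum_of_nonneg (fun _ _ => by positivity)]
      apply Finset.sum_le_sum
      intro r _
      rw [ENNReal.ofReal_sum_of_nonneg (fun _ _ => by positivity)]
      apply Finset.sum_le_sum
      intro x hx
      rw [ENNReal.ofReal_sum_of_nonneg (fun _ _ => by positivity)]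
      apply Finset.sum_le_sum
      intro y hy
      rw [ENNReal.ofReal_natCast]
      have e : {p : CPt q | p ∈ {p : CPt q | p.2 ∈ Pi p.1 ω} ∧ p.2 ∈ cell x y ∧
          ∃ F ∈ M ω, p ∈ F ∧ (r : ℝ) < fdiam F} = badSet (cset q x y) r (M ω) := by
        ext p
        unfold badSet cset
        simp only [Set.mem_ofPred_eq]
        constructor
        · rintro ⟨-, h6, h7⟩
          exact ⟨h6, h7⟩
        · rintro ⟨h6, F, hF, hp, hr⟩
          exact ⟨(h4 p).1 ⟨F, hF, hp⟩, h6, F, hF, hp, hr⟩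
      rw [e]
      have hfin : (badSet (cset q x y) r (M ω)).Finite := by
        apply h1.subset
        rw [← e]
        rintro p ⟨h5, h6, -⟩
        exact ⟨h5, cell_sub_box (Finset.mem_range.1 hx) (Finset.mem_range.1 hy) h6⟩
      rw [← hfin.cast_ncard_eq, ENat.toENNReal_coe]
  -- integrate
  have hint : ENNReal.ofReal (c * Real.sqrt m * 4 ^ m) ≤ ∫⁻ ω, ENNReal.ofReal (L ω) ∂P := by
    refine (ENNReal.ofReal_le_ofReal hLlow).trans ?_
    have h1 : ∫ ω, L ω ∂P ≤ ∫ ω, max (L ω) 0 ∂P :=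
      integral_mono hLi hLi.pos_part (fun ω => le_max_left _ _)
    refine (ENNReal.ofReal_le_ofReal h1).trans ?_
    rw [ofReal_integral_eq_lintegral_ofReal hLi.pos_part (by filter_upwards with ω; exact le_max_right _ _)]
    apply lintegral_mono
    intro ω
    simp
  have hint2 := hint.trans (lintegral_mono_ae hpt)
  have hm1 : ∀ x y : ℕ, AEMeasurable (fun ω => ∑ i, ((Pi i ω ∩ cell x y).ncard : ℝ≥0∞)) P := fun x y =>
    Finset.aemeasurable_fun_sum _ (fun i _ => cnt_aemeas hS i x y)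
  have hm2 : ∀ x : ℕ, AEMeasurable (fun ω => ∑ y ∈ Finset.range (2 ^ m), ∑ i, ((Pi i ω ∩ cell x y).ncard : ℝ≥0∞)) P :=
    fun x => Finset.aemeasurable_fun_sum _ (fun y _ => hm1 x y)
  have hm3 : AEMeasurable (fun ω => ∑ x ∈ Finset.range (2 ^ m), ∑ y ∈ Finset.range (2 ^ m),
      ∑ i, ((Pi i ω ∩ cell x y).ncard : ℝ≥0∞)) P := Finset.aemeasurable_fun_sum _ (fun x _ => hm2 x)
  have hb2 : ∀ (r x : ℕ), AEMeasurable (fun ω => ∑ y ∈ Finset.range (2 ^ m),
      (((badSet (cset q x y) r (M ω)).encard : ℕ∞) : ℝ≥0∞)) P := fun r x =>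
    Finset.aemeasurable_fun_sum _ (fun y _ => bad_aemeas hS r x y)
  have hb1 : ∀ r : ℕ, AEMeasurable (fun ω => ∑ x ∈ Finset.range (2 ^ m), ∑ y ∈ Finset.range (2 ^ m),
      (((badSet (cset q x y) r (M ω)).encard : ℕ∞) : ℝ≥0∞)) P := fun r =>
    Finset.aemeasurable_fun_sum _ (fun x _ => hb2 r x)
  have hb0 : AEMeasurable (fun ω => ∑ r ∈ Finset.range (2 ^ m), ∑ x ∈ Finset.range (2 ^ m),
      ∑ y ∈ Finset.range (2 ^ m), (((badSet (cset q x y) r (M ω)).encard : ℕ∞) : ℝ≥0∞)) P :=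
    Finset.aemeasurable_fun_sum _ (fun r _ => hb1 r)
  have hval1 : ∫⁻ ω, ∑ x ∈ Finset.range (2 ^ m), ∑ y ∈ Finset.range (2 ^ m),
      ∑ i, ((Pi i ω ∩ cell x y).ncard : ℝ≥0∞) ∂P = 4 ^ m * ENNReal.ofReal Lam := by
    rw [lintegral_finsetSum' _ (fun x _ => hm2 x)]
    have e1 : ∀ x ∈ Finset.range (2 ^ m), ∫⁻ ω, ∑ y ∈ Finset.range (2 ^ m),
        ∑ i, ((Pi i ω ∩ cell x y).ncard : ℝ≥0∞) ∂P = 2 ^ m * ENNReal.ofReal Lam := by
      intro x _
      rw [lintegral_finsetSum' _ (fun y _ => hm1 x y)]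
      have e2 : ∀ y ∈ Finset.range (2 ^ m), ∫⁻ ω, ∑ i, ((Pi i ω ∩ cell x y).ncard : ℝ≥0∞) ∂P =
          ENNReal.ofReal Lam := by
        intro y _
        rw [lintegral_finsetSum' _ (fun i _ => cnt_aemeas hS i x y)]
        simp_rw [cell_lintegral hS.poisson]
        rw [hLam, ENNReal.ofReal_sum_of_nonneg (fun i _ => (hlam i).le)]
      rw [Finset.sum_congr rfl e2, Finset.sum_const, Finset.card_range, nsmul_eq_mul]
      push_cast
      rfl
    rw [Finset.sum_congr rfl e1, Finset.sum_const, Finset.card_range, nsmul_eq_mul]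
    push_cast
    rw [← mul_assoc, ← mul_pow]
    norm_num
  have hval2 : ∫⁻ ω, ∑ r ∈ Finset.range (2 ^ m), ∑ x ∈ Finset.range (2 ^ m),
      ∑ y ∈ Finset.range (2 ^ m), (((badSet (cset q x y) r (M ω)).encard : ℕ∞) : ℝ≥0∞) ∂P =
      4 ^ m * ENNReal.ofReal Lam * ∑ r ∈ Finset.range (2 ^ m), palmTail P lam Pi M r := by
    rw [lintegral_finsetSum' _ (fun r _ => hb1 r), Finset.mul_sum]
    apply Finset.sum_congr rfl
    intro r _
    rw [lintegral_finsetSum' _ (fun x _ => hb2 r x)]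
    have e1 : ∀ x ∈ Finset.range (2 ^ m), ∫⁻ ω, ∑ y ∈ Finset.range (2 ^ m),
        (((badSet (cset q x y) r (M ω)).encard : ℕ∞) : ℝ≥0∞) ∂P =
        2 ^ m * (palmTail P lam Pi M r * ENNReal.ofReal Lam) := by
      intro x _
      rw [lintegral_finsetSum' _ (fun y _ => bad_aemeas hS r x y)]
      rw [Finset.sum_congr rfl (fun y _ => bad_cell hS hLpos r x y), Finset.sum_const, Finset.card_range,
        nsmul_eq_mul]
      push_cast
      rfl
    rw [Finset.sum_congr rfl e1, Finset.sum_const, Finset.card_range, nsmul_eq_mul]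
    push_cast
    rw [← mul_assoc, ← mul_pow]
    norm_num
    ring
  rw [lintegral_const_mul' _ _ ENNReal.ofReal_ne_top, lintegral_add_left' (hm3.const_mul _),
    lintegral_const_mul' _ _ (by norm_num), lintegral_const_mul' _ _ (by norm_num), hval1, hval2] at hint2
  have h4 : (4 : ℝ≥0∞) ^ m = ENNReal.ofReal (4 ^ m) := by
    rw [ENNReal.ofReal_pow (by norm_num)]
    norm_num
  have hfin : ENNReal.ofReal (c * Real.sqrt m * 4 ^ m) ≤ ENNReal.ofReal (2 * K * Lam * 4 ^ m) *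
      (1 + ∑ r ∈ Finset.range (2 ^ m), palmTail P lam Pi M r) := by
    refine hint2.trans (le_of_eq ?_)
    rw [ENNReal.ofReal_mul (by positivity), ENNReal.ofReal_mul (by positivity), ENNReal.ofReal_mul (by norm_num),
      ← h4, ENNReal.ofReal_ofNat]
    ring
  have hdiv : ENNReal.ofReal (c / (2 * K * Lam) * Real.sqrt m) * ENNReal.ofReal (2 * K * Lam * 4 ^ m) ≤
      (1 + ∑ r ∈ Finset.range (2 ^ m), palmTail P lam Pi M r) * ENNReal.ofReal (2 * K * Lam * 4 ^ m) := by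
    rw [← ENNReal.ofReal_mul (by positivity)]
    have e : c / (2 * K * Lam) * Real.sqrt m * (2 * K * Lam * 4 ^ m) = c * Real.sqrt m * 4 ^ m := by
      field_simp
    rw [e, mul_comm (1 + _)]
    exact hfin
  have hp : (0 : ℝ) < 2 * K * Lam * 4 ^ m := by positivity
  exact (ENNReal.mul_le_mul_iff_left (by simpa using hp) ENNReal.ofReal_ne_top).1 hdiv

end Pool.Agent.Helper52.PM
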