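import Pool.Agent.Helper52.PM.Defs

set_option autoImplicit false

open MeasureTheory ProbabilityTheory
open scoped ENNReal NNReal

namespace Pool.Agent.Helper52.PM

variable {q : ℕ}

attribute [local instance 10000] famSigma confSigma

/-- Translation of coloured points. -/
def sp (z : Plane) (p : CPt q) : CPt q := (p.1, p.2 + z)

theorem sp_inj (z : Plane) : Function.Injective (sp z : CPt q → CPt q) := by
  rintro ⟨i, x⟩ ⟨j, y⟩ h
  simp only [sp, Prod.mk.injEq, add_left_inj] at h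
  exact Prod.ext h.1 h.2

theorem sp_surj (z : Plane) : Function.Surjective (sp z : CPt q → CPt q) := by
  rintro ⟨i, x⟩
  exact ⟨(i, x - z), by simp [sp]⟩

theorem sp_meas (z : Plane) : Measurable (sp z : CPt q → CPt q) := by
  unfold sp
  fun_prop

theorem coe_shiftFam (z : Plane) (F : Fam q) : ((shiftFam z F : Fam q) : Set (CPt q)) = sp z '' (F : Set (CPt q)) := by
  unfold shiftFam
  rw [Finset.coe_image]
  rfl

theorem mem_shiftFam (z : Plane) (F : Fam q) (p : CPt q) : sp z p ∈ shiftFam z F ↔ p ∈ F := by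
  rw [← Finset.mem_coe, coe_shiftFam, (sp_inj z).mem_set_image, Finset.mem_coe]

theorem shiftFam_inj (z : Plane) : Function.Injective (shiftFam z : Fam q → Fam q) := by
  intro F F' h
  ext p
  rw [← mem_shiftFam z F, ← mem_shiftFam z F', h]

theorem fdiam_shiftFam (z : Plane) (F : Fam q) : fdiam (shiftFam z F) = fdiam F := by
  unfold fdiam
  rw [coe_shiftFam, Set.image_image]
  have : (fun p : CPt q => (sp z p).2) '' (F : Set (CPt q)) = (fun x => x + z) '' ((fun p : CPt q => p.2) '' (F : Set (CPt q))) := by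
    rw [Set.image_image]; rfl
  rw [this]
  exact (Isometry.diam_image (IsometryEquiv.addRight z).isometry _)

/-- Measurability of counts of families. -/
theorem measurableSet_count {B : Set (CPt q)} (hB : MeasurableSet B) (n : ℕ) :
    MeasurableSet[famSigma q] {F : Fam q | ((F : Set (CPt q)) ∩ B).ncard = n} :=
  MeasurableSpace.measurableSet_generateFrom ⟨B, n, hB, rfl⟩

theorem measurable_shiftFam (z : Plane) : Measurable[famSigma q, famSigma q] (shiftFam z : Fam q → Fam q) := by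
  apply measurable_generateFrom
  rintro _ ⟨B, n, hB, rfl⟩
  have : shiftFam z ⁻¹' {F : Fam q | ((F : Set (CPt q)) ∩ B).ncard = n} =
      {F : Fam q | ((F : Set (CPt q)) ∩ (sp z ⁻¹' B)).ncard = n} := by
    ext F
    simp only [Set.mem_preimage, Set.mem_ofPred_eq]
    rw [coe_shiftFam, ← Set.image_inter_preimage, Set.ncard_image_of_injective _ (sp_inj z)]
  rw [this]
  exact measurableSet_count (sp_meas z hB) n

theorem measurable_shiftConf (z : Plane) :
    Measurable[confSigma q, confSigma q] (shiftConf z : Conf q → Conf q) := by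
  apply measurable_generateFrom
  rintro _ ⟨A, n, hA, rfl⟩
  have : shiftConf z ⁻¹' {c : Conf q | (c ∩ A).encard = n} =
      {c : Conf q | (c ∩ (shiftFam z ⁻¹' A)).encard = n} := by
    ext c
    simp only [Set.mem_preimage, Set.mem_ofPred_eq, shiftConf]
    rw [← Set.image_inter_preimage, (shiftFam_inj z).encard_image]
  rw [this]
  exact MeasurableSpace.measurableSet_generateFrom ⟨_, n, measurable_shiftFam z hA, rfl⟩

theorem lt_fdiam_iff {r : ℝ} (hr : 0 ≤ r) (F : Fam q) :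
    r < fdiam F ↔ ∃ p ∈ F, ∃ p' ∈ F, r < dist p.2 p'.2 := by
  constructor
  · intro h
    by_contra hc
    push Not at hc
    apply absurd h (not_lt.2 _)
    unfold fdiam
    apply Metric.diam_le_of_forall_dist_le hr
    rintro _ ⟨p, hp, rfl⟩ _ ⟨p', hp', rfl⟩
    exact hc p hp p' hp'
  · rintro ⟨p, hp, p', hp', h⟩
    refine lt_of_lt_of_le h ?_
    unfold fdiam
    apply Metric.dist_le_diam_of_mem ((F.finite_toSet).image _).isBounded
    · exact ⟨p, hp, rfl⟩
    · exact ⟨p', hp', rfl⟩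

theorem measurableSet_hit {B : Set Plane} (hB : MeasurableSet B) :
    MeasurableSet[famSigma q] {F : Fam q | ∃ p ∈ F, p.2 ∈ B} := by
  have h1 : MeasurableSet {p : CPt q | p.2 ∈ B} := measurable_snd hB
  have h2 := (measurableSet_count h1 0).compl
  convert h2 using 1
  ext F
  simp only [Set.mem_ofPred_eq, Set.mem_compl_iff]
  rw [Set.ncard_eq_zero ((F.finite_toSet).inter_of_left _)]
  rw [← ne_eq, ← Set.nonempty_iff_ne_empty]
  constructor
  · rintro ⟨p, hp, hpB⟩
    exact ⟨p, hp, hpB⟩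
  · rintro ⟨p, hp, hpB⟩
    exact ⟨p, hp, hpB⟩

theorem measurableSet_lt_fdiam {r : ℝ} (hr : 0 ≤ r) :
    MeasurableSet[famSigma q] {F : Fam q | r < fdiam F} := by
  set d := TopologicalSpace.denseSeq Plane with hd
  have hdense := TopologicalSpace.denseRange_denseSeq Plane
  have : {F : Fam q | r < fdiam F} = ⋃ (n : ℕ) (n' : ℕ) (k : ℕ)
      (_ : r + 2 / ((k : ℝ) + 1) < dist (d n) (d n')),
      {F : Fam q | ∃ p ∈ F, p.2 ∈ Metric.ball (d n) (1 / ((k : ℝ) + 1))} ∩
      {F : Fam q | ∃ p ∈ F, p.2 ∈ Metric.ball (d n') (1 / ((k : ℝ) + 1))} := by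
    ext F
    simp only [Set.mem_ofPred_eq, Set.mem_iUnion, Set.mem_inter_iff, Metric.mem_ball, exists_prop]
    rw [lt_fdiam_iff hr]
    constructor
    · rintro ⟨p, hp, p', hp', h⟩
      obtain ⟨k, hk⟩ := exists_nat_one_div_lt (show 0 < (dist p.2 p'.2 - r) / 4 by linarith)
      have hk0 : (0 : ℝ) < 1 / ((k : ℝ) + 1) := by positivity
      obtain ⟨n, hn⟩ := hdense.exists_dist_lt p.2 hk0
      obtain ⟨n', hn'⟩ := hdense.exists_dist_lt p'.2 hk0
      refine ⟨n, n', k, ?_, ⟨p, hp, hn⟩, ⟨p', hp', hn'⟩⟩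
      have h1 := dist_triangle4 p.2 (d n) (d n') p'.2
      rw [dist_comm (d n') p'.2] at h1
      have h2 : (2 : ℝ) / ((k : ℝ) + 1) = 2 * (1 / ((k : ℝ) + 1)) := by ring
      rw [h2]
      linarith
    · rintro ⟨n, n', k, h, ⟨p, hp, h1⟩, ⟨p', hp', h2⟩⟩
      refine ⟨p, hp, p', hp', ?_⟩
      have h3 := dist_triangle4 (d n) p.2 p'.2 (d n')
      rw [dist_comm (d n) p.2] at h3
      have h4 : (2 : ℝ) / ((k : ℝ) + 1) = 2 * (1 / ((k : ℝ) + 1)) := by ring
      rw [h4] at h
      linarith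
  rw [this]
  refine MeasurableSet.iUnion fun n => MeasurableSet.iUnion fun n' => MeasurableSet.iUnion fun k =>
    MeasurableSet.iUnion fun _ => ?_
  exact (measurableSet_hit measurableSet_ball).inter (measurableSet_hit measurableSet_ball)

/-- Points of `A` in families of diameter `> r`. -/
def badSet (A : Set (CPt q)) (r : ℝ) (c : Conf q) : Set (CPt q) :=
  {p | p ∈ A ∧ ∃ F ∈ c, p ∈ F ∧ r < fdiam F}

/-- Measurable version of the count of bad points. -/
noncomputable def Phi (A : Set (CPt q)) (r : ℝ) (c : Conf q) : ℝ≥0∞ :=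
  ∑' j : ℕ, (j : ℝ≥0∞) *
    (((c ∩ {F : Fam q | ((F : Set (CPt q)) ∩ A).ncard = j ∧ r < fdiam F}).encard : ℕ∞) : ℝ≥0∞)

theorem measurable_encard {A : Set (Fam q)} (hA : MeasurableSet[famSigma q] A) :
    Measurable[confSigma q] (fun c : Conf q => (c ∩ A).encard) := by
  apply measurable_to_countable'
  intro n
  exact MeasurableSpace.measurableSet_generateFrom ⟨A, n, hA, rfl⟩

theorem measurable_Phi {A : Set (CPt q)} (hA : MeasurableSet A) {r : ℝ} (hr : 0 ≤ r) :
    Measurable[confSigma q] (Phi A r) := by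
  unfold Phi
  apply Measurable.tsum
  intro j
  apply Measurable.const_mul
  exact (measurable_of_countable (fun n : ℕ∞ => (n : ℝ≥0∞))).comp
    (measurable_encard ((measurableSet_count hA j).inter (measurableSet_lt_fdiam hr)))

open Classical in
theorem bad_eq_Phi (A : Set (CPt q)) (r : ℝ) {c : Conf q}
    (hdis : ∀ F ∈ c, ∀ F' ∈ c, F ≠ F' → Disjoint F F') :
    (((badSet A r c).encard : ℕ∞) : ℝ≥0∞) = Phi A r c := by
  rw [← ENNReal.tsum_set_one, tsum_subtype (badSet A r c) (fun _ => (1 : ℝ≥0∞))]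
  have h1 : ∀ p : CPt q, (badSet A r c).indicator (fun _ => (1 : ℝ≥0∞)) p =
      ∑' F : Fam q, if (F ∈ c ∧ r < fdiam F) ∧ (p ∈ F ∧ p ∈ A) then (1 : ℝ≥0∞) else 0 := by
    intro p
    by_cases hp : p ∈ badSet A r c
    · rw [Set.indicator_of_mem hp]
      obtain ⟨hpA, F, hF, hpF, hr⟩ := hp
      rw [tsum_eq_single F]
      · rw [if_pos ⟨⟨hF, hr⟩, hpF, hpA⟩]
      · intro F' hF'
        rw [if_neg]
        rintro ⟨⟨h1, h2⟩, h3, h4⟩
        exact Finset.disjoint_left.1 (hdis F' h1 F hF hF') h3 hpF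
    · rw [Set.indicator_of_notMem hp]
      symm
      rw [ENNReal.tsum_eq_zero]
      intro F
      rw [if_neg]
      rintro ⟨⟨h1, h2⟩, h3, h4⟩
      exact hp ⟨h4, F, h1, h3, h2⟩
  simp_rw [h1]
  rw [ENNReal.tsum_comm]
  have h2 : ∀ F : Fam q, ∑' p : CPt q, (if (F ∈ c ∧ r < fdiam F) ∧ (p ∈ F ∧ p ∈ A) then (1 : ℝ≥0∞) else 0) =
      if F ∈ c ∧ r < fdiam F then ((((F : Set (CPt q)) ∩ A).ncard : ℕ) : ℝ≥0∞) else 0 := by
    intro F
    by_cases hF : F ∈ c ∧ r < fdiam F
    · rw [if_pos hF]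
      simp only [hF, true_and]
      have h3 : ∀ p : CPt q, (if (p ∈ F ∧ p ∈ A) then (1 : ℝ≥0∞) else 0) =
          ((F : Set (CPt q)) ∩ A).indicator (fun _ => (1 : ℝ≥0∞)) p := by
        intro p
        rw [Set.indicator_apply]
        rfl
      simp_rw [h3]
      have h5 : ((F : Set (CPt q)) ∩ A).encard = ((((F : Set (CPt q)) ∩ A).ncard : ℕ) : ℕ∞) :=
        (Set.Finite.cast_ncard_eq ((F.finite_toSet).inter_of_left _)).symm
      rw [← tsum_subtype, ENNReal.tsum_set_one, h5, ENat.toENNReal_coe]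
    · rw [if_neg hF]
      simp only [hF, false_and, if_false, tsum_zero]
  simp_rw [h2]
  have h4 : ∀ F : Fam q, (if F ∈ c ∧ r < fdiam F then ((((F : Set (CPt q)) ∩ A).ncard : ℕ) : ℝ≥0∞) else 0) =
      ∑' j : ℕ, (j : ℝ≥0∞) * (c ∩ {F : Fam q | ((F : Set (CPt q)) ∩ A).ncard = j ∧ r < fdiam F}).indicator
        (fun _ => (1 : ℝ≥0∞)) F := by
    intro F
    rw [tsum_eq_single (((F : Set (CPt q)) ∩ A).ncard)]
    · rw [Set.indicator_apply]
      split_ifs with h5 h6 h6
      · rw [mul_one]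
      · exact absurd ⟨h5.1, rfl, h5.2⟩ h6
      · exact absurd ⟨h6.1, h6.2.2⟩ h5
      · rw [mul_zero]
    · intro j hj
      rw [Set.indicator_of_notMem, mul_zero]
      rintro ⟨-, h5, -⟩
      exact hj h5.symm
  simp_rw [h4]
  rw [ENNReal.tsum_comm]
  unfold Phi
  apply tsum_congr
  intro j
  rw [ENNReal.tsum_mul_left, ← ENNReal.tsum_set_one, tsum_subtype _ (fun _ => (1 : ℝ≥0∞))]

theorem badSet_shift (z : Plane) (A : Set (CPt q)) (r : ℝ) (c : Conf q) :
    (badSet A r (shiftConf z c)).encard = (badSet (sp z ⁻¹' A) r c).encard := by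
  rw [← (sp_inj z).encard_image (badSet (sp z ⁻¹' A) r c)]
  congr 1
  ext p
  obtain ⟨p, rfl⟩ := sp_surj z p
  rw [(sp_inj z).mem_set_image]
  unfold badSet shiftConf
  simp only [Set.mem_ofPred_eq, Set.mem_preimage, Set.mem_image]
  constructor
  · rintro ⟨h1, F, ⟨F', h2, rfl⟩, h3, h4⟩
    exact ⟨h1, F', h2, (mem_shiftFam z F' p).1 h3, by rwa [fdiam_shiftFam] at h4⟩
  · rintro ⟨h1, F', h2, h3, h4⟩
    exact ⟨h1, shiftFam z F', ⟨F', h2, rfl⟩, (mem_shiftFam z F' p).2 h3, by rwa [fdiam_shiftFam]⟩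

theorem disjoint_shift (z : Plane) {c : Conf q} (hdis : ∀ F ∈ c, ∀ F' ∈ c, F ≠ F' → Disjoint F F') :
    ∀ F ∈ shiftConf z c, ∀ F' ∈ shiftConf z c, F ≠ F' → Disjoint F F' := by
  rintro _ ⟨F, hF, rfl⟩ _ ⟨F', hF', rfl⟩ hne
  have h := hdis F hF F' hF' (fun h => hne (by rw [h]))
  rw [Finset.disjoint_left]
  intro p hp hp'
  obtain ⟨p, rfl⟩ := sp_surj z p
  exact Finset.disjoint_left.1 h ((mem_shiftFam z F p).1 hp) ((mem_shiftFam z F' p).1 hp')

/-- Invariance of the expected number of bad points. -/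
theorem bad_invariant {Ω : Type*} [MeasurableSpace Ω] {P : Measure Ω} {M : Ω → Conf q}
    (hM : ∀ E : Set (Conf q), MeasurableSet[confSigma q] E → MeasurableSet {ω | M ω ∈ E})
    (hdis : ∀ᵐ ω ∂P, ∀ F ∈ M ω, ∀ F' ∈ M ω, F ≠ F' → Disjoint F F')
    (hinv : ∀ (z : Plane) (E : Set (Conf q)), MeasurableSet[confSigma q] E →
      P {ω | shiftConf z (M ω) ∈ E} = P {ω | M ω ∈ E})
    {A : Set (CPt q)} (hA : MeasurableSet A) {r : ℝ} (hr : 0 ≤ r) (z : Plane) :
    ∫⁻ ω, (((badSet A r (M ω)).encard : ℕ∞) : ℝ≥0∞) ∂P =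
      ∫⁻ ω, (((badSet (sp z ⁻¹' A) r (M ω)).encard : ℕ∞) : ℝ≥0∞) ∂P := by
  have hMm : Measurable[_, confSigma q] M := fun E hE => hM E hE
  have hMs : Measurable[_, confSigma q] (fun ω => shiftConf z (M ω)) := (measurable_shiftConf z).comp hMm
  have hmap : @Measure.map _ _ _ (confSigma q) (fun ω => shiftConf z (M ω)) P =
      @Measure.map _ _ _ (confSigma q) M P := by
    ext E hE
    rw [Measure.map_apply hMs hE, Measure.map_apply hMm hE]
    exact hinv z E hE
  calc ∫⁻ ω, (((badSet A r (M ω)).encard : ℕ∞) : ℝ≥0∞) ∂P = ∫⁻ ω, Phi A r (M ω) ∂P := by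
        apply lintegral_congr_ae
        filter_upwards [hdis] with ω h
        exact bad_eq_Phi A r h
    _ = ∫⁻ c, Phi A r c ∂(@Measure.map _ _ _ (confSigma q) M P) := by
        rw [lintegral_map (measurable_Phi hA hr) hMm]
    _ = ∫⁻ ω, Phi A r (shiftConf z (M ω)) ∂P := by
        rw [← hmap, lintegral_map (measurable_Phi hA hr) hMs]
    _ = ∫⁻ ω, (((badSet A r (shiftConf z (M ω))).encard : ℕ∞) : ℝ≥0∞) ∂P := by
        apply lintegral_congr_ae
        filter_upwards [hdis] with ω h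
        exact (bad_eq_Phi A r (disjoint_shift z h)).symm
    _ = _ := by
        simp_rw [badSet_shift]

end Pool.Agent.Helper52.PM
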