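import Pool.Agent.Helper52.PM.Config
import Pool.Agent.Helper52.PM.Meas

set_option autoImplicit false

open MeasureTheory ProbabilityTheory
open scoped ENNReal NNReal Nat

namespace Pool.Agent.Helper52.PM

theorem poisson_integrable_pow4 (r : ℝ≥0) : Integrable (fun n : ℕ => (n : ℝ) ^ 4) (poissonMeasure r) := by
  rw [integrable_poissonMeasure_iff]
  have hs := (Real.summable_pow_div_factorial (Real.exp 1 * r)).mul_left (Real.exp (-r) * 24)
  refine Summable.of_nonneg_of_le (fun n => by positivity) (fun n => ?_) hs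
  have h1 : (n : ℝ) ^ 4 ≤ 24 * Real.exp 1 ^ n := by
    have h := Real.pow_div_factorial_le_exp (n : ℝ) (show (0 : ℝ) ≤ n by positivity) 4
    rw [div_le_iff₀ (by positivity)] at h
    rw [← Real.exp_nat_mul, mul_one]
    have h4 : ((4 ! : ℕ) : ℝ) = 24 := by norm_num [Nat.factorial]
    rw [h4] at h
    linarith
  rw [Real.norm_of_nonneg (by positivity)]
  calc Real.exp (-r) * r ^ n / (n)! * (n : ℝ) ^ 4 ≤ Real.exp (-r) * r ^ n / (n)! * (24 * Real.exp 1 ^ n) :=
        mul_le_mul_of_nonneg_left h1 (by positivity)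
    _ = Real.exp (-r) * 24 * ((Real.exp 1 * r) ^ n / (n)!) := by rw [mul_pow]; ring

theorem poisson_memLp (r : ℝ≥0) : MemLp (fun n : ℕ => (n : ℝ)) 4 (poissonMeasure r) := by
  have h := poisson_integrable_pow4 r
  rw [← integrable_norm_rpow_iff (measurable_of_countable _).aestronglyMeasurable (by norm_num) (by norm_num)]
  refine h.congr ?_
  filter_upwards with n
  rw [Real.norm_of_nonneg (by positivity), show (4 : ℝ≥0∞).toReal = ((4 : ℕ) : ℝ) by norm_num, Real.rpow_natCast]

theorem poisson_integrable (r : ℝ≥0) : Integrable (fun n : ℕ => (n : ℝ)) (poissonMeasure r) :=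
  (poisson_memLp r).integrable (by norm_num)

theorem poisson_mean (r : ℝ≥0) : ∫ n : ℕ, (n : ℝ) ∂(poissonMeasure r) = r := by
  have h := hasSum_integral_poissonMeasure (poisson_integrable r)
  have h2 : HasSum (fun n : ℕ => (Real.exp (-r) * r ^ n / (n)!) • (n : ℝ)) r := by
    rw [← hasSum_nat_add_iff' 1]
    simp only [Finset.range_one, Finset.sum_singleton, Nat.cast_zero, smul_zero, sub_zero]
    have h3 := (hasSum_one_poissonMeasure r).mul_left (r : ℝ)
    rw [mul_one] at h3
    have h4 : (fun n : ℕ => (Real.exp (-r) * (r : ℝ) ^ (n + 1) / ((n + 1)! : ℕ)) • ((n + 1 : ℕ) : ℝ)) =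
        fun n : ℕ => (r : ℝ) * (Real.exp (-r) * r ^ n / (n)!) := by
      funext n
      rw [smul_eq_mul, Nat.factorial_succ]
      push_cast
      field_simp
      ring
    rw [h4]
    exact h3
  exact h.unique h2

theorem poisson_lintegral (r : ℝ≥0) : ∫⁻ n : ℕ, (n : ℝ≥0∞) ∂(poissonMeasure r) = r := by
  have h := ofReal_integral_eq_lintegral_ofReal (poisson_integrable r) (by
    filter_upwards with n; positivity)
  rw [poisson_mean] at h
  simp only [ENNReal.ofReal_natCast, ENNReal.ofReal_coe_nnreal] at h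
  exact h.symm

/-- Second and fourth central moments. -/
noncomputable def pv (r : ℝ≥0) : ℝ := ∫ n : ℕ, ((n : ℝ) - r) ^ 2 ∂(poissonMeasure r)
noncomputable def pu (r : ℝ≥0) : ℝ := ∫ n : ℕ, ((n : ℝ) - r) ^ 4 ∂(poissonMeasure r)

theorem pu_nonneg (r : ℝ≥0) : 0 ≤ pu r := integral_nonneg fun n => by positivity

theorem poisson_memLp' (r : ℝ≥0) : MemLp (fun n : ℕ => (n : ℝ) - r) 4 (poissonMeasure r) :=
  (poisson_memLp r).sub (memLp_const _)

theorem pv_pos {r : ℝ≥0} (hr : 0 < r) : 0 < pv r := by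
  have hint := integrable_pow4 (poisson_memLp' r) (k := 2) (by norm_num)
  have h1 : (poissonMeasure r).real {0} * (r : ℝ) ^ 2 ≤ pv r := by
    have h2 : ∫ n : ℕ, ({0} : Set ℕ).indicator (fun _ => (r : ℝ) ^ 2) n ∂(poissonMeasure r) =
        (poissonMeasure r).real {0} * (r : ℝ) ^ 2 := by
      rw [integral_indicator (by measurability), setIntegral_const, smul_eq_mul]
    rw [← h2]
    unfold pv
    apply integral_mono
    · exact (integrable_const _).indicator (by measurability)
    · exact hint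
    · intro n
      by_cases hn : n = 0
      · subst hn; simp
      · simp only [Set.mem_singleton_iff, hn, not_false_eq_true, Set.indicator_of_notMem]
        positivity
  have h3 := poissonMeasure_real_singleton_pos 0 hr
  have h4 : (0 : ℝ) < r := hr
  have : 0 < (poissonMeasure r).real {0} * (r : ℝ) ^ 2 := by positivity
  linarith

theorem cell_eq (x y : ℕ) : cell x y = (@WithLp.ofLp 2 (Fin 2 → ℝ)) ⁻¹'
    (Set.pi Set.univ fun i => Set.Ico (![(x : ℝ), (y : ℝ)] i) (![(x : ℝ) + 1, (y : ℝ) + 1] i)) := by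
  ext p
  simp [cell, Fin.forall_fin_two, and_assoc]

theorem cell_meas (x y : ℕ) : MeasurableSet (cell x y) := by
  rw [cell_eq]
  exact (PiLp.volume_preserving_ofLp (Fin 2)).measurable (MeasurableSet.univ_pi fun _ => measurableSet_Ico)

theorem cell_vol (x y : ℕ) : volume (cell x y) = 1 := by
  rw [cell_eq, (PiLp.volume_preserving_ofLp (Fin 2)).measure_preimage
    (MeasurableSet.univ_pi fun _ => measurableSet_Ico).nullMeasurableSet, Real.volume_pi_Ico]
  simp

theorem box_bdd (m : ℕ) : Bornology.IsBounded (box m) := by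
  rw [Metric.isBounded_iff]
  refine ⟨Real.sqrt (2 * (2 ^ m) ^ 2), ?_⟩
  intro p hp p' hp'
  rw [EuclideanSpace.dist_eq]
  apply Real.sqrt_le_sqrt
  rw [Fin.sum_univ_two, Real.dist_eq, Real.dist_eq, sq_abs, sq_abs]
  obtain ⟨h1, h2, h3, h4⟩ := hp
  obtain ⟨h1', h2', h3', h4'⟩ := hp'
  have a1 : (p 0 - p' 0) ^ 2 ≤ (2 ^ m) ^ 2 := by
    apply sq_le_sq'
    · linarith
    · linarith
  have a2 : (p 1 - p' 1) ^ 2 ≤ (2 ^ m) ^ 2 := by
    apply sq_le_sq'
    · linarith
    · linarith
  linarith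

theorem cell_bdd (x y : ℕ) : Bornology.IsBounded (cell x y) := by
  obtain ⟨m, hm⟩ : ∃ m : ℕ, x < 2 ^ m ∧ y < 2 ^ m := ⟨x + y, by
    constructor
    · exact lt_of_le_of_lt (Nat.le_add_right _ _) Nat.lt_two_pow_self
    · exact lt_of_le_of_lt (Nat.le_add_left _ _) Nat.lt_two_pow_self⟩
  exact (box_bdd m).subset (cell_sub_box hm.1 hm.2)

theorem cell_disjoint {x y x' y' : ℕ} (h : (x, y) ≠ (x', y')) : Disjoint (cell x y) (cell x' y') := by
  rw [Set.disjoint_left]
  intro p hp hp'
  apply h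
  rw [← cx_of_cell hp, ← cx_of_cell hp', ← cy_of_cell hp, ← cy_of_cell hp']

variable {q : ℕ} {Ω : Type*} [MeasurableSpace Ω] {P : Measure Ω} [IsProbabilityMeasure P]
  {lam : Fin q → ℝ} {Pi : Fin q → Ω → Set Plane}

omit [IsProbabilityMeasure P] in
theorem cell_law (h : IsPoisson P lam Pi) (i : Fin q) (x y : ℕ) :
    HasLaw (fun ω => (Pi i ω ∩ cell x y).ncard) (poissonMeasure (lam i).toNNReal) P := by
  have := h.law i (cell x y) (cell_bdd x y) (cell_meas x y)
  rw [cell_vol] at this
  simpa using this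

/-- Centred counts. -/
noncomputable def cnt (lam : Fin q → ℝ) (Pi : Fin q → Ω → Set Plane) (z : Fin q × ℕ × ℕ) (ω : Ω) : ℝ :=
  ((Pi z.1 ω ∩ cell z.2.1 z.2.2).ncard : ℝ) - ((lam z.1).toNNReal : ℝ)

omit [IsProbabilityMeasure P] in
theorem noiseData (h : IsPoisson P lam Pi) :
    NoiseData (fun c => pv (lam c).toNNReal) (fun c => pu (lam c).toNNReal) P (cnt lam Pi) := by
  have hlaw := fun z : Fin q × ℕ × ℕ => cell_law h z.1 z.2.1 z.2.2
  refine ⟨?_, ?_, ?_, ?_, ?_, ?_⟩
  · intro z
    have h1 := (hlaw z).aemeasurable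
    exact ((measurable_of_countable (fun n : ℕ => (n : ℝ) - ((lam z.1).toNNReal : ℝ))).comp_aemeasurable h1)
  · have h1 := h.indep (Fin q × ℕ × ℕ) (fun z => z.1) (fun z => cell z.2.1 z.2.2)
      (fun z => ⟨cell_bdd _ _, cell_meas _ _⟩) (by
        rintro ⟨c, x, y⟩ ⟨c', x', y'⟩ hne
        by_cases hc : c = c'
        · right
          apply cell_disjoint
          intro h2
          apply hne
          rw [hc, h2]
        · left; exact hc)
    exact h1.comp (fun z (n : ℕ) => (n : ℝ) - ((lam z.1).toNNReal : ℝ)) (fun z => measurable_of_countable _)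
  · intro z
    have h1 := poisson_memLp' (lam z.1).toNNReal
    rw [← (hlaw z).map_eq] at h1
    exact (memLp_map_measure_iff h1.1 (hlaw z).aemeasurable).1 h1
  · intro z
    have h1 := (hlaw z).integral_comp (f := fun n : ℕ => (n : ℝ) - ((lam z.1).toNNReal : ℝ))
      (measurable_of_countable _).aestronglyMeasurable
    have h2 : ∫ n : ℕ, ((n : ℝ) - ((lam z.1).toNNReal : ℝ)) ∂(poissonMeasure (lam z.1).toNNReal) = 0 := by
      rw [integral_sub (poisson_integrable _) (integrable_const _), poisson_mean]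
      simp
    rw [h2] at h1
    exact h1
  · intro z
    have h1 := (hlaw z).integral_comp (f := fun n : ℕ => ((n : ℝ) - ((lam z.1).toNNReal : ℝ)) ^ 2)
      (measurable_of_countable _).aestronglyMeasurable
    exact h1
  · intro z
    have h1 := (hlaw z).integral_comp (f := fun n : ℕ => ((n : ℝ) - ((lam z.1).toNNReal : ℝ)) ^ 4)
      (measurable_of_countable _).aestronglyMeasurable
    exact h1

omit [IsProbabilityMeasure P] in
theorem cell_lintegral (h : IsPoisson P lam Pi) (i : Fin q) (x y : ℕ) :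
    ∫⁻ ω, ((Pi i ω ∩ cell x y).ncard : ℝ≥0∞) ∂P = ENNReal.ofReal (lam i) := by
  have h1 := (cell_law h i x y).lintegral_comp (f := fun n : ℕ => (n : ℝ≥0∞))
    (measurable_of_countable _).aemeasurable
  rw [poisson_lintegral] at h1
  exact h1

end Pool.Agent.Helper52.PM
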