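import Pool.Agent.Helper52.PM.Main

set_option autoImplicit false

open MeasureTheory ProbabilityTheory Filter
open scoped ENNReal NNReal

namespace Pool.Agent.Helper52.PM

theorem dyadic_sum {t : ℕ → ℝ} (hanti : Antitone t) (h1 : ∀ r, t r ≤ 1) {C : ℝ} (hC : 0 ≤ C) {k0 : ℕ}
    (hk0 : 1 ≤ k0) (hup : ∀ r : ℕ, 2 ^ k0 ≤ r → t r * (r * Real.log r) ≤ C) :
    ∀ n : ℕ, ∑ r ∈ Finset.range (2 ^ (k0 + n)), t r ≤
      2 ^ k0 + 2 * (C / Real.log 2) * (harmonic (k0 + n) : ℝ) := by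
  have hlog2 : 0 < Real.log 2 := Real.log_pos (by norm_num)
  have hCl : 0 ≤ C / Real.log 2 := by positivity
  intro n
  induction n with
  | zero =>
    rw [add_zero]
    have h2 : ∑ r ∈ Finset.range (2 ^ k0), t r ≤ ∑ r ∈ Finset.range (2 ^ k0), (1 : ℝ) :=
      Finset.sum_le_sum fun r _ => h1 r
    rw [Finset.sum_const, Finset.card_range, nsmul_eq_mul, mul_one] at h2
    push_cast at h2
    have h3 : (0 : ℝ) ≤ (harmonic k0 : ℝ) := by
      have : (0 : ℚ) < harmonic k0 := harmonic_pos (by omega)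
      exact_mod_cast this.le
    have h4 : 0 ≤ 2 * (C / Real.log 2) * (harmonic k0 : ℝ) := by positivity
    linarith
  | succ n ih =>
    have e0 : k0 + (n + 1) = (k0 + n) + 1 := by ring
    rw [e0]
    set m := k0 + n with hm
    have e1 : (2 : ℕ) ^ (m + 1) = 2 ^ m + 2 ^ m := by rw [pow_succ]; ring
    rw [e1, Finset.sum_range_add]
    have hm1 : 1 ≤ m := by omega
    have hmR : (1 : ℝ) ≤ m := by exact_mod_cast hm1
    have h2 : ∀ r ∈ Finset.range (2 ^ m), t (2 ^ m + r) ≤ t (2 ^ m) := fun r _ => hanti (by omega)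
    have h3 : ∑ r ∈ Finset.range (2 ^ m), t (2 ^ m + r) ≤ 2 ^ m * t (2 ^ m) := by
      refine (Finset.sum_le_sum h2).trans (le_of_eq ?_)
      rw [Finset.sum_const, Finset.card_range, nsmul_eq_mul]
      push_cast
      rfl
    have h4 : t (2 ^ m) * (2 ^ m * (m * Real.log 2)) ≤ C := by
      have := hup (2 ^ m) (Nat.pow_le_pow_right (by norm_num) (by omega))
      push_cast at this
      rwa [Real.log_pow] at this
    have h5 : 2 ^ m * t (2 ^ m) ≤ C / Real.log 2 * (1 / (m : ℝ)) := by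
      rw [div_mul_div_comm, mul_one, le_div_iff₀ (by positivity)]
      calc 2 ^ m * t (2 ^ m) * (Real.log 2 * m) = t (2 ^ m) * (2 ^ m * (m * Real.log 2)) := by ring
        _ ≤ C := h4
    have h6 : ((harmonic (m + 1) : ℚ) : ℝ) = (harmonic m : ℝ) + 1 / ((m : ℝ) + 1) := by
      rw [harmonic_succ]; push_cast; rw [one_div]
    have h7 : 1 / (m : ℝ) ≤ 2 * (1 / ((m : ℝ) + 1)) := by
      rw [mul_one_div, div_le_div_iff₀ (by positivity) (by positivity)]
      linarith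
    have h8 := mul_le_mul_of_nonneg_left h7 hCl
    rw [h6]
    linarith

theorem no_log_tail {t : ℕ → ℝ} (hanti : Antitone t) (h0 : ∀ r, 0 ≤ t r) (h1 : ∀ r, t r ≤ 1)
    {c C : ℝ} (hc : 0 < c) {m0 r0 : ℕ}
    (hlow : ∀ m : ℕ, m0 ≤ m → c * Real.sqrt m ≤ 1 + ∑ r ∈ Finset.range (2 ^ m), t r)
    (hup : ∀ r : ℕ, r0 ≤ r → t r * (r * Real.log r) ≤ C) : False := by
  have hlog2 : 0 < Real.log 2 := Real.log_pos (by norm_num)
  have hC : 0 ≤ C := by
    have := hup (r0 + 1) (by omega)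
    refine le_trans ?_ this
    have h2 : 0 ≤ Real.log ((r0 + 1 : ℕ) : ℝ) := Real.log_natCast_nonneg _
    have h3 := h0 (r0 + 1)
    positivity
  obtain ⟨k0, hk0⟩ : ∃ k0 : ℕ, k0 = r0 + 1 := ⟨_, rfl⟩
  have hk1 : 1 ≤ k0 := by omega
  have hup' : ∀ r : ℕ, 2 ^ k0 ≤ r → t r * (r * Real.log r) ≤ C := by
    intro r hr
    apply hup
    have : k0 < 2 ^ k0 := Nat.lt_two_pow_self
    omega
  have hd := dyadic_sum hanti h1 hC hk1 hup'
  set B := 2 * (C / Real.log 2) with hB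
  have hB0 : 0 ≤ B := by positivity
  set A : ℝ := 1 + 2 ^ k0 + B with hA
  have hA0 : 0 ≤ A := by positivity
  obtain ⟨n, hn⟩ := exists_nat_gt ((A + 4 * B) / c + m0 + k0 + 1)
  have hq : 0 ≤ (A + 4 * B) / c := by positivity
  have hn1 : (1 : ℝ) ≤ n := by
    have : (0 : ℝ) ≤ m0 := by positivity
    have : (0 : ℝ) ≤ k0 := by positivity
    linarith
  have hnm : m0 + k0 ≤ n := by
    have : ((m0 + k0 : ℕ) : ℝ) ≤ n := by push_cast; linarith
    exact_mod_cast this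
  have hn1' : 1 ≤ n := by exact_mod_cast hn1
  have hn4 : n ≤ n ^ 4 := Nat.le_self_pow (by norm_num) n
  have h2 := hlow (n ^ 4) (by omega)
  have h3 := hd (n ^ 4 - k0)
  rw [Nat.add_sub_cancel' (by omega)] at h3
  have h4 : ((harmonic (n ^ 4) : ℚ) : ℝ) ≤ 1 + 4 * n := by
    refine (harmonic_le_one_add_log (n ^ 4)).trans ?_
    push_cast
    rw [Real.log_pow]
    have := Real.log_le_sub_one_of_pos (show (0 : ℝ) < n by linarith)
    push_cast
    linarith
  have h5 : Real.sqrt ((n ^ 4 : ℕ) : ℝ) = n ^ 2 := by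
    rw [show ((n ^ 4 : ℕ) : ℝ) = ((n : ℝ) ^ 2) ^ 2 by push_cast; ring]
    exact Real.sqrt_sq (by positivity)
  rw [h5] at h2
  have h6 : B * (harmonic (n ^ 4) : ℝ) ≤ B * (1 + 4 * n) := mul_le_mul_of_nonneg_left h4 hB0
  have h7 : c * (n : ℝ) ^ 2 ≤ (A + 4 * B) * n := by
    have : A ≤ A * n := by nlinarith
    nlinarith
  have h8 : c * (n : ℝ) ≤ A + 4 * B := by
    have hnp : (0 : ℝ) < n := by linarith
    by_contra hcon
    push Not at hcon
    nlinarith
  have h9 : (A + 4 * B) / c < n := by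
    have : (0 : ℝ) ≤ m0 := by positivity
    have : (0 : ℝ) ≤ k0 := by positivity
    linarith
  rw [div_lt_iff₀ hc] at h9
  linarith

variable {q : ℕ} {lam : Fin q → ℝ} {V : Finset (Fin q → ℕ)}
variable {Ω : Type*} [MeasurableSpace Ω] {P : Measure Ω}
  {Pi : Fin q → Ω → Set Plane} {M : Ω → Conf q}

theorem palmTail_anti : Antitone (palmTail P lam Pi M) := by
  intro r r' h
  unfold palmTail
  gcongr with ω

theorem palmTail_le_one (hS : IsScheme P lam V Pi M) (hlam : ∀ i, 0 < lam i) (r : ℝ) :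
    palmTail P lam Pi M r ≤ 1 := by
  unfold palmTail
  apply ENNReal.div_le_of_le_mul
  rw [one_mul]
  calc _ ≤ ∫⁻ ω, ∑ i, ((Pi i ω ∩ cell 0 0).ncard : ℝ≥0∞) ∂P := by
        apply lintegral_mono_ae
        filter_upwards [hS.poisson.locallyFinite] with ω h
        have e1 : {p : CPt q | p.2 ∈ Pi p.1 ω ∧ p.2 ∈ unitSq ∧ ∃ F ∈ M ω, p ∈ F ∧ r < fdiam F} ⊆
            ⋃ i : Fin q, (fun u : Plane => (i, u)) '' (Pi i ω ∩ cell 0 0) := by
          rintro ⟨i, u⟩ ⟨h1, h2, -⟩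
          rw [unitSq_eq] at h2
          exact Set.mem_iUnion.2 ⟨i, u, ⟨h1, h2⟩, rfl⟩
        have e2 : ({p : CPt q | p.2 ∈ Pi p.1 ω ∧ p.2 ∈ unitSq ∧ ∃ F ∈ M ω, p ∈ F ∧ r < fdiam F}).encard ≤
            ((∑ i, (Pi i ω ∩ cell 0 0).ncard : ℕ) : ℕ∞) := by
          refine (Set.encard_le_encard e1).trans ((Set.encard_iUnion_le_of_fintype _).trans ?_)
          push_cast
          apply Finset.sum_le_sum
          intro i _
          rw [Function.Injective.encard_image (Prod.mk_right_injective i),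
            (h i (cell 0 0) (cell_bdd 0 0)).cast_ncard_eq]
        have e3 := ENat.toENNReal_le.2 e2
        refine e3.trans ?_
        rw [ENat.toENNReal_coe]
        push_cast
        exact le_rfl
    _ = ∑ i, ENNReal.ofReal (lam i) := by
        rw [lintegral_finsetSum' _ (fun i _ => cnt_aemeas hS i 0 0)]
        simp_rw [cell_lintegral hS.poisson]
    _ = ENNReal.ofReal (∑ i, lam i) := by
        rw [ENNReal.ofReal_sum_of_nonneg (fun i _ => (hlam i).le)]
    _ ≤ _ := le_rfl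

theorem limsup_eq_top (hS : IsScheme P lam V Pi M) (hlam : ∀ i, 0 < lam i) {c : ℝ} (hc : 0 < c) {m0 : ℕ}
    (hlow : ∀ m : ℕ, m0 ≤ m →
      ENNReal.ofReal (c * Real.sqrt m) ≤ 1 + ∑ r ∈ Finset.range (2 ^ m), palmTail P lam Pi M r) :
    limsup (fun r : ℝ => ENNReal.ofReal (r * Real.log r) * palmTail P lam Pi M r) atTop = ⊤ := by
  by_contra hne
  obtain ⟨C, hC, -⟩ := ENNReal.lt_iff_exists_nnreal_btwn.1 (lt_top_iff_ne_top.2 hne)
  have hev := eventually_lt_of_limsup_lt hC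
  obtain ⟨r1, hr1⟩ := eventually_atTop.1 hev
  have hT1 := palmTail_le_one hS hlam
  have hTfin : ∀ r : ℝ, palmTail P lam Pi M r ≠ ⊤ := fun r => ne_top_of_le_ne_top ENNReal.one_ne_top (hT1 r)
  refine no_log_tail (t := fun r : ℕ => (palmTail P lam Pi M r).toReal) (c := c) (C := C) (m0 := m0)
    (r0 := ⌈r1⌉₊ + 1) ?_ ?_ ?_ hc ?_ ?_
  · intro r r' h
    exact ENNReal.toReal_mono (hTfin _) (palmTail_anti (by exact_mod_cast h))
  · intro r
    exact ENNReal.toReal_nonneg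
  · intro r
    have := ENNReal.toReal_mono ENNReal.one_ne_top (hT1 r)
    simpa using this
  · intro m hm
    have h1 := hlow m hm
    have h2 : 1 + ∑ r ∈ Finset.range (2 ^ m), palmTail P lam Pi M r =
        ENNReal.ofReal (1 + ∑ r ∈ Finset.range (2 ^ m), (palmTail P lam Pi M r).toReal) := by
      rw [ENNReal.ofReal_add zero_le_one (Finset.sum_nonneg fun _ _ => ENNReal.toReal_nonneg),
        ENNReal.ofReal_sum_of_nonneg (fun _ _ => ENNReal.toReal_nonneg), ENNReal.ofReal_one]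
      congr 1
      apply Finset.sum_congr rfl
      intro r _
      rw [ENNReal.ofReal_toReal (hTfin _)]
    rw [h2] at h1
    refine (ENNReal.ofReal_le_ofReal_iff ?_).1 h1
    have : 0 ≤ ∑ r ∈ Finset.range (2 ^ m), (palmTail P lam Pi M r).toReal :=
      Finset.sum_nonneg fun _ _ => ENNReal.toReal_nonneg
    linarith
  · intro r hr
    have h1 : r1 ≤ (r : ℝ) := by
      have h2 : ((⌈r1⌉₊ : ℕ) : ℝ) ≤ r := by exact_mod_cast (by omega : ⌈r1⌉₊ ≤ r)
      exact (Nat.le_ceil r1).trans h2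
    have h3 := hr1 r h1
    have h4 : (0 : ℝ) ≤ (r : ℝ) * Real.log r := mul_nonneg (by positivity) (Real.log_natCast_nonneg r)
    have h5 := ENNReal.toReal_mono ENNReal.coe_ne_top h3.le
    rw [ENNReal.toReal_mul, ENNReal.toReal_ofReal h4] at h5
    simp only [ENNReal.coe_toReal] at h5
    linarith

theorem no_bound (hS : IsScheme P lam V Pi M) (hlam : ∀ i, 0 < lam i) {c : ℝ} (hc : 0 < c) {m0 : ℕ}
    (hlow : ∀ m : ℕ, m0 ≤ m →
      ENNReal.ofReal (c * Real.sqrt m) ≤ 1 + ∑ r ∈ Finset.range (2 ^ m), palmTail P lam Pi M r) :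
    ¬ ∃ C : ℝ, ∀ᶠ r : ℝ in atTop, palmTail P lam Pi M r < ENNReal.ofReal (C / (r * Real.log r)) := by
  rintro ⟨C, hC⟩
  have h1 := limsup_eq_top hS hlam hc hlow
  have h2 : limsup (fun r : ℝ => ENNReal.ofReal (r * Real.log r) * palmTail P lam Pi M r) atTop ≤
      ENNReal.ofReal C := by
    apply limsup_le_of_le
    · exact ⟨0, fun a _ => bot_le⟩
    · filter_upwards [hC, eventually_gt_atTop (1 : ℝ)] with r hr hr1
      have h3 : 0 < r * Real.log r := mul_pos (by linarith) (Real.log_pos hr1)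
      calc ENNReal.ofReal (r * Real.log r) * palmTail P lam Pi M r ≤
          ENNReal.ofReal (r * Real.log r) * ENNReal.ofReal (C / (r * Real.log r)) := by gcongr
        _ = ENNReal.ofReal C := by
          rw [← ENNReal.ofReal_mul h3.le, mul_div_cancel₀ _ h3.ne']
  rw [h1] at h2
  exact ENNReal.ofReal_ne_top (top_le_iff.1 h2)

theorem lintegral_ge_sum {T : ℝ → ℝ≥0∞} (hT : Antitone T) (n : ℕ) :
    ∑ r ∈ Finset.range n, T ((r : ℝ) + 1) ≤ ∫⁻ r in Set.Ioc (0 : ℝ) n, T r := by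
  induction n with
  | zero => simp
  | succ n ih =>
    rw [Finset.sum_range_succ]
    have e : Set.Ioc (0 : ℝ) ((n + 1 : ℕ) : ℝ) = Set.Ioc (0 : ℝ) n ∪ Set.Ioc (n : ℝ) ((n : ℝ) + 1) := by
      push_cast
      rw [Set.Ioc_union_Ioc_eq_Ioc (by positivity) (by linarith)]
    rw [e, lintegral_union measurableSet_Ioc (by
      rw [Set.disjoint_left]
      intro x hx hx'
      exact absurd hx.2 (not_le.2 hx'.1))]
    apply add_le_add ih
    calc T ((n : ℝ) + 1) = ∫⁻ r in Set.Ioc (n : ℝ) ((n : ℝ) + 1), T ((n : ℝ) + 1) := by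
          rw [setLIntegral_const, Real.volume_Ioc]; simp
      _ ≤ _ := by
          apply setLIntegral_mono' measurableSet_Ioc
          intro x hx
          exact hT hx.2

theorem trunc_mean_lower (hS : IsScheme P lam V Pi M) (hlam : ∀ i, 0 < lam i) {c : ℝ} (hc : 0 < c)
    {m0 : ℕ} (hlow : ∀ m : ℕ, m0 ≤ m →
      ENNReal.ofReal (c * Real.sqrt m) ≤ 1 + ∑ r ∈ Finset.range (2 ^ m), palmTail P lam Pi M r)
    {R : ℝ} (hR : 2 ^ (m0 + ⌈(2 * (2 + c) / c) ^ 2⌉₊ + 1) ≤ R) :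
    ENNReal.ofReal (c / 2 * Real.sqrt (Real.log R)) ≤ ∫⁻ r in Set.Ioc 0 R, palmTail P lam Pi M r := by
  have hR1 : 1 ≤ R := le_trans (one_le_pow₀ (by norm_num)) hR
  set m := Nat.log 2 ⌊R⌋₊ with hm
  have hfl : ⌊R⌋₊ ≠ 0 := by
    have := Nat.floor_pos.2 hR1
    omega
  have h1 : 2 ^ m ≤ ⌊R⌋₊ := Nat.pow_log_le_self 2 hfl
  have h2 : ⌊R⌋₊ < 2 ^ (m + 1) := Nat.lt_pow_succ_log_self (by norm_num) _
  have h1R : (2 : ℝ) ^ m ≤ R := by
    have : ((2 ^ m : ℕ) : ℝ) ≤ R := le_trans (by exact_mod_cast h1) (Nat.floor_le (by linarith))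
    exact_mod_cast this
  have h2R : R < 2 ^ (m + 1) := by
    have := (Nat.floor_lt (by linarith)).1 h2
    exact_mod_cast this
  have hm0 : m0 + ⌈(2 * (2 + c) / c) ^ 2⌉₊ + 1 ≤ m := by
    have h3 : (2 : ℝ) ^ (m0 + ⌈(2 * (2 + c) / c) ^ 2⌉₊ + 1) < 2 ^ (m + 1) := lt_of_le_of_lt hR h2R
    have h4 := (pow_lt_pow_iff_right₀ (by norm_num : (1 : ℝ) < 2)).1 h3
    omega
  have hlogR : Real.log R ≤ m + 1 := by
    have h3 : Real.log R ≤ Real.log (2 ^ (m + 1)) := Real.log_le_log (by linarith) h2R.le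
    rw [Real.log_pow] at h3
    have h4 : Real.log 2 ≤ 1 := by
      have := Real.log_le_sub_one_of_pos (show (0 : ℝ) < 2 by norm_num)
      linarith
    push_cast at h3
    have h5 : (0 : ℝ) ≤ (m : ℝ) + 1 := by positivity
    nlinarith
  have hsq : Real.sqrt (Real.log R) ≤ Real.sqrt m + 1 := by
    apply Real.sqrt_le_iff.2
    refine ⟨by positivity, ?_⟩
    have h3 := Real.sq_sqrt (show (0 : ℝ) ≤ m by positivity)
    have h4 := Real.sqrt_nonneg (m : ℝ)
    nlinarith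
  have hmbig : 2 * (2 + c) / c ≤ Real.sqrt m := by
    apply Real.le_sqrt_of_sq_le
    have h3 : (2 * (2 + c) / c) ^ 2 ≤ ⌈(2 * (2 + c) / c) ^ 2⌉₊ := Nat.le_ceil _
    have h4 : ((⌈(2 * (2 + c) / c) ^ 2⌉₊ : ℕ) : ℝ) ≤ m := by exact_mod_cast (by omega)
    linarith
  have hkey : c / 2 * Real.sqrt (Real.log R) + 2 ≤ c * Real.sqrt m := by
    rw [div_le_iff₀ hc] at hmbig
    nlinarith
  have h3 := hlow m (by omega)
  have hT1 := palmTail_le_one hS hlam
  have h4 : ∑ r ∈ Finset.range (2 ^ m), palmTail P lam Pi M r ≤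
      1 + ∑ r ∈ Finset.range (2 ^ m), palmTail P lam Pi M ((r : ℝ) + 1) := by
    obtain ⟨n, hn⟩ : ∃ n, 2 ^ m = n + 1 := ⟨2 ^ m - 1, by have := Nat.one_le_two_pow (n := m); omega⟩
    rw [hn, Finset.sum_range_succ', Finset.sum_range_succ, add_comm]
    apply add_le_add (hT1 _)
    push_cast
    exact le_self_add
  have h5 : ∑ r ∈ Finset.range (2 ^ m), palmTail P lam Pi M ((r : ℝ) + 1) ≤
      ∫⁻ r in Set.Ioc 0 R, palmTail P lam Pi M r := by
    refine (lintegral_ge_sum palmTail_anti (2 ^ m)).trans ?_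
    apply lintegral_mono_set
    apply Set.Ioc_subset_Ioc_right
    push_cast
    exact h1R
  have h6 : ENNReal.ofReal (c / 2 * Real.sqrt (Real.log R)) + 2 ≤
      (∫⁻ r in Set.Ioc 0 R, palmTail P lam Pi M r) + 2 := by
    calc ENNReal.ofReal (c / 2 * Real.sqrt (Real.log R)) + 2 =
        ENNReal.ofReal (c / 2 * Real.sqrt (Real.log R) + 2) := by
          rw [ENNReal.ofReal_add (by positivity) (by norm_num), ENNReal.ofReal_ofNat]
      _ ≤ ENNReal.ofReal (c * Real.sqrt m) := ENNReal.ofReal_le_ofReal hkey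
      _ ≤ 1 + ∑ r ∈ Finset.range (2 ^ m), palmTail P lam Pi M r := h3
      _ ≤ 1 + (1 + ∑ r ∈ Finset.range (2 ^ m), palmTail P lam Pi M ((r : ℝ) + 1)) := by gcongr
      _ ≤ 1 + (1 + ∫⁻ r in Set.Ioc 0 R, palmTail P lam Pi M r) := by gcongr
      _ = _ := by ring
  exact (ENNReal.add_le_add_iff_right (by norm_num)).1 h6

end Pool.Agent.Helper52.PM
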